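import Mathlib

/-!
# The a-priori bound for the eigenvalues of the strip transfer matrices

Abstract form: a function `d` and `y = d(s+a) d(s-a) - 1`, `a = iπ/6`, with `y(s+a) y(s-a) = (1 - d s)^2` and a zero of order `K`
of `y` at `0`, satisfy `|d t| ≤ 2` and `|y t| ≤ 3 |tanh (3t/2)|^K` for real `t`.
-/

set_option autoImplicit false

namespace Ann

open Complex Set Filter Topology

/-- the function `tanh (3 s / 2)` -/
noncomputable def th (s : ℂ) : ℂ := Complex.tanh (3 * s / 2)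

/-- the shift `iπ/6` -/
noncomputable def sh : ℂ := ((Real.pi / 6 : ℝ) : ℂ) * I

@[simp] lemma sh_re : sh.re = 0 := by simp [sh]
@[simp] lemma sh_im : sh.im = Real.pi / 6 := by simp [sh]

lemma conj_sh : (starRingEnd ℂ) sh = -sh := by
  simp only [sh, map_mul, conj_ofReal, conj_I]; ring

/-! ### The function `th` -/

lemma normSq_sinh (z : ℂ) : ‖Complex.sinh z‖ ^ 2 = Real.sinh z.re ^ 2 + Real.sin z.im ^ 2 := by
  have h : Complex.sinh z = ((Real.sinh z.re * Real.cos z.im : ℝ) : ℂ) + ((Real.cosh z.re * Real.sin z.im : ℝ) : ℂ) * I := by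
    conv_lhs => rw [← Complex.re_add_im z, Complex.sinh_add, Complex.cosh_mul_I, Complex.sinh_mul_I]
    push_cast
    ring
  rw [h, ← Complex.normSq_eq_norm_sq, Complex.normSq_add_mul_I]
  nlinarith [Real.cosh_sq z.re, Real.sin_sq_add_cos_sq z.im]

lemma normSq_cosh (z : ℂ) : ‖Complex.cosh z‖ ^ 2 = Real.sinh z.re ^ 2 + Real.cos z.im ^ 2 := by
  have h : Complex.cosh z = ((Real.cosh z.re * Real.cos z.im : ℝ) : ℂ) + ((Real.sinh z.re * Real.sin z.im : ℝ) : ℂ) * I := by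
    conv_lhs => rw [← Complex.re_add_im z, Complex.cosh_add, Complex.cosh_mul_I, Complex.sinh_mul_I]
    push_cast
    ring
  rw [h, ← Complex.normSq_eq_norm_sq, Complex.normSq_add_mul_I]
  nlinarith [Real.cosh_sq z.re, Real.sin_sq_add_cos_sq z.im]

lemma cos_pos_of {x : ℝ} (h : |x| < Real.pi / 2) : 0 < Real.cos x :=
  Real.cos_pos_of_mem_Ioo ⟨by linarith [neg_abs_le x], by linarith [le_abs_self x]⟩

lemma cosh_ne {z : ℂ} (h : |z.im| < Real.pi / 2) : Complex.cosh z ≠ 0 := by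
  intro h0
  have h1 := normSq_cosh z
  rw [h0, norm_zero] at h1
  have := cos_pos_of h
  nlinarith [sq_nonneg (Real.sinh z.re)]

lemma arg_re (s : ℂ) : (3 * s / 2).re = 3 * s.re / 2 := by simp
lemma arg_im (s : ℂ) : (3 * s / 2).im = 3 * s.im / 2 := by simp

lemma cosh_arg_ne {s : ℂ} (h : |s.im| < Real.pi / 3) : Complex.cosh (3 * s / 2) ≠ 0 := by
  apply cosh_ne
  rw [arg_im, abs_div, abs_mul]
  simp only [Nat.abs_ofNat]
  linarith

lemma norm_th_sq {s : ℂ} (h : |s.im| < Real.pi / 3) :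
    ‖th s‖ ^ 2 * (Real.sinh (3 * s.re / 2) ^ 2 + Real.cos (3 * s.im / 2) ^ 2) =
      Real.sinh (3 * s.re / 2) ^ 2 + Real.sin (3 * s.im / 2) ^ 2 := by
  have h1 := normSq_sinh (3 * s / 2)
  have h2 := normSq_cosh (3 * s / 2)
  rw [arg_re, arg_im] at h1 h2
  rw [← h1, ← h2, ← mul_pow, ← norm_mul, th, Complex.tanh_eq_sinh_div_cosh, div_mul_cancel₀ _ (cosh_arg_ne h)]

lemma cos_sq_ge {y : ℝ} (h : |y| ≤ Real.pi / 6) : (1 : ℝ) / 2 ≤ Real.cos (3 * y / 2) ^ 2 := by
  have h1 : Real.cos (Real.pi / 4) ≤ Real.cos (|3 * y / 2|) := by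
    apply Real.cos_le_cos_of_nonneg_of_le_pi (abs_nonneg _)
    · linarith [Real.pi_pos]
    · rw [abs_div, abs_mul]; simp only [Nat.abs_ofNat]; linarith
  rw [Real.cos_abs, Real.cos_pi_div_four] at h1
  have h2 : (0 : ℝ) ≤ Real.sqrt 2 / 2 := by positivity
  have h3 : (Real.sqrt 2 / 2) ^ 2 ≤ Real.cos (3 * y / 2) ^ 2 := pow_le_pow_left₀ h2 h1 2
  have h4 : (Real.sqrt 2 / 2) ^ 2 = 1 / 2 := by rw [div_pow, Real.sq_sqrt (by norm_num)]; norm_num
  linarith

lemma norm_th_le {s : ℂ} (h : |s.im| ≤ Real.pi / 6) : ‖th s‖ ≤ 1 := by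
  have h1 := norm_th_sq (s := s) (by linarith [Real.pi_pos])
  have h2 := cos_sq_ge h
  have h3 := Real.sin_sq_add_cos_sq (3 * s.im / 2)
  have h4 := sq_nonneg (Real.sinh (3 * s.re / 2))
  rw [← sq_le_one_iff₀ (norm_nonneg _)]
  by_contra hc
  push Not at hc
  nlinarith

lemma norm_th_line {s : ℂ} (h : |s.im| = Real.pi / 6) : ‖th s‖ = 1 := by
  have h1 := norm_th_sq (s := s) (by linarith [Real.pi_pos])
  have h2 := cos_sq_ge h.le
  have hc : Real.cos (3 * s.im / 2) ^ 2 = 1 / 2 := by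
    rw [← Real.cos_abs, abs_div, abs_mul, h]
    simp only [Nat.abs_ofNat]
    rw [show 3 * (Real.pi / 6) / 2 = Real.pi / 4 by ring, Real.cos_pi_div_four, div_pow, Real.sq_sqrt (by norm_num)]
    norm_num
  have h3 := Real.sin_sq_add_cos_sq (3 * s.im / 2)
  have h4 := sq_nonneg (Real.sinh (3 * s.re / 2))
  have h5 : ‖th s‖ ^ 2 = 1 := by
    have : (‖th s‖ ^ 2 - 1) * (Real.sinh (3 * s.re / 2) ^ 2 + Real.cos (3 * s.im / 2) ^ 2) = 0 := by
      rw [sub_mul, h1]; linarith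
    rcases mul_eq_zero.1 this with h | h
    · linarith
    · nlinarith
  exact (pow_eq_one_iff_of_nonneg (norm_nonneg _) two_ne_zero).1 h5

lemma th_ne {s : ℂ} (h : |s.im| ≤ Real.pi / 6) (hs : s ≠ 0) : th s ≠ 0 := by
  intro h0
  have h1 := norm_th_sq (s := s) (by linarith [Real.pi_pos])
  rw [h0, norm_zero] at h1
  have e1 : Real.sinh (3 * s.re / 2) ^ 2 = 0 := by nlinarith [sq_nonneg (Real.sinh (3 * s.re / 2)), sq_nonneg (Real.sin (3 * s.im / 2))]
  have e2 : Real.sin (3 * s.im / 2) ^ 2 = 0 := by nlinarith [sq_nonneg (Real.sinh (3 * s.re / 2)), sq_nonneg (Real.sin (3 * s.im / 2))]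
  have e3 : Real.sinh (3 * s.re / 2) = 0 := by simpa using e1
  rw [Real.sinh_eq_zero] at e3
  have e4 : Real.sin (3 * s.im / 2) = 0 := by simpa using e2
  have hb := abs_le.1 h
  rw [Real.sin_eq_zero_iff_of_lt_of_lt (by linarith [Real.pi_pos]) (by linarith [Real.pi_pos])] at e4
  apply hs
  apply Complex.ext
  · simp; linarith
  · simp; linarith

lemma norm_th_ge {s : ℂ} (h : |s.im| ≤ Real.pi / 6) (hs : 1 ≤ |s.re|) : 1 / 2 ≤ ‖th s‖ := by
  have h1 := norm_th_sq (s := s) (by linarith [Real.pi_pos])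
  have h2 := cos_sq_ge h
  have h3 := Real.sin_sq_add_cos_sq (3 * s.im / 2)
  have h4 : 1 ≤ Real.sinh (3 * s.re / 2) ^ 2 := by
    rw [← sq_abs, Real.abs_sinh, abs_div, abs_mul]
    simp only [Nat.abs_ofNat]
    have h5 : 1 ≤ Real.sinh (3 * |s.re| / 2) := by
      have := Real.self_le_sinh_iff.2 (show 0 ≤ 3 * |s.re| / 2 by positivity)
      linarith
    nlinarith
  by_contra hc
  push Not at hc
  have h6 : ‖th s‖ ^ 2 < 1 / 4 := by nlinarith [norm_nonneg (th s)]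
  nlinarith [sq_nonneg (Real.sin (3 * s.im / 2)), sq_nonneg (Real.cos (3 * s.im / 2))]

lemma hasDerivAt_th {s : ℂ} (h : |s.im| < Real.pi / 3) :
    HasDerivAt th (3 / 2 / Complex.cosh (3 * s / 2) ^ 2) s := by
  have hc := cosh_arg_ne h
  have h0 : HasDerivAt (fun z : ℂ => 3 * z / 2) (3 / 2) s := by
    simpa using ((hasDerivAt_id s).const_mul 3).div_const 2
  have h1 : HasDerivAt (fun z : ℂ => Complex.sinh (3 * z / 2)) (Complex.cosh (3 * s / 2) * (3 / 2)) s := h0.csinh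
  have h2 : HasDerivAt (fun z : ℂ => Complex.cosh (3 * z / 2)) (Complex.sinh (3 * s / 2) * (3 / 2)) s := h0.ccosh
  have h3 := h1.div h2 hc
  have e : th = fun z : ℂ => Complex.sinh (3 * z / 2) / Complex.cosh (3 * z / 2) := by
    funext z; rw [th, Complex.tanh_eq_sinh_div_cosh]
  rw [e]
  have e2 : Complex.cosh (3 * s / 2) * (3 / 2) * Complex.cosh (3 * s / 2) -
      Complex.sinh (3 * s / 2) * (Complex.sinh (3 * s / 2) * (3 / 2)) = 3 / 2 := by
    linear_combination (3 / 2 : ℂ) * Complex.cosh_sq (3 * s / 2)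
  rw [e2] at h3
  exact h3

lemma th_zero : th 0 = 0 := by simp [th]

lemma deriv_th_zero : deriv th 0 = 3 / 2 := by
  have := (hasDerivAt_th (s := 0) (by simpa using Real.pi_pos)).deriv
  simpa using this

/-! ### the strip -/

/-- the open strip -/
def So : Set ℂ := im ⁻¹' Ioo (-(Real.pi / 6)) (Real.pi / 6)

/-- the closed strip -/
def Sc : Set ℂ := im ⁻¹' Icc (-(Real.pi / 6)) (Real.pi / 6)

lemma mem_So {s : ℂ} : s ∈ So ↔ |s.im| < Real.pi / 6 := by
  rw [So, mem_preimage, mem_Ioo, abs_lt]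

lemma mem_Sc {s : ℂ} : s ∈ Sc ↔ |s.im| ≤ Real.pi / 6 := by
  rw [Sc, mem_preimage, mem_Icc, abs_le]

lemma isOpen_So : IsOpen So := isOpen_Ioo.preimage continuous_im

lemma closure_So : closure So = Sc := by
  rw [So, Sc, Complex.closure_preimage_im, closure_Ioo]
  linarith [Real.pi_pos]

lemma zero_mem_So : (0 : ℂ) ∈ So := by rw [mem_So]; simpa using Real.pi_pos

lemma So_mem_nhds : So ∈ 𝓝 (0 : ℂ) := isOpen_So.mem_nhds zero_mem_So

/-- division by the variable -/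
lemma diffContOnCl_dslope {f : ℂ → ℂ} (hf : DiffContOnCl ℂ f So) : DiffContOnCl ℂ (dslope f 0) So := by
  refine ⟨(Complex.differentiableOn_dslope So_mem_nhds).2 hf.1, ?_⟩
  rw [continuousOn_dslope (Filter.mem_of_superset So_mem_nhds subset_closure)]
  exact ⟨hf.2, hf.1.differentiableAt So_mem_nhds⟩

lemma analyticAt_of_dcc {f : ℂ → ℂ} (hf : DiffContOnCl ℂ f So) : AnalyticAt ℂ f 0 :=
  hf.1.analyticAt So_mem_nhds

lemma exists_div_pow {f : ℂ → ℂ} (hf : DiffContOnCl ℂ f So) (K : ℕ) (hK : (K : ℕ∞) ≤ analyticOrderAt f 0) :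
    ∃ F : ℂ → ℂ, DiffContOnCl ℂ F So ∧ ∀ z, f z = z ^ K * F z := by
  induction K generalizing f with
  | zero => exact ⟨f, hf, fun z => by simp⟩
  | succ K ih =>
    have h0 : f 0 = 0 := by
      apply apply_eq_zero_of_analyticOrderAt_ne_zero
      intro h
      rw [h] at hK
      simp at hK
    have h1 : f = (id : ℂ → ℂ) * dslope f 0 := by
      funext z
      rcases eq_or_ne z 0 with rfl | hz
      · simp [h0]
      · simp only [Pi.mul_apply, id]
        rw [dslope_of_ne _ hz, slope_def_field, h0]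
        field_simp
        ring
    have h2 := diffContOnCl_dslope hf
    have h3 : (K : ℕ∞) ≤ analyticOrderAt (dslope f 0) 0 := by
      have h5 : analyticOrderAt f 0 = 1 + analyticOrderAt (dslope f 0) 0 := by
        conv_lhs => rw [h1]
        rw [analyticOrderAt_mul analyticAt_id (analyticAt_of_dcc h2), analyticOrderAt_id]
      rw [h5] at hK
      push_cast at hK
      rw [add_comm (1 : ℕ∞)] at hK
      exact (ENat.add_le_add_iff_right (by simp)).1 hK
    obtain ⟨F, hF, hF2⟩ := ih h2 h3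
    refine ⟨F, hF, fun z => ?_⟩
    conv_lhs => rw [h1]
    simp only [Pi.mul_apply, id]
    rw [hF2 z]
    ring

lemma dcc_th : DiffContOnCl ℂ th So := by
  have h : ∀ z ∈ Sc, DifferentiableAt ℂ th z := fun z hz =>
    (hasDerivAt_th (by rw [mem_Sc] at hz; linarith [Real.pi_pos])).differentiableAt
  refine ⟨fun z hz => (h z ?_).differentiableWithinAt, ?_⟩
  · rw [mem_Sc]; rw [mem_So] at hz; exact hz.le
  · rw [closure_So]
    exact fun z hz => (h z hz).continuousAt.continuousWithinAt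

lemma mul_dslope_th (z : ℂ) : z * dslope th 0 z = th z := by
  rcases eq_or_ne z 0 with rfl | hz
  · simp [th_zero]
  · rw [dslope_of_ne _ hz, slope_def_field, th_zero]
    field_simp
    ring

lemma dslope_th_ne {z : ℂ} (hz : z ∈ Sc) : dslope th 0 z ≠ 0 := by
  rcases eq_or_ne z 0 with rfl | h
  · rw [dslope_same, deriv_th_zero]; norm_num
  · intro h0
    apply th_ne (mem_Sc.1 hz) h
    rw [← mul_dslope_th, h0, mul_zero]

lemma exists_div_th {f : ℂ → ℂ} (hf : DiffContOnCl ℂ f So) (K : ℕ) (hK : (K : ℕ∞) ≤ analyticOrderAt f 0) :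
    ∃ G : ℂ → ℂ, DiffContOnCl ℂ G So ∧ ∀ z ∈ Sc, f z = th z ^ K * G z := by
  obtain ⟨F, hF, hF2⟩ := exists_div_pow hf K hK
  have hT := diffContOnCl_dslope dcc_th
  refine ⟨fun z => F z * (dslope th 0 z ^ K)⁻¹, ?_, ?_⟩
  · refine ⟨fun z hz => ?_, ?_⟩
    · have h1 : dslope th 0 z ≠ 0 := dslope_th_ne (by rw [mem_Sc]; rw [mem_So] at hz; exact hz.le)
      exact (hF.1 z hz).mul (((hT.1 z hz).pow K).inv (pow_ne_zero _ h1))
    · intro z hz
      have h1 : dslope th 0 z ≠ 0 := dslope_th_ne (by rwa [closure_So] at hz)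
      exact (hF.2 z hz).mul (((hT.2 z hz).pow K).inv₀ (pow_ne_zero _ h1))
  · intro z hz
    have h1 := dslope_th_ne hz
    rw [hF2 z, ← mul_dslope_th z, mul_pow]
    field_simp

/-- Phragmén-Lindelöf for bounded functions on the strip. -/
lemma strip_le {f : ℂ → ℂ} {C C₀ : ℝ} (hf : DiffContOnCl ℂ f So) (hb : ∀ z ∈ So, ‖f z‖ ≤ C₀)
    (hl : ∀ z : ℂ, |z.im| = Real.pi / 6 → ‖f z‖ ≤ C) {z : ℂ} (hz : |z.im| ≤ Real.pi / 6) : ‖f z‖ ≤ C := by
  have hz' := abs_le.1 hz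
  refine PhragmenLindelof.horizontal_strip (a := -(Real.pi / 6)) (b := Real.pi / 6) hf ?_ ?_ ?_ hz'.1 hz'.2
  · refine ⟨0, ?_, 0, ?_⟩
    · have := Real.pi_pos
      apply div_pos this
      linarith
    · simp only [zero_mul, Real.exp_zero]
      rw [Asymptotics.isBigO_iff]
      refine ⟨C₀, ?_⟩
      have : ∀ᶠ x in 𝓟 (im ⁻¹' Ioo (-(Real.pi / 6)) (Real.pi / 6)), ‖f x‖ ≤ C₀ * ‖(1 : ℝ)‖ := by
        rw [eventually_principal]
        intro x hx
        rw [norm_one, mul_one]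
        exact hb x hx
      exact this.filter_mono inf_le_right
  · intro w hw
    apply hl
    rw [hw, abs_neg, abs_of_pos (by linarith [Real.pi_pos])]
  · intro w hw
    apply hl
    rw [hw, abs_of_pos (by linarith [Real.pi_pos])]

/-- the box `|Re z| ≤ 1` of the closed strip is compact -/
lemma compact_box : IsCompact (Sc ∩ re ⁻¹' Icc (-1) 1) := by
  have : Sc ∩ re ⁻¹' Icc (-1 : ℝ) 1 = Icc (-1 : ℝ) 1 ×ℂ Icc (-(Real.pi / 6)) (Real.pi / 6) := by
    ext z; simp only [Sc, mem_inter_iff, mem_preimage, mem_reProdIm]; tauto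
  rw [this]
  exact isCompact_Icc.reProdIm isCompact_Icc

/-- The Blaschke (Schwarz) lemma in the strip: a zero of order `K` at `0` gives a factor `|th|^K`. -/
lemma blaschke {f : ℂ → ℂ} {C C₀ : ℝ} {K : ℕ} (hf : DiffContOnCl ℂ f So) (hb : ∀ z ∈ Sc, ‖f z‖ ≤ C₀)
    (hl : ∀ z : ℂ, |z.im| = Real.pi / 6 → ‖f z‖ ≤ C) (hK : (K : ℕ∞) ≤ analyticOrderAt f 0)
    {z : ℂ} (hz : |z.im| ≤ Real.pi / 6) : ‖f z‖ ≤ C * ‖th z‖ ^ K := by
  obtain ⟨G, hG, hfG⟩ := exists_div_th hf K hK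
  have hGc : ContinuousOn G Sc := by rw [← closure_So]; exact hG.2
  obtain ⟨C₁, hC₁⟩ := compact_box.exists_bound_of_continuousOn (hGc.mono inter_subset_left)
  have hGb : ∀ w ∈ So, ‖G w‖ ≤ max C₁ (C₀ * 2 ^ K) := by
    intro w hw
    have hw' : w ∈ Sc := by rw [mem_Sc]; rw [mem_So] at hw; exact hw.le
    by_cases h : |w.re| ≤ 1
    · exact (hC₁ w ⟨hw', by rw [mem_preimage, mem_Icc]; exact abs_le.1 h⟩).trans (le_max_left _ _)
    · push Not at h
      refine le_trans ?_ (le_max_right _ _)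
      have h1 := norm_th_ge (mem_Sc.1 hw') h.le
      have h2 := hb w hw'
      rw [hfG w hw', norm_mul, norm_pow] at h2
      have h3 : (1 / 2 : ℝ) ^ K ≤ ‖th w‖ ^ K := pow_le_pow_left₀ (by norm_num) h1 K
      have h4 : (1 / 2 : ℝ) ^ K * ‖G w‖ ≤ C₀ := (mul_le_mul_of_nonneg_right h3 (norm_nonneg _)).trans h2
      have h5 : ‖G w‖ = (1 / 2 : ℝ) ^ K * ‖G w‖ * 2 ^ K := by
        rw [mul_right_comm, ← mul_pow]; norm_num
      rw [h5]
      exact mul_le_mul_of_nonneg_right h4 (by positivity)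
  have hGl : ∀ w : ℂ, |w.im| = Real.pi / 6 → ‖G w‖ ≤ C := by
    intro w hw
    have h1 := hl w hw
    rw [hfG w (mem_Sc.2 hw.le), norm_mul, norm_pow, norm_th_line hw, one_pow, one_mul] at h1
    exact h1
  have := strip_le hG hGb hGl hz
  rw [hfG z (mem_Sc.2 hz), norm_mul, norm_pow, mul_comm]
  exact mul_le_mul_of_nonneg_right this (by positivity)

/-! ### The reflected function -/

/-- `f* (s) = conj (f (conj s))` -/
noncomputable def st (f : ℂ → ℂ) (s : ℂ) : ℂ := (starRingEnd ℂ) (f ((starRingEnd ℂ) s))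

lemma norm_st (f : ℂ → ℂ) (s : ℂ) : ‖st f s‖ = ‖f ((starRingEnd ℂ) s)‖ := by
  rw [st, Complex.norm_conj]

lemma conj_mem_So {s : ℂ} (h : s ∈ So) : (starRingEnd ℂ) s ∈ So := by
  rw [mem_So] at *; simpa using h

lemma conj_mem_Sc {s : ℂ} (h : s ∈ Sc) : (starRingEnd ℂ) s ∈ Sc := by
  rw [mem_Sc] at *; simpa using h

lemma dcc_st {f : ℂ → ℂ} (hf : DiffContOnCl ℂ f So) : DiffContOnCl ℂ (st f) So := by
  refine ⟨fun z hz => ?_, ?_⟩
  · have h1 : DifferentiableAt ℂ f ((starRingEnd ℂ) z) :=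
      hf.1.differentiableAt (isOpen_So.mem_nhds (conj_mem_So hz))
    have h2 : DifferentiableAt ℂ ((starRingEnd ℂ) ∘ f ∘ (starRingEnd ℂ)) z := differentiableAt_conj_conj_iff.2 h1
    exact h2.differentiableWithinAt
  · rw [closure_So]
    have h2 : ContinuousOn f Sc := by rw [← closure_So]; exact hf.2
    exact Complex.continuous_conj.comp_continuousOn
      (h2.comp Complex.continuous_conj.continuousOn fun z hz => conj_mem_Sc hz)

lemma conj_line (t : ℝ) : (starRingEnd ℂ) ((t : ℂ) + sh) = (t : ℂ) - sh := by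
  rw [map_add, conj_ofReal, conj_sh]; ring

lemma conj_line' (t : ℝ) : (starRingEnd ℂ) ((t : ℂ) - sh) = (t : ℂ) + sh := by
  rw [map_sub, conj_ofReal, conj_sh]; ring

lemma line_cases {z : ℂ} (h : |z.im| = Real.pi / 6) : z = (z.re : ℂ) + sh ∨ z = (z.re : ℂ) - sh := by
  rcases eq_or_eq_neg_of_abs_eq h with h | h
  · left; apply Complex.ext <;> simp [h]
  · right; apply Complex.ext <;> simp [h]

/-- on the lines the modulus of `f f*` is `|f(t+a) f(t-a)|` -/
lemma norm_mul_st_line {f : ℂ → ℂ} {C : ℝ} (h : ∀ t : ℝ, ‖f (t + sh) * f (t - sh)‖ ≤ C) {z : ℂ}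
    (hz : |z.im| = Real.pi / 6) : ‖f z * st f z‖ ≤ C := by
  rw [norm_mul, norm_st]
  rcases line_cases hz with h1 | h1
  · rw [h1, conj_line, ← norm_mul]; exact h _
  · rw [h1, conj_line', mul_comm, ← norm_mul]; exact h _

lemma norm_mul_st_real (f : ℂ → ℂ) (t : ℝ) : ‖f t * st f t‖ = ‖f t‖ ^ 2 := by
  rw [norm_mul, norm_st, conj_ofReal, sq]

lemma order_mul_st {f : ℂ → ℂ} (hf : DiffContOnCl ℂ f So) {K : ℕ} (hK : (K : ℕ∞) ≤ analyticOrderAt f 0) :
    ((2 * K : ℕ) : ℕ∞) ≤ analyticOrderAt (fun z => f z * st f z) 0 := by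
  obtain ⟨F, hF, hF2⟩ := exists_div_pow hf K hK
  have h1 : AnalyticAt ℂ (fun z => f z * st f z) 0 := (analyticAt_of_dcc hf).mul (analyticAt_of_dcc (dcc_st hf))
  rw [natCast_le_analyticOrderAt h1]
  refine ⟨fun z => F z * st F z, (analyticAt_of_dcc hF).mul (analyticAt_of_dcc (dcc_st hF)), ?_⟩
  refine Eventually.of_forall fun z => ?_
  simp only [sub_zero, smul_eq_mul, st]
  rw [hF2 z, hF2 ((starRingEnd ℂ) z), map_mul, map_pow, Complex.conj_conj]
  ring

/-! ### The functional equations -/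

/-- `y = d(s+a) d(s-a) - 1` -/
noncomputable def yf (d : ℂ → ℂ) (s : ℂ) : ℂ := d (s + sh) * d (s - sh) - 1

/-- The functional equations of the strip transfer matrix: `d` is analytic for `|Im s| < π/2` and bounded for `|Im s| ≤ π/3`,
`y = d(s+a) d(s-a) - 1` has a zero of order `K` at `0`, and `y(t+a) y(t-a) = (1 - d t)^2` for real `t`. -/
structure FE (K : ℕ) (d : ℂ → ℂ) : Prop where
  diff : ∀ s : ℂ, |s.im| < Real.pi / 2 → DifferentiableAt ℂ d s
  bdd : ∃ C : ℝ, ∀ s : ℂ, |s.im| ≤ Real.pi / 3 → ‖d s‖ ≤ C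
  ymul : ∀ t : ℝ, yf d (t + sh) * yf d (t - sh) = (1 - d t) ^ 2
  ord : (K : ℕ∞) ≤ analyticOrderAt (yf d) 0

variable {K : ℕ} {d : ℂ → ℂ}

lemma add_sh_im (s : ℂ) : (s + sh).im = s.im + Real.pi / 6 := by simp
lemma sub_sh_im (s : ℂ) : (s - sh).im = s.im - Real.pi / 6 := by simp

lemma yf_diff (hd : ∀ s : ℂ, |s.im| < Real.pi / 2 → DifferentiableAt ℂ d s) {s : ℂ} (hs : |s.im| < Real.pi / 3) :
    DifferentiableAt ℂ (yf d) s := by
  have hb := abs_lt.1 hs
  have h1 : DifferentiableAt ℂ d (s + sh) := hd _ (by rw [add_sh_im, abs_lt]; constructor <;> linarith)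
  have h2 : DifferentiableAt ℂ d (s - sh) := hd _ (by rw [sub_sh_im, abs_lt]; constructor <;> linarith)
  have h3 : DifferentiableAt ℂ (fun s => d (s + sh)) s := h1.comp s (by fun_prop)
  have h4 : DifferentiableAt ℂ (fun s => d (s - sh)) s := h2.comp s (by fun_prop)
  exact (h3.mul h4).sub_const 1

lemma dcc_of_diff {f : ℂ → ℂ} (h : ∀ s : ℂ, |s.im| ≤ Real.pi / 6 → DifferentiableAt ℂ f s) : DiffContOnCl ℂ f So := by
  refine ⟨fun z hz => (h z (mem_So.1 hz).le).differentiableWithinAt, ?_⟩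
  rw [closure_So]
  exact fun z hz => (h z (mem_Sc.1 hz)).continuousAt.continuousWithinAt

lemma FE.dcc (h : FE K d) : DiffContOnCl ℂ d So :=
  dcc_of_diff fun s hs => h.diff s (by linarith [Real.pi_pos])

lemma FE.dccy (h : FE K d) : DiffContOnCl ℂ (yf d) So :=
  dcc_of_diff fun s hs => yf_diff h.diff (by linarith [Real.pi_pos])

lemma FE.bddy (h : FE K d) : ∃ C : ℝ, ∀ s ∈ Sc, ‖yf d s‖ ≤ C := by
  obtain ⟨C, hC⟩ := h.bdd
  refine ⟨C * C + 1, fun s hs => ?_⟩
  have hs' := abs_le.1 (mem_Sc.1 hs)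
  have h1 := hC (s + sh) (by rw [add_sh_im, abs_le]; constructor <;> linarith)
  have h2 := hC (s - sh) (by rw [sub_sh_im, abs_le]; constructor <;> linarith)
  calc ‖yf d s‖ ≤ ‖d (s + sh) * d (s - sh)‖ + ‖(1 : ℂ)‖ := norm_sub_le _ _
    _ ≤ C * C + 1 := by
      rw [norm_mul, norm_one]
      have := mul_le_mul h1 h2 (norm_nonneg _) ((norm_nonneg _).trans h1)
      linarith

/-- One step: a bound `M` for `d` on the real axis gives the bound `(1+M)|th|^K` for `y`. -/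
lemma FE.step_y (h : FE K d) {M : ℝ} (hM : ∀ t : ℝ, ‖d t‖ ≤ M) (t : ℝ) : ‖yf d t‖ ≤ (1 + M) * ‖th t‖ ^ K := by
  have hM0 : 0 ≤ M := (norm_nonneg _).trans (hM 0)
  obtain ⟨C, hC⟩ := h.bddy
  have h1 : ∀ t : ℝ, ‖yf d (t + sh) * yf d (t - sh)‖ ≤ (1 + M) ^ 2 := by
    intro t
    rw [h.ymul t, norm_pow]
    have : ‖1 - d t‖ ≤ 1 + M := (norm_sub_le _ _).trans (by rw [norm_one]; linarith [hM t])
    exact pow_le_pow_left₀ (norm_nonneg _) this 2
  have h2 := blaschke (f := fun z => yf d z * st (yf d) z) (C := (1 + M) ^ 2) (C₀ := C * C) (K := 2 * K)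
    ⟨h.dccy.1.mul (dcc_st h.dccy).1, h.dccy.2.mul (dcc_st h.dccy).2⟩ ?_ (fun z hz => norm_mul_st_line h1 hz)
    (order_mul_st h.dccy h.ord) (z := (t : ℂ)) (by rw [ofReal_im, abs_zero]; positivity)
  · rw [norm_mul_st_real, mul_comm 2 K, pow_mul, ← mul_pow] at h2
    exact le_of_sq_le_sq h2 (by positivity)
  · intro z hz
    rw [norm_mul, norm_st]
    exact mul_le_mul (hC z hz) (hC _ (conj_mem_Sc hz)) (norm_nonneg _) ((norm_nonneg _).trans (hC z hz))

/-- Second step: then `|d t|^2 ≤ 2 + M`. -/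
lemma FE.step_d (h : FE K d) {M : ℝ} (hM : ∀ t : ℝ, ‖d t‖ ≤ M) (t : ℝ) : ‖d t‖ ^ 2 ≤ 2 + M := by
  have hM0 : 0 ≤ M := (norm_nonneg _).trans (hM 0)
  obtain ⟨C, hC⟩ := h.bdd
  have hC' : ∀ z ∈ Sc, ‖d z‖ ≤ C := fun z hz => hC z (by have := mem_Sc.1 hz; linarith [Real.pi_pos])
  have h1 : ∀ t : ℝ, ‖d (t + sh) * d (t - sh)‖ ≤ 2 + M := by
    intro t
    have e : d (t + sh) * d (t - sh) = 1 + yf d t := by rw [yf]; ring
    rw [e]
    have h2 := h.step_y hM t
    have h3 : ‖th t‖ ^ K ≤ 1 := pow_le_one₀ (norm_nonneg _) (norm_th_le (by rw [ofReal_im, abs_zero]; positivity))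
    have h4 : (1 + M) * ‖th t‖ ^ K ≤ 1 + M := by nlinarith
    calc ‖1 + yf d t‖ ≤ ‖(1 : ℂ)‖ + ‖yf d t‖ := norm_add_le _ _
      _ ≤ 2 + M := by rw [norm_one]; linarith
  have h2 := strip_le (f := fun z => d z * st d z) (C := 2 + M) (C₀ := C * C)
    ⟨h.dcc.1.mul (dcc_st h.dcc).1, h.dcc.2.mul (dcc_st h.dcc).2⟩ ?_ (fun z hz => norm_mul_st_line h1 hz)
    (z := (t : ℂ)) (by rw [ofReal_im, abs_zero]; positivity)
  · rwa [norm_mul_st_real] at h2
  · intro z hz
    have hz' : z ∈ Sc := by rw [← closure_So]; exact subset_closure hz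
    rw [norm_mul, norm_st]
    exact mul_le_mul (hC' z hz') (hC' _ (conj_mem_Sc hz')) (norm_nonneg _) ((norm_nonneg _).trans (hC' z hz'))

/-- **The a-priori bound**: `|d t| ≤ 2` on the real axis. -/
theorem FE.norm_le_two (h : FE K d) (t : ℝ) : ‖d t‖ ≤ 2 := by
  obtain ⟨C, hC⟩ := h.bdd
  have hb : BddAbove (range fun t : ℝ => ‖d t‖) := by
    refine ⟨C, ?_⟩
    rintro _ ⟨t, rfl⟩
    exact hC _ (by rw [ofReal_im, abs_zero]; positivity)
  set M := ⨆ t : ℝ, ‖d t‖ with hMdef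
  have hM : ∀ t : ℝ, ‖d t‖ ≤ M := fun t => le_ciSup hb t
  have h0 : 0 ≤ M := (norm_nonneg _).trans (hM 0)
  have h1 : M ≤ Real.sqrt (2 + M) := ciSup_le fun t => Real.le_sqrt_of_sq_le (h.step_d hM t)
  have h2 : M ^ 2 ≤ 2 + M := by
    have := pow_le_pow_left₀ h0 h1 2
    rwa [Real.sq_sqrt (by linarith)] at this
  have h3 : M ≤ 2 := by nlinarith
  exact (hM t).trans h3

/-- **The a-priori bound for `y`**: `|y t| ≤ 3 |tanh(3t/2)|^K` on the real axis. -/
theorem FE.norm_y_le (h : FE K d) (t : ℝ) : ‖yf d t‖ ≤ 3 * ‖th t‖ ^ K := by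
  have := h.step_y h.norm_le_two t
  norm_num at this
  exact this

lemma norm_th_real (t : ℝ) : ‖th t‖ = Real.tanh (3 * |t| / 2) := by
  have h1 : th t = ((Real.tanh (3 * t / 2) : ℝ) : ℂ) := by rw [th]; push_cast; rfl
  rw [h1, Complex.norm_real, Real.norm_eq_abs]
  rcases le_total 0 t with ht | ht
  · rw [abs_of_nonneg ht, abs_of_nonneg]
    rw [Real.tanh_eq_sinh_div_cosh]
    exact div_nonneg (Real.sinh_nonneg_iff.2 (by positivity)) (Real.cosh_pos _).le
  · rw [abs_of_nonpos ht, show 3 * -t / 2 = -(3 * t / 2) by ring, Real.tanh_neg, abs_of_nonpos]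
    rw [Real.tanh_eq_sinh_div_cosh]
    exact div_nonpos_of_nonpos_of_nonneg (Real.sinh_nonpos_iff.2 (by linarith)) (Real.cosh_pos _).le

/-- real functions: `f* = f` on the strip -/
def IsRealF (f : ℂ → ℂ) : Prop := ∀ s : ℂ, |s.im| < Real.pi / 2 → f ((starRingEnd ℂ) s) = (starRingEnd ℂ) (f s)

lemma norm_line_of_real {f : ℂ → ℂ} (hr : ∀ t : ℝ, ‖f (t - sh)‖ = ‖f (t + sh)‖) {C : ℝ}
    (h : ∀ t : ℝ, ‖f (t + sh) * f (t - sh)‖ ≤ C ^ 2) (hC : 0 ≤ C) {z : ℂ} (hz : |z.im| = Real.pi / 6) : ‖f z‖ ≤ C := by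
  have h1 := h z.re
  rw [norm_mul, hr, ← sq] at h1
  have h2 := le_of_sq_le_sq h1 hC
  rcases line_cases hz with h3 | h3
  · rw [h3]; exact h2
  · rw [h3, hr]; exact h2

lemma yf_real (hr : IsRealF d) {s : ℂ} (hs : |s.im| < Real.pi / 3) :
    yf d ((starRingEnd ℂ) s) = (starRingEnd ℂ) (yf d s) := by
  have hb := abs_lt.1 hs
  have h1 := hr (s + sh) (by rw [add_sh_im, abs_lt]; constructor <;> linarith)
  have h2 := hr (s - sh) (by rw [sub_sh_im, abs_lt]; constructor <;> linarith)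
  rw [map_add, conj_sh, ← sub_eq_add_neg] at h1
  rw [map_sub, conj_sh, sub_neg_eq_add] at h2
  rw [yf, yf, map_sub, map_mul, map_one, ← h1, ← h2, mul_comm]

/-- for real `d`: `|y| ≤ 3 |th|^K` on the closed strip -/
theorem FE.norm_y_le_strip (h : FE K d) (hr : IsRealF d) {s : ℂ} (hs : |s.im| ≤ Real.pi / 6) :
    ‖yf d s‖ ≤ 3 * ‖th s‖ ^ K := by
  obtain ⟨C, hC⟩ := h.bddy
  refine blaschke h.dccy hC (fun z hz => ?_) h.ord hs
  refine norm_line_of_real (fun t => ?_) (fun t => ?_) (by norm_num) hz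
  · rw [← conj_line, yf_real hr, Complex.norm_conj]
    rw [add_sh_im, ofReal_im, zero_add, abs_of_pos (by positivity)]
    linarith [Real.pi_pos]
  · rw [h.ymul t, norm_pow]
    have : ‖1 - d t‖ ≤ 3 := (norm_sub_le _ _).trans (by rw [norm_one]; linarith [h.norm_le_two t])
    exact pow_le_pow_left₀ (norm_nonneg _) this 2

/-- for real `d`: `|d| ≤ 2` on the closed strip -/
theorem FE.norm_le_two_strip (h : FE K d) (hr : IsRealF d) {s : ℂ} (hs : |s.im| ≤ Real.pi / 6) : ‖d s‖ ≤ 2 := by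
  obtain ⟨C, hC⟩ := h.bdd
  refine strip_le h.dcc (C₀ := C) (fun z hz => hC z (by have := mem_So.1 hz; linarith [Real.pi_pos])) (fun z hz => ?_) hs
  refine norm_line_of_real (fun t => ?_) (fun t => ?_) (by norm_num) hz
  · rw [← conj_line, hr, Complex.norm_conj]
    rw [add_sh_im, ofReal_im, zero_add, abs_of_pos (by positivity)]
    linarith [Real.pi_pos]
  · have e : d (t + sh) * d (t - sh) = 1 + yf d t := by rw [yf]; ring
    rw [e]
    have h2 := h.norm_y_le t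
    have h3 : ‖th t‖ ^ K ≤ 1 := pow_le_one₀ (norm_nonneg _) (norm_th_le (by rw [ofReal_im, abs_zero]; positivity))
    calc ‖1 + yf d t‖ ≤ ‖(1 : ℂ)‖ + ‖yf d t‖ := norm_add_le _ _
      _ ≤ 2 ^ 2 := by rw [norm_one]; linarith

/-! ### Constructor from a polynomial in `T = i tanh s` -/

/-- the function `s ↦ P (i tanh s)` -/
noncomputable def dT (P : Polynomial ℂ) (s : ℂ) : ℂ := P.eval (I * Complex.tanh s)

lemma dT_diff (P : Polynomial ℂ) {s : ℂ} (hs : |s.im| < Real.pi / 2) : DifferentiableAt ℂ (dT P) s := by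
  have hc : Complex.cosh s ≠ 0 := cosh_ne hs
  have h1 : DifferentiableAt ℂ Complex.tanh s := by
    have h2 : Complex.tanh = fun z : ℂ => Complex.sinh z / Complex.cosh z := by
      funext z; exact Complex.tanh_eq_sinh_div_cosh z
    rw [h2]
    exact (Complex.differentiable_sinh s).div (Complex.differentiable_cosh s) hc
  exact P.differentiable.differentiableAt.comp s (h1.const_mul I)

lemma norm_tanh_le {s : ℂ} (hs : |s.im| ≤ Real.pi / 3) : ‖Complex.tanh s‖ ≤ 2 := by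
  have hc : Complex.cosh s ≠ 0 := cosh_ne (by linarith [Real.pi_pos])
  have h1 := normSq_sinh s
  have h2 := normSq_cosh s
  have h3 : (1 : ℝ) / 2 ≤ Real.cos s.im := by
    rw [← Real.cos_abs, ← Real.cos_pi_div_three]
    exact Real.cos_le_cos_of_nonneg_of_le_pi (abs_nonneg _) (by linarith [Real.pi_pos]) hs
  have h4 := Real.sin_sq_add_cos_sq s.im
  rw [Complex.tanh_eq_sinh_div_cosh, norm_div, div_le_iff₀ (norm_pos_iff.2 hc)]
  apply le_of_sq_le_sq _ (by positivity)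
  rw [mul_pow, h1, h2]
  nlinarith [sq_nonneg (Real.sinh s.re)]

lemma dT_bdd (P : Polynomial ℂ) : ∃ C : ℝ, ∀ s : ℂ, |s.im| ≤ Real.pi / 3 → ‖dT P s‖ ≤ C := by
  obtain ⟨C, hC⟩ := (isCompact_closedBall (0 : ℂ) 2).exists_bound_of_continuousOn (f := fun z => P.eval z)
    P.continuous.continuousOn
  refine ⟨C, fun s hs => hC _ ?_⟩
  rw [mem_closedBall_zero_iff, norm_mul, norm_I, one_mul]
  exact norm_tanh_le hs

/-- the cubic (fusion) relation gives the second functional equation -/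
lemma ymul_of_cubic {s : ℂ} (h : d s * d (s + 2 * sh) * d (s - 2 * sh) = d s + d (s + 2 * sh) + d (s - 2 * sh) - 2) :
    yf d (s + sh) * yf d (s - sh) = (1 - d s) ^ 2 := by
  simp only [yf]
  rw [show s + sh + sh = s + 2 * sh by ring, show s + sh - sh = s by ring, show s - sh + sh = s by ring,
    show s - sh - sh = s - 2 * sh by ring]
  linear_combination (d s) * h

theorem FE.of_poly (P : Polynomial ℂ) (hord : (K : ℕ∞) ≤ analyticOrderAt (yf (dT P)) 0)
    (hcub : ∀ t : ℝ, dT P t * dT P (t + 2 * sh) * dT P (t - 2 * sh) =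
      dT P t + dT P (t + 2 * sh) + dT P (t - 2 * sh) - 2) : FE K (dT P) where
  diff := fun _ hs => dT_diff P hs
  bdd := dT_bdd P
  ymul := fun t => ymul_of_cubic (hcub t)
  ord := hord

/-- If `P` is real on the imaginary `s` axis, i.e. at real `T`, and even, then `dT P` is real. -/
lemma dT_real (P : Polynomial ℝ) (hev : ∀ x : ℝ, P.eval (-x) = P.eval x) : IsRealF (dT (P.map (algebraMap ℝ ℂ))) := by
  have h1 : P.comp (-Polynomial.X) = P := by
    apply Polynomial.funext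
    intro x
    simp [hev]
  have h2 : (P.map (algebraMap ℝ ℂ)).comp (-Polynomial.X) = P.map (algebraMap ℝ ℂ) := by
    conv_rhs => rw [← h1]
    rw [Polynomial.map_comp]
    simp
  have h3 : ∀ z : ℂ, (P.map (algebraMap ℝ ℂ)).eval (-z) = (P.map (algebraMap ℝ ℂ)).eval z := by
    intro z
    conv_rhs => rw [← h2]
    simp
  have h4 : ∀ z : ℂ, (P.map (algebraMap ℝ ℂ)).eval ((starRingEnd ℂ) z) = (starRingEnd ℂ) ((P.map (algebraMap ℝ ℂ)).eval z) := by
    intro z
    rw [Polynomial.eval_map_algebraMap, Polynomial.eval_map_algebraMap, Polynomial.aeval_conj]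
  intro s _
  have h5 : Complex.tanh ((starRingEnd ℂ) s) = (starRingEnd ℂ) (Complex.tanh s) := by
    rw [Complex.tanh_eq_sinh_div_cosh, Complex.tanh_eq_sinh_div_cosh, map_div₀, Complex.sinh_conj, Complex.cosh_conj]
  rw [dT, dT, h5, ← h4, map_mul, conj_I, neg_mul, h3]

end Ann
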