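import Pool.Agent.Helper2.Ann.Apriori

/-!
# Low lying levels of the strip transfer matrix

Uniform bounds for `d` when `K |σ - d 0| ≤ E`, `σ = ±1`.
-/

set_option autoImplicit false

namespace Ann

open Complex Set Filter Topology

variable {K : ℕ} {d : ℂ → ℂ}

/-! ### The majorant -/

/-- The analytic majorant. -/
noncomputable def HH (K : ℕ) (s : ℂ) : ℂ := 12 / (1 + K * (1 - th s)) + 12 / (1 + K * (1 + th s))

lemma den_re {K : ℕ} {w : ℂ} : (1 + (K : ℂ) * (1 - w)).re = 1 + K * (1 - w.re) := by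
  simp

lemma den_ge {K : ℕ} {w : ℂ} : 1 + K * (1 - ‖w‖) ≤ ‖1 + (K : ℂ) * (1 - w)‖ := by
  refine le_trans ?_ (Complex.re_le_norm _)
  rw [den_re]
  have := Complex.re_le_norm w
  have hK : (0 : ℝ) ≤ K := by positivity
  nlinarith

lemma den_ge' {K : ℕ} {w : ℂ} : 1 + K * (1 - ‖w‖) ≤ ‖1 + (K : ℂ) * (1 + w)‖ := by
  have := den_ge (K := K) (w := -w)
  simpa using this

lemma den_ne {K : ℕ} {w : ℂ} (hw : ‖w‖ ≤ 1) : 1 + (K : ℂ) * (1 - w) ≠ 0 := by
  rw [← norm_pos_iff]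
  have h := den_ge (K := K) (w := w)
  have hK : (0 : ℝ) ≤ K := by positivity
  nlinarith

lemma den_ne' {K : ℕ} {w : ℂ} (hw : ‖w‖ ≤ 1) : 1 + (K : ℂ) * (1 + w) ≠ 0 := by
  have := den_ne (K := K) (w := -w) (by simpa using hw)
  simpa using this

lemma norm_HH_le {s : ℂ} (hs : |s.im| ≤ Real.pi / 6) : ‖HH K s‖ ≤ 24 / (1 + K * (1 - ‖th s‖)) := by
  have h1 := norm_th_le hs
  have hK : (0 : ℝ) ≤ K := by positivity
  have h2 : 0 < 1 + K * (1 - ‖th s‖) := by nlinarith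
  calc ‖HH K s‖ ≤ ‖12 / (1 + (K : ℂ) * (1 - th s))‖ + ‖12 / (1 + (K : ℂ) * (1 + th s))‖ := norm_add_le _ _
    _ ≤ 12 / (1 + K * (1 - ‖th s‖)) + 12 / (1 + K * (1 - ‖th s‖)) := by
      rw [norm_div, norm_div]
      have e : ‖(12 : ℂ)‖ = 12 := by simp
      rw [e]
      gcongr
      · exact den_ge
      · exact den_ge'
    _ = 24 / (1 + K * (1 - ‖th s‖)) := by ring

lemma diff_HH {s : ℂ} (hs : |s.im| ≤ Real.pi / 6) : DifferentiableAt ℂ (HH K) s := by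
  have h1 : DifferentiableAt ℂ th s := (hasDerivAt_th (by linarith [Real.pi_pos])).differentiableAt
  have h2 := norm_th_le hs
  unfold HH
  refine DifferentiableAt.add ?_ ?_
  · exact (differentiableAt_const _).div (by fun_prop) (den_ne h2)
  · exact (differentiableAt_const _).div (by fun_prop) (den_ne' h2)

/-- real part of the inverse of a denominator on the unit circle -/
lemma re_inv_den {K : ℕ} {w : ℂ} (hw : ‖w‖ = 1) :
    (12 / (1 + (K : ℂ) * (1 - w))).re = 12 * (1 + K * (1 - w.re)) / (1 + 2 * K * (1 - w.re) + 2 * K ^ 2 * (1 - w.re)) := by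
  have h1 : w.re ^ 2 + w.im ^ 2 = 1 := by
    have := Complex.sq_norm w
    rw [hw, Complex.normSq_apply] at this
    nlinarith
  have h2 : Complex.normSq (1 + (K : ℂ) * (1 - w)) = 1 + 2 * K * (1 - w.re) + 2 * K ^ 2 * (1 - w.re) := by
    rw [Complex.normSq_apply]
    simp
    nlinarith
  rw [Complex.div_re, h2, den_re]
  simp

lemma re_inv_den_ge {K : ℕ} {w : ℂ} {σ : ℝ} (hw : ‖w‖ = 1) (hσ : w.im ^ 2 = σ ^ 2) (hr : 0 ≤ w.re) :
    6 / (1 + K ^ 2 * σ ^ 2) ≤ (12 / (1 + (K : ℂ) * (1 - w))).re := by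
  have h1 : w.re ^ 2 + w.im ^ 2 = 1 := by
    have := Complex.sq_norm w
    rw [hw, Complex.normSq_apply] at this
    nlinarith
  have h0 : w.re ≤ 1 := by nlinarith [sq_nonneg w.im]
  rw [re_inv_den hw, div_le_div_iff₀ (by positivity) (by
    have : (0 : ℝ) ≤ K := by positivity
    have : 0 ≤ 1 - w.re := by linarith
    positivity)]
  have hu : 0 ≤ 1 - w.re := by linarith
  have hu2 : 1 - w.re ≤ σ ^ 2 := by nlinarith
  have hK : (0 : ℝ) ≤ K := by positivity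
  have h3 : (K : ℝ) ^ 2 * (1 - w.re) ≤ K ^ 2 * σ ^ 2 := by gcongr
  nlinarith [mul_nonneg hK hu, mul_nonneg (mul_nonneg hK hu) (by positivity : (0 : ℝ) ≤ K ^ 2 * σ ^ 2)]

lemma re_inv_den_nonneg {K : ℕ} {w : ℂ} (hw : ‖w‖ ≤ 1) : 0 ≤ (12 / (1 + (K : ℂ) * (1 - w))).re := by
  rw [Complex.div_re, den_re]
  have := (Complex.re_le_norm w).trans hw
  have hK : (0 : ℝ) ≤ K := by positivity
  have h1 : 0 ≤ 1 + K * (1 - w.re) := by nlinarith
  have h2 := Complex.normSq_nonneg (1 + (K : ℂ) * (1 - w))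
  simp
  positivity

lemma pow_ge_quad (K : ℕ) {σ : ℝ} (hσ : 0 ≤ σ) : 1 + K * σ + K * (K - 1) / 2 * σ ^ 2 ≤ (1 + σ) ^ K := by
  induction K with
  | zero => simp
  | succ K ih =>
    rw [pow_succ]
    have hK : (0 : ℝ) ≤ K := by positivity
    have h1 : (0 : ℝ) ≤ K * (K - 1) := by
      rcases Nat.eq_zero_or_pos K with rfl | h
      · simp
      · have : (1 : ℝ) ≤ K := by exact_mod_cast h
        nlinarith
    have h2 := mul_le_mul_of_nonneg_right ih (by linarith : 0 ≤ 1 + σ)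
    refine le_trans ?_ h2
    push_cast
    have h3 : 0 ≤ K * (K - 1) * σ ^ 3 := by positivity
    nlinarith

/-- `τ^K ≤ 2/(1+K²σ²)` -/
lemma tau_le (K : ℕ) {τ σ : ℝ} (hτ : 0 ≤ τ) (hσ : 0 ≤ σ) (hσ1 : σ ≤ 1) (h : τ ^ 2 * (1 + σ) ≤ 1 - σ) :
    τ ^ K ≤ 2 / (1 + K ^ 2 * σ ^ 2) := by
  have h1 : τ * (1 + σ) ≤ 1 := by
    by_contra hc
    push Not at hc
    nlinarith [mul_nonneg hτ (by linarith : 0 ≤ 1 + σ)]
  have h2 : τ ^ K * (1 + σ) ^ K ≤ 1 := by
    rw [← mul_pow]; exact pow_le_one₀ (by positivity) h1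
  have h3 := pow_ge_quad K hσ
  rw [le_div_iff₀ (by positivity)]
  have hK : (0 : ℝ) ≤ K := by positivity
  have h4 : 1 + (K : ℝ) ^ 2 * σ ^ 2 ≤ 2 * (1 + σ) ^ K := by nlinarith [mul_nonneg hK hσ, mul_nonneg hK (mul_nonneg hσ (by linarith : 0 ≤ 1 - σ))]
  calc τ ^ K * (1 + K ^ 2 * σ ^ 2) ≤ τ ^ K * (2 * (1 + σ) ^ K) := by gcongr
    _ = 2 * (τ ^ K * (1 + σ) ^ K) := by ring
    _ ≤ 2 := by linarith

lemma re_ab (a b : ℝ) : (((a : ℝ) : ℂ) + ((b : ℝ) : ℂ) * I).re = a := by simp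

lemma im_ab (a b : ℝ) : (((a : ℝ) : ℂ) + ((b : ℝ) : ℂ) * I).im = b := by simp

lemma th_im {s : ℂ} (_ : |s.im| < Real.pi / 3) : (th s).im =
    Real.sin (3 * s.im / 2) * Real.cos (3 * s.im / 2) / (Real.sinh (3 * s.re / 2) ^ 2 + Real.cos (3 * s.im / 2) ^ 2) := by
  have h1 : Complex.sinh (3 * s / 2) = ((Real.sinh (3 * s.re / 2) * Real.cos (3 * s.im / 2) : ℝ) : ℂ) +
      ((Real.cosh (3 * s.re / 2) * Real.sin (3 * s.im / 2) : ℝ) : ℂ) * I := by
    conv_lhs => rw [← Complex.re_add_im (3 * s / 2), Complex.sinh_add, Complex.cosh_mul_I, Complex.sinh_mul_I, arg_re, arg_im]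
    push_cast
    ring
  have h2 : Complex.cosh (3 * s / 2) = ((Real.cosh (3 * s.re / 2) * Real.cos (3 * s.im / 2) : ℝ) : ℂ) +
      ((Real.sinh (3 * s.re / 2) * Real.sin (3 * s.im / 2) : ℝ) : ℂ) * I := by
    conv_lhs => rw [← Complex.re_add_im (3 * s / 2), Complex.cosh_add, Complex.cosh_mul_I, Complex.sinh_mul_I, arg_re, arg_im]
    push_cast
    ring
  have h3 := normSq_cosh (3 * s / 2)
  rw [arg_re, arg_im, ← Complex.normSq_eq_norm_sq] at h3
  rw [th, Complex.tanh_eq_sinh_div_cosh, Complex.div_im, h3]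
  have a1 : (Complex.sinh (3 * s / 2)).re = Real.sinh (3 * s.re / 2) * Real.cos (3 * s.im / 2) := by rw [h1, re_ab]
  have a2 : (Complex.sinh (3 * s / 2)).im = Real.cosh (3 * s.re / 2) * Real.sin (3 * s.im / 2) := by rw [h1, im_ab]
  have a3 : (Complex.cosh (3 * s / 2)).re = Real.cosh (3 * s.re / 2) * Real.cos (3 * s.im / 2) := by rw [h2, re_ab]
  have a4 : (Complex.cosh (3 * s / 2)).im = Real.sinh (3 * s.re / 2) * Real.sin (3 * s.im / 2) := by rw [h2, im_ab]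
  rw [a1, a2, a3, a4, ← sub_div]
  congr 1
  linear_combination (Real.sin (3 * s.im / 2) * Real.cos (3 * s.im / 2)) * (Real.cosh_sq (3 * s.re / 2))

lemma sq_sin_cos_line {y : ℝ} (h : |y| = Real.pi / 6) :
    Real.cos (3 * y / 2) ^ 2 = 1 / 2 ∧ Real.sin (3 * y / 2) ^ 2 = 1 / 2 := by
  have hc : Real.cos (3 * y / 2) ^ 2 = 1 / 2 := by
    rw [← Real.cos_abs, abs_div, abs_mul, h]
    simp only [Nat.abs_ofNat]
    rw [show 3 * (Real.pi / 6) / 2 = Real.pi / 4 by ring, Real.cos_pi_div_four, div_pow, Real.sq_sqrt (by norm_num)]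
    norm_num
  exact ⟨hc, by linarith [Real.sin_sq_add_cos_sq (3 * y / 2)]⟩

/-- On the lines the real part of the majorant is at least `3 |th t|^K`. -/
lemma re_HH_line {s : ℂ} (hs : |s.im| = Real.pi / 6) : 3 * ‖th s.re‖ ^ K ≤ (HH K s).re := by
  have hp := Real.pi_pos
  obtain ⟨hc, hsn⟩ := sq_sin_cos_line hs
  set S := Real.sinh (3 * s.re / 2) ^ 2 with hS
  have hS0 : 0 ≤ S := sq_nonneg _
  set σ : ℝ := 1 / (2 * S + 1) with hσ
  have hσ0 : 0 < σ := by positivity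
  have hσ1 : σ ≤ 1 := by rw [hσ, div_le_one (by positivity)]; linarith
  have hσS : σ * (2 * S + 1) = 1 := by rw [hσ]; field_simp
  have hw := norm_th_line hs
  have him : (th s).im ^ 2 = σ ^ 2 := by
    rw [th_im (by linarith), ← hS, hc, div_pow, mul_pow, hsn, hc, hσ]
    field_simp
  have htau : ‖th (s.re : ℂ)‖ ^ 2 * (1 + σ) ≤ 1 - σ := by
    have h1 := norm_th_sq (s := (s.re : ℂ)) (by rw [ofReal_im, abs_zero]; positivity)
    simp only [ofReal_re, ofReal_im, mul_zero, zero_div, Real.cos_zero, Real.sin_zero] at h1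
    rw [← hS] at h1
    have h2 : ‖th (s.re : ℂ)‖ ^ 2 * (S + 1) = S := by nlinarith
    have h3 : (‖th (s.re : ℂ)‖ ^ 2 * (1 + σ) - (1 - σ)) * (S + 1) = 0 := by
      have : (‖th (s.re : ℂ)‖ ^ 2 * (1 + σ) - (1 - σ)) * (S + 1) =
        (‖th (s.re : ℂ)‖ ^ 2 * (S + 1)) * (1 + σ) - (1 - σ) * (S + 1) := by ring
      rw [this, h2]
      linarith
    have h4 : S + 1 ≠ 0 := by positivity
    have := (mul_eq_zero.1 h3).resolve_right h4
    linarith
  have h5 := tau_le K (norm_nonneg (th (s.re : ℂ))) hσ0.le hσ1 htau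
  have h6 : 3 * ‖th (s.re : ℂ)‖ ^ K ≤ 6 / (1 + K ^ 2 * σ ^ 2) := by
    have : 6 / (1 + (K : ℝ) ^ 2 * σ ^ 2) = 3 * (2 / (1 + K ^ 2 * σ ^ 2)) := by ring
    rw [this]; linarith
  refine h6.trans ?_
  rw [HH, Complex.add_re]
  rcases le_total 0 (th s).re with hr | hr
  · have h7 := re_inv_den_ge (K := K) hw him hr
    have h8 := re_inv_den_nonneg (K := K) (w := -th s) (by rw [norm_neg]; exact hw.le)
    rw [sub_neg_eq_add] at h8
    linarith
  · have h7 := re_inv_den_ge (K := K) (w := -th s) (σ := σ) (by rw [norm_neg]; exact hw) (by rw [neg_im, neg_sq]; exact him)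
      (by rw [neg_re]; linarith)
    have h8 := re_inv_den_nonneg (K := K) (w := th s) hw.le
    rw [sub_neg_eq_add] at h7
    linarith

/-- `|1 - d t|`-free form of the a-priori bound on the lines. -/
lemma FE.line_le (h : FE K d) (t : ℝ) : ‖d (t + sh) * d (t - sh)‖ ≤ 1 + 3 * ‖th t‖ ^ K := by
  have e : d (t + sh) * d (t - sh) = 1 + yf d t := by rw [yf]; ring
  rw [e]
  calc ‖1 + yf d t‖ ≤ ‖(1 : ℂ)‖ + ‖yf d t‖ := norm_add_le _ _
    _ ≤ 1 + 3 * ‖th t‖ ^ K := by rw [norm_one]; linarith [h.norm_y_le t]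

lemma dcc_HH : DiffContOnCl ℂ (HH K) So := dcc_of_diff fun _ hs => diff_HH hs

lemma dcc_exp {f : ℂ → ℂ} (hf : DiffContOnCl ℂ f So) (c : ℂ) : DiffContOnCl ℂ (fun s => Complex.exp (c * f s)) So :=
  ⟨fun z hz => ((hf.1 z hz).const_mul c).cexp, fun z hz => ((hf.2 z hz).const_mul c).cexp⟩

lemma norm_HH_le' {s : ℂ} (hs : |s.im| ≤ Real.pi / 6) : ‖HH K s‖ ≤ 24 := by
  have h1 := norm_HH_le (K := K) hs
  have h2 := norm_th_le hs
  have hK : (0 : ℝ) ≤ K := by positivity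
  refine h1.trans ?_
  rw [div_le_iff₀ (by nlinarith)]
  nlinarith

/-- `|d d*| ≤ exp (Re HH)` on the strip; no reality assumption. -/
theorem FE.norm_mul_st_le (h : FE K d) {s : ℂ} (hs : |s.im| ≤ Real.pi / 6) :
    ‖d s * st d s‖ ≤ Real.exp ((HH K s).re) := by
  obtain ⟨C, hC⟩ := h.bdd
  have hC' : ∀ z ∈ Sc, ‖d z‖ ≤ C := fun z hz => hC z (by have := mem_Sc.1 hz; linarith [Real.pi_pos])
  have key := strip_le (f := fun z => (d z * st d z) * Complex.exp ((-1) * HH K z)) (C := 1) (C₀ := C * C * Real.exp 24)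
    ?_ ?_ ?_ hs
  · rw [norm_mul, Complex.norm_exp] at key
    have e : ((-1) * HH K s).re = -(HH K s).re := by simp
    rw [e, Real.exp_neg, ← div_eq_mul_inv, div_le_one (Real.exp_pos _)] at key
    exact key
  · exact ⟨(h.dcc.1.mul (dcc_st h.dcc).1).mul (dcc_exp dcc_HH (-1)).1, (h.dcc.2.mul (dcc_st h.dcc).2).mul (dcc_exp dcc_HH (-1)).2⟩
  · intro z hz
    have hz1 := (mem_So.1 hz).le
    have hz' : z ∈ Sc := mem_Sc.2 hz1
    rw [norm_mul, Complex.norm_exp, norm_mul, norm_st]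
    have h1 := hC' z hz'
    have h2 := hC' _ (conj_mem_Sc hz')
    have h3 : Real.exp (((-1) * HH K z).re) ≤ Real.exp 24 := by
      rw [Real.exp_le_exp]
      calc ((-1) * HH K z).re ≤ ‖(-1) * HH K z‖ := Complex.re_le_norm _
        _ = ‖HH K z‖ := by rw [norm_mul, norm_neg, norm_one, one_mul]
        _ ≤ 24 := norm_HH_le' hz1
    exact mul_le_mul (mul_le_mul h1 h2 (norm_nonneg _) ((norm_nonneg _).trans h1)) h3 (Real.exp_pos _).le
      (mul_nonneg ((norm_nonneg _).trans h1) ((norm_nonneg _).trans h1))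
  · intro z hz
    rw [norm_mul, Complex.norm_exp]
    have e : ((-1) * HH K z).re = -(HH K z).re := by simp
    rw [e, Real.exp_neg, ← div_eq_mul_inv, div_le_one (Real.exp_pos _)]
    have h1 : ‖d z * st d z‖ ≤ 1 + 3 * ‖th z.re‖ ^ K := by
      rw [norm_mul, norm_st]
      rcases line_cases hz with h3 | h3
      · rw [h3, conj_line, ← norm_mul]
        simpa using h.line_le z.re
      · rw [h3, conj_line', mul_comm, ← norm_mul]
        simpa using h.line_le z.re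
    refine h1.trans ?_
    have h2 := re_HH_line (K := K) hz
    calc 1 + 3 * ‖th z.re‖ ^ K ≤ Real.exp (3 * ‖th z.re‖ ^ K) := by
          rw [add_comm]; exact Real.add_one_le_exp _
      _ ≤ Real.exp ((HH K z).re) := Real.exp_le_exp.2 h2

/-- `|d t|² ≤ exp (24/(1+K(1-|th t|)))` on the real axis; no reality assumption. -/
theorem FE.norm_sq_le (h : FE K d) (t : ℝ) : ‖d t‖ ^ 2 ≤ Real.exp (24 / (1 + K * (1 - ‖th t‖))) := by
  have h0 : |(t : ℂ).im| ≤ Real.pi / 6 := by rw [ofReal_im, abs_zero]; positivity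
  have h1 := h.norm_mul_st_le h0
  rw [norm_mul_st_real] at h1
  exact h1.trans (Real.exp_le_exp.2 ((Complex.re_le_norm _).trans (norm_HH_le h0)))

/-- for real `d`: `|d| ≤ exp (Re HH / 2)` on the strip -/
theorem FE.norm_le_exp (h : FE K d) (hr : IsRealF d) {s : ℂ} (hs : |s.im| ≤ Real.pi / 6) :
    ‖d s‖ ≤ Real.exp ((HH K s).re / 2) := by
  have h1 := h.norm_mul_st_le hs
  have h2 : ‖st d s‖ = ‖d s‖ := by
    rw [norm_st, hr s (by linarith [Real.pi_pos]), Complex.norm_conj]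
  rw [norm_mul, h2, ← sq] at h1
  apply le_of_sq_le_sq _ (Real.exp_pos _).le
  have e : ((2 : ℕ) : ℝ) * ((HH K s).re / 2) = (HH K s).re := by push_cast; ring
  rw [← Real.exp_nat_mul, e]
  exact h1

/-! ### Schwarz-Pick -/

lemma pick_alg {a b : ℂ} (ha : ‖a‖ ≤ 1) (hb : ‖b‖ ≤ 1) : ‖b - a‖ ≤ ‖1 - (starRingEnd ℂ) a * b‖ := by
  apply le_of_sq_le_sq _ (norm_nonneg _)
  rw [Complex.sq_norm, Complex.sq_norm, Complex.normSq_sub, Complex.normSq_sub]
  have h1 : Complex.normSq a ≤ 1 := by rw [← Complex.sq_norm]; exact pow_le_one₀ (norm_nonneg _) ha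
  have h2 : Complex.normSq b ≤ 1 := by rw [← Complex.sq_norm]; exact pow_le_one₀ (norm_nonneg _) hb
  have h3 : (1 * (starRingEnd ℂ) ((starRingEnd ℂ) a * b)).re = (b * (starRingEnd ℂ) a).re := by
    simp [Complex.mul_re]; ring
  rw [h3, map_one, Complex.normSq_mul, Complex.normSq_conj]
  nlinarith [mul_nonneg (sub_nonneg.2 h1) (sub_nonneg.2 h2)]

/-- Schwarz-Pick in the strip, compared with a point of the unit circle: strict version. -/
lemma pick_aux {F : ℂ → ℂ} {η : ℝ} (hF : DiffContOnCl ℂ F So) (hη : η < 1) (hb : ∀ z ∈ Sc, ‖F z‖ ≤ η)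
    {σ : ℂ} (hσ : ‖σ‖ = 1) {z : ℂ} (hz : |z.im| ≤ Real.pi / 6) :
    ‖σ - F z‖ * (1 - ‖th z‖) ≤ (1 + ‖th z‖) * ‖σ - F 0‖ := by
  have h0 : (0 : ℂ) ∈ Sc := subset_closure.trans_eq closure_So zero_mem_So
  have hden : ∀ w ∈ Sc, 1 - (starRingEnd ℂ) (F 0) * F w ≠ 0 := by
    intro w hw h
    have h1 : ‖(starRingEnd ℂ) (F 0) * F w‖ = 1 := by
      rw [← sub_eq_zero.1 h, norm_one]
    rw [norm_mul, Complex.norm_conj] at h1
    nlinarith [hb 0 h0, hb w hw, norm_nonneg (F 0), norm_nonneg (F w)]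
  set φ : ℂ → ℂ := fun w => (F w - F 0) * (1 - (starRingEnd ℂ) (F 0) * F w)⁻¹ with hφ
  have hφd : DiffContOnCl ℂ φ So := by
    refine ⟨fun w hw => ?_, fun w hw => ?_⟩
    · have h1 := hden w (subset_closure.trans_eq closure_So hw)
      exact ((hF.1 w hw).sub_const _).mul (((hF.1 w hw).const_mul _).const_sub 1 |>.inv h1)
    · have h1 := hden w (by rw [← closure_So]; exact hw)
      exact ((hF.2 w hw).sub continuousWithinAt_const).mul
        ((continuousWithinAt_const.sub (continuousWithinAt_const.mul (hF.2 w hw))).inv₀ h1)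
  have hφb : ∀ w ∈ Sc, ‖φ w‖ ≤ 1 := by
    intro w hw
    rw [hφ]
    simp only [norm_mul, norm_inv]
    rw [← div_eq_mul_inv]
    apply div_le_one_of_le₀ _ (norm_nonneg _)
    exact pick_alg ((hb 0 h0).trans hη.le) ((hb w hw).trans hη.le)
  have hφ0 : φ 0 = 0 := by simp [hφ]
  have hord : ((1 : ℕ) : ℕ∞) ≤ analyticOrderAt φ 0 := by
    have h1 : analyticOrderAt φ 0 ≠ 0 := by
      rw [(analyticAt_of_dcc hφd).analyticOrderAt_ne_zero]; exact hφ0
    exact_mod_cast Order.one_le_iff_ne_zero.2 h1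
  have key := blaschke hφd hφb (fun w hw => hφb w (mem_Sc.2 hw.le)) hord hz
  rw [pow_one, one_mul, hφ] at key
  simp only [norm_mul, norm_inv] at key
  have hz' := mem_Sc.2 hz
  have hpos : 0 < ‖1 - (starRingEnd ℂ) (F 0) * F z‖ := norm_pos_iff.2 (hden z hz')
  rw [← div_eq_mul_inv, div_le_iff₀ hpos] at key
  have h2 : ‖1 - (starRingEnd ℂ) (F 0) * F z‖ ≤ ‖σ - F 0‖ + ‖σ - F z‖ := by
    have e1 : 1 - (starRingEnd ℂ) (F 0) * F z = (starRingEnd ℂ) (σ - F 0) * σ + (starRingEnd ℂ) (F 0) * (σ - F z) := by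
      have : (starRingEnd ℂ) σ * σ = 1 := by
        rw [mul_comm, Complex.mul_conj, Complex.normSq_eq_norm_sq, hσ]; norm_num
      rw [map_sub]
      linear_combination (-1 : ℂ) * this
    rw [e1]
    refine (norm_add_le _ _).trans ?_
    rw [norm_mul, norm_mul, Complex.norm_conj, Complex.norm_conj, hσ, mul_one]
    have := hb 0 h0
    nlinarith [norm_nonneg (σ - F z)]
  have h3 : ‖σ - F z‖ ≤ ‖σ - F 0‖ + ‖F z - F 0‖ := by
    have : σ - F z = (σ - F 0) - (F z - F 0) := by ring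
    rw [this]; exact norm_sub_le _ _
  have h4 := norm_nonneg (th z)
  nlinarith [mul_le_mul_of_nonneg_left h2 h4]

/-- Schwarz-Pick in the strip, compared with a point of the unit circle. -/
lemma pick {F : ℂ → ℂ} (hF : DiffContOnCl ℂ F So) (hb : ∀ z ∈ Sc, ‖F z‖ ≤ 1)
    {σ : ℂ} (hσ : ‖σ‖ = 1) {z : ℂ} (hz : |z.im| ≤ Real.pi / 6) :
    ‖σ - F z‖ * (1 - ‖th z‖) ≤ (1 + ‖th z‖) * ‖σ - F 0‖ := by
  have h1 : ∀ᶠ η : ℝ in 𝓝[<] 1, ‖σ - (η : ℂ) * F z‖ * (1 - ‖th z‖) ≤ (1 + ‖th z‖) * ‖σ - (η : ℂ) * F 0‖ := by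
    have hη : ∀ᶠ η : ℝ in 𝓝[<] 1, 0 ≤ η := by
      filter_upwards [Ioo_mem_nhdsLT (show (0 : ℝ) < 1 by norm_num)] with η hη using hη.1.le
    filter_upwards [hη, self_mem_nhdsWithin] with η h0 h1
    refine pick_aux (F := fun w => (η : ℂ) * F w) (η := η) ⟨hF.1.const_mul _, continuousOn_const.mul hF.2⟩ h1 ?_ hσ hz
    intro w hw
    rw [norm_mul, Complex.norm_real, Real.norm_of_nonneg h0]
    exact mul_le_of_le_one_right h0 (hb w hw)
  have h2 : Tendsto (fun η : ℝ => ‖σ - (η : ℂ) * F z‖ * (1 - ‖th z‖)) (𝓝[<] 1) (𝓝 (‖σ - F z‖ * (1 - ‖th z‖))) := by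
    have : Continuous (fun η : ℝ => ‖σ - (η : ℂ) * F z‖ * (1 - ‖th z‖)) := by fun_prop
    have := this.tendsto 1
    simp only [ofReal_one, one_mul] at this
    exact this.mono_left nhdsWithin_le_nhds
  have h3 : Tendsto (fun η : ℝ => (1 + ‖th z‖) * ‖σ - (η : ℂ) * F 0‖) (𝓝[<] 1) (𝓝 ((1 + ‖th z‖) * ‖σ - F 0‖)) := by
    have : Continuous (fun η : ℝ => (1 + ‖th z‖) * ‖σ - (η : ℂ) * F 0‖) := by fun_prop
    have := this.tendsto 1
    simp only [ofReal_one, one_mul] at this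
    exact this.mono_left nhdsWithin_le_nhds
  exact le_of_tendsto_of_tendsto h2 h3 h1

/-- **The raw bound**: if `K |σ - d 0| ≤ E` then `K (1-|th s|) |σ - d s| ≤ 4E + 200` on the closed strip. -/
theorem FE.raw (h : FE K d) (hr : IsRealF d) {σ : ℂ} (hσ : ‖σ‖ = 1) {E : ℝ} (hE : K * ‖σ - d 0‖ ≤ E)
    {s : ℂ} (hs : |s.im| ≤ Real.pi / 6) : K * (1 - ‖th s‖) * ‖σ - d s‖ ≤ 2 * E + 200 := by
  have hK : (0 : ℝ) ≤ K := by positivity
  have hE0 : 0 ≤ E := le_trans (by positivity) hE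
  have hq0 : 0 ≤ 1 - ‖th s‖ := by linarith [norm_th_le hs]
  have hq1 : 1 - ‖th s‖ ≤ 1 := by linarith [norm_nonneg (th s)]
  have hd2 := h.norm_le_two_strip hr hs
  by_cases hbig : K * (1 - ‖th s‖) ≤ 24
  · have : ‖σ - d s‖ ≤ 3 := (norm_sub_le _ _).trans (by rw [hσ]; linarith)
    nlinarith [norm_nonneg (σ - d s)]
  push Not at hbig
  have hK24 : (24 : ℝ) < K := by nlinarith
  set F : ℂ → ℂ := fun z => d z * Complex.exp ((-1 / 2) * HH K z) with hF
  have hFd : DiffContOnCl ℂ F So := ⟨h.dcc.1.mul (dcc_exp dcc_HH _).1, h.dcc.2.mul (dcc_exp dcc_HH _).2⟩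
  have hFb : ∀ z ∈ Sc, ‖F z‖ ≤ 1 := by
    intro z hz
    rw [hF]
    simp only
    rw [norm_mul, Complex.norm_exp]
    have e : ((-1 / 2) * HH K z).re = -((HH K z).re / 2) := by simp; ring
    rw [e, Real.exp_neg, ← div_eq_mul_inv, div_le_one (Real.exp_pos _)]
    exact h.norm_le_exp hr (mem_Sc.1 hz)
  have hp := pick hFd hFb hσ hs
  -- the correction factor at `s` and at `0`
  have hexp : ∀ z : ℂ, |z.im| ≤ Real.pi / 6 → 24 ≤ K * (1 - ‖th z‖) →
      ‖F z - d z‖ ≤ 2 * (24 / (K * (1 - ‖th z‖))) := by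
    intro z hz hzK
    have h1 := norm_HH_le (K := K) hz
    have h2 : 24 / (1 + K * (1 - ‖th z‖)) ≤ 24 / (K * (1 - ‖th z‖)) := by
      apply div_le_div_of_nonneg_left (by norm_num) (by linarith); linarith
    have h3 : ‖(-1 / 2 : ℂ) * HH K z‖ ≤ 1 / 2 * (24 / (K * (1 - ‖th z‖))) := by
      rw [norm_mul]
      have : ‖(-1 / 2 : ℂ)‖ = 1 / 2 := by simp
      rw [this]
      have := h1.trans h2
      linarith
    have h4 : 24 / (K * (1 - ‖th z‖)) ≤ 1 := by rw [div_le_one (by linarith)]; exact hzK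
    have h5 := Complex.norm_exp_sub_one_le (x := (-1 / 2 : ℂ) * HH K z) (by linarith)
    have h6 : F z - d z = d z * (Complex.exp ((-1 / 2) * HH K z) - 1) := by rw [hF]; ring
    have h7 := h.norm_le_two_strip hr hz
    rw [h6, norm_mul]
    have h8 : ‖d z‖ * ‖Complex.exp ((-1 / 2) * HH K z) - 1‖ ≤ 2 * (2 * (1 / 2 * (24 / (K * (1 - ‖th z‖))))) := by
      apply mul_le_mul h7 (h5.trans (by linarith)) (norm_nonneg _) (by norm_num)
    linarith
  have hx48 : ∀ x : ℝ, 0 < x → x * (2 * (24 / x)) = 48 := by intro x hx; field_simp; norm_num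
  have h1 := hexp s hs hbig.le
  have h2 := hexp 0 (by rw [zero_im, abs_zero]; positivity) (by rw [th_zero, norm_zero, sub_zero, mul_one]; exact hK24.le)
  simp only [th_zero, norm_zero, sub_zero, mul_one] at h2
  have h3 : K * (1 - ‖th s‖) * ‖F s - d s‖ ≤ 48 := by
    calc K * (1 - ‖th s‖) * ‖F s - d s‖ ≤ K * (1 - ‖th s‖) * (2 * (24 / (K * (1 - ‖th s‖)))) := by gcongr
      _ = 48 := hx48 _ (by linarith)
  have h4 : K * ‖F 0 - d 0‖ ≤ 48 := by
    calc K * ‖F 0 - d 0‖ ≤ K * (2 * (24 / K)) := by gcongr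
      _ = 48 := hx48 _ (by linarith)
  have h5 : ‖σ - d s‖ ≤ ‖σ - F s‖ + ‖F s - d s‖ := by
    have : σ - d s = (σ - F s) + (F s - d s) := by ring
    rw [this]; exact norm_add_le _ _
  have h6 : ‖σ - F 0‖ ≤ ‖σ - d 0‖ + ‖F 0 - d 0‖ := by
    have : σ - F 0 = (σ - d 0) - (F 0 - d 0) := by ring
    rw [this]; exact norm_sub_le _ _
  have h7 : ‖σ - F s‖ * (1 - ‖th s‖) ≤ 2 * ‖σ - F 0‖ := by
    refine hp.trans ?_
    have := norm_th_le hs
    nlinarith [norm_nonneg (σ - F 0)]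
  have h8 : K * (‖σ - F s‖ * (1 - ‖th s‖)) ≤ K * (2 * ‖σ - F 0‖) := mul_le_mul_of_nonneg_left h7 hK
  have h9 : K * ‖σ - F 0‖ ≤ K * (‖σ - d 0‖ + ‖F 0 - d 0‖) := mul_le_mul_of_nonneg_left h6 hK
  have h10 : K * (1 - ‖th s‖) * ‖σ - d s‖ ≤ K * (1 - ‖th s‖) * (‖σ - F s‖ + ‖F s - d s‖) := by gcongr
  nlinarith

end Ann
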