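import Pool.Agent.Helper2.Ann.YLimit2
import Pool.Agent.Helper78.DR.Adapt

/-!
# The limit theorems for low lying levels

* `Ann.limit_ii`: `y ≠ 0` and `y'/(n y) → 6 / sinh 3s` uniformly on the segment `Re s = 1`, `|Im s| ≤ π/4`;
* `Ann.limit_n`: the statement (A3)(i) with `n` in place of `K = 2n+2`;
* `Ann.sigma_neg`: `n |1 + d 0|` is unbounded (the braid sign);
* `DR.Sol.lev`: the data of the transfer matrix eigenvalues satisfy the hypotheses.
-/

set_option autoImplicit false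

namespace Ann

open Complex Set Filter Topology Metric

variable {n : ℕ} {P : Polynomial ℂ} {E c : ℝ}

lemma eventually_log_le {κ c : ℝ} (hκ : 0 < κ) :
    ∀ᶠ n : ℕ in atTop, |Real.log (6 * (2 * n + 2 : ℕ) / c)| ≤ κ * n := by
  have h1 : ∀ᶠ x : ℝ in atTop, ‖Real.log x‖ ≤ κ / 4 * ‖id x‖ := Real.isLittleO_log_id_atTop.bound (by positivity)
  have h2 : Tendsto (fun n : ℕ => ((n : ℝ) + 1)) atTop atTop :=
    tendsto_atTop_add_const_right _ _ tendsto_natCast_atTop_atTop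
  have h3 := h2.eventually h1
  obtain ⟨N, hN⟩ := exists_nat_gt (2 * |Real.log (12 / c)| / κ)
  filter_upwards [h3, eventually_ge_atTop (max N 1)] with n h4 h5
  have h6 : (N : ℝ) ≤ n := by exact_mod_cast (le_max_left _ _).trans h5
  have h7 : (1 : ℝ) ≤ n := by exact_mod_cast (le_max_right _ _).trans h5
  rcases eq_or_ne c 0 with hc | hc
  · rw [hc, div_zero, Real.log_zero, abs_zero]; positivity
  have h8 : Real.log (6 * (2 * n + 2 : ℕ) / c) = Real.log (12 / c) + Real.log (n + 1) := by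
    rw [← Real.log_mul (by positivity) (by positivity)]
    congr 1
    push_cast
    ring
  rw [h8]
  rw [Real.norm_eq_abs, id_eq, Real.norm_eq_abs, abs_of_pos (by positivity : (0 : ℝ) < (n : ℝ) + 1)] at h4
  have h9 : 2 * |Real.log (12 / c)| ≤ κ * n := by
    have h10 := hN.le.trans h6
    rwa [div_le_iff₀ hκ, mul_comm (n : ℝ)] at h10
  refine (abs_add_le _ _).trans ?_
  nlinarith

/-- **Theorem (A3)(ii).** -/
theorem limit_ii {E c δ : ℝ} (hE : 0 ≤ E) (hc : 0 < c) (hδ : 0 < δ) :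
    ∀ᶠ n : ℕ in atTop, ∀ P : Polynomial ℂ, Lev n P → LL (2 * n + 2) (dP P) 1 E →
      c ≤ (2 * n + 2 : ℕ) * ‖1 - dP P 0‖ → ∀ s : ℂ, s.re = 1 → |s.im| ≤ Real.pi / 4 →
      yf (dP P) s ≠ 0 ∧ ‖deriv (yf (dP P)) s / yf (dP P) s / (n : ℂ) - 6 / Complex.sinh (3 * s)‖ ≤ δ := by
  have hp := Real.pi_pos
  -- parameters
  have hW2 := W_pos 2
  obtain ⟨M, hM⟩ := exists_nat_gt (8208 * (12 * W 2) * 4 / δ)
  have hM0 : (0 : ℝ) < M := lt_of_le_of_lt (by positivity) hM
  obtain ⟨R, hR0, hR⟩ := exists_far M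
  obtain ⟨K₀, hK₀⟩ := limit_i (E := E) (R₀ := 2) (ε := c / 4) hE (by norm_num) (by positivity)
  have hCE := CE_ge hE
  have hC7 := C7_nonneg hE hc
  have hWR := W_pos R
  obtain ⟨N₁, hN₁⟩ := exists_nat_gt (CE E * W 2)
  obtain ⟨N₂, hN₂⟩ := exists_nat_gt (12 * CE E * W R)
  obtain ⟨N₃, hN₃⟩ := exists_nat_gt (4 * (456 * (6 + C7 E c) + 6) / δ)
  have hlog := eventually_log_le (c := c) (κ := δ / (4 * 5472)) (by positivity)
  filter_upwards [hlog, eventually_ge_atTop (max (max K₀ N₁) (max (max N₂ N₃) 1))] with n hl hn P hL hLL hlow s hs1 hs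
  have hnK₀ : K₀ ≤ n := (le_max_left _ _).trans ((le_max_left _ _).trans hn)
  have hnN₁ : N₁ ≤ n := (le_max_right _ _).trans ((le_max_left _ _).trans hn)
  have hnN₂ : N₂ ≤ n := (le_max_left _ _).trans ((le_max_left _ _).trans ((le_max_right _ _).trans hn))
  have hnN₃ : N₃ ≤ n := (le_max_right _ _).trans ((le_max_left _ _).trans ((le_max_right _ _).trans hn))
  have hn1 : 1 ≤ n := (le_max_right _ _).trans ((le_max_right _ _).trans hn)
  have hn1' : (1 : ℝ) ≤ n := by exact_mod_cast hn1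
  have hnK : (n : ℝ) ≤ (2 * n + 2 : ℕ) := by exact_mod_cast (by omega : n ≤ 2 * n + 2)
  have hbig : CE E * W 2 < (2 * n + 2 : ℕ) := hN₁.trans_le ((by exact_mod_cast hnN₁ : (N₁ : ℝ) ≤ n).trans hnK)
  have hG : Good n P E c :=
    { lev := hL
      ll := hLL
      hc := hc
      lower := hlow
      small := hK₀ _ _ (by omega) hLL (dP_even P)
      big := hbig }
  have hsm : ∀ t : ℝ, |t| ≤ R → ‖1 - dP P t‖ ≤ 1 / 4 := by
    intro t ht
    have hWt : W t ≤ W R := by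
      unfold W
      have : Real.cosh (3 * t) ≤ Real.cosh (3 * R) := by
        rw [Real.cosh_le_cosh, abs_mul, abs_mul, abs_of_nonneg hR0]
        gcongr
      linarith
    have h1 : 12 * CE E * W R < (2 * n + 2 : ℕ) := hN₂.trans_le ((by exact_mod_cast hnN₂ : (N₂ : ℝ) ≤ n).trans hnK)
    have h2 : CE E * W (t : ℂ).re < (2 * n + 2 : ℕ) := by
      rw [ofReal_re]
      have : CE E * W t ≤ CE E * W R := by gcongr
      have h3 : 0 < CE E * W R := by positivity
      linarith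
    have h3 := hLL.near (s := (t : ℂ)) (by rw [ofReal_im, abs_zero]; positivity) h2
    rw [ofReal_re, Complex.ofReal_one] at h3
    have h4 : CE E * W t ≤ CE E * W R := by gcongr
    have hKp : (0 : ℝ) < (2 * n + 2 : ℕ) := by positivity
    by_contra hcon
    push Not at hcon
    have h5 : ((2 * n + 2 : ℕ) : ℝ) * (1 / 4) < (2 * n + 2 : ℕ) * ‖1 - dP P t‖ := by gcongr
    linarith
  -- the exponent
  set h := 12 * W 2 / M with hh
  have hh0 : 0 < h := by positivity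
  set V := 3 * n * h + 2 * |Real.log (6 * (2 * n + 2 : ℕ) / c)| + 1 with hV
  have hV0 : 0 < V := by positivity
  have hVlow : ∀ x : ℝ, 1 / 2 ≤ x → x ≤ 3 / 2 → 3 ≤ ‖gq P n x‖ * Real.exp V := by
    intro x hx0 hx1
    have h1 := hG.gq_low hR hsm (x := x) (by linarith) (by linarith)
    refine h1.trans ?_
    have h2 := norm_HH_W (K := M) (s := (x : ℂ)) (by rw [ofReal_im, abs_zero]; positivity)
    rw [ofReal_re] at h2
    have h3 : W x ≤ W 2 := W_two_le (by rw [abs_of_pos (by linarith)]; linarith)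
    have h4 : ‖HH M x‖ ≤ h := by
      rw [hh, le_div_iff₀ hM0]
      linarith
    have h5 := le_abs_self (Real.log (6 * (2 * n + 2 : ℕ) / c))
    have h6 : 3 * n * ‖HH M x‖ + 2 * Real.log (6 * (2 * n + 2 : ℕ) / c) ≤ V := by
      rw [hV]
      have : 3 * n * ‖HH M x‖ ≤ 3 * n * h := by gcongr
      linarith
    gcongr
  have hlam := hG.lam_all hV0 hVlow hs1 hs
  have hy := hG.y_ne (s := s) (by rw [hs1]; norm_num) (by rw [hs1]; norm_num) hs
  refine ⟨hy, ?_⟩
  -- algebra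
  have hsinh : 1 ≤ ‖Complex.sinh (3 * s)‖ := by
    have := sinh_norm_ge s
    rw [hs1] at this
    exact (one_le_sinh (by norm_num)).trans this
  have hsinh0 : Complex.sinh (3 * s) ≠ 0 := by
    intro h0; rw [h0, norm_zero] at hsinh; linarith
  have hnC : (n : ℂ) ≠ 0 := by exact_mod_cast (by omega : n ≠ 0)
  have e : deriv (yf (dP P)) s / yf (dP P) s / (n : ℂ) - 6 / Complex.sinh (3 * s) =
      Lam P n s / n + 6 / Complex.sinh (3 * s) / n := by
    rw [Lam]
    push_cast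
    field_simp
    ring
  rw [e]
  refine (norm_add_le _ _).trans ?_
  have hn0 : (0 : ℝ) < n := by linarith
  rw [norm_div, norm_div, norm_div, Complex.norm_natCast]
  have h6 : ‖(6 : ℂ)‖ / ‖Complex.sinh (3 * s)‖ ≤ 6 := by
    rw [Complex.norm_ofNat]
    exact div_le_self (by norm_num) hsinh
  rw [← add_div, div_le_iff₀ hn0]
  have hM' : 8208 * h * 4 ≤ δ := by
    rw [div_lt_iff₀ hδ] at hM
    rw [hh]
    have : 8208 * (12 * W 2 / M) * 4 = 8208 * (12 * W 2) * 4 / M := by ring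
    rw [this, div_le_iff₀ hM0]
    linarith
  have h7 : 4 * (456 * (6 + C7 E c) + 6) ≤ δ * n := by
    have := hN₃.le.trans (by exact_mod_cast hnN₃ : (N₃ : ℝ) ≤ n)
    rw [div_le_iff₀ hδ] at this
    linarith
  have h8 : 8208 * (n * h) * 4 ≤ δ * n := by nlinarith
  have h9 : 5472 * |Real.log (6 * (2 * n + 2 : ℕ) / c)| ≤ δ / 4 * n := by
    calc 5472 * |Real.log (6 * (2 * n + 2 : ℕ) / c)| ≤ 5472 * (δ / (4 * 5472) * n) := by gcongr
      _ = δ / 4 * n := by ring
  rw [hV] at hlam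
  linarith

/-- **(A3)(i) with `n`.** -/
theorem limit_n {E X δ : ℝ} (hE : 0 ≤ E) (hX : 0 ≤ X) (hδ : 0 < δ) :
    ∀ᶠ n : ℕ in atTop, ∀ d : ℂ → ℂ, LL (2 * n + 2) d 1 E → (∀ s, d (-s) = d s) →
      ∀ s : ℂ, |s.re| ≤ X → |s.im| ≤ Real.pi / 4 →
      ‖(n : ℂ) * (1 - d s) - n * (1 - d 0) * Complex.cosh (3 * s)‖ ≤ δ := by
  obtain ⟨K₀, hK₀⟩ := limit_i (E := E) (R₀ := X) (ε := δ) hE hX hδ
  filter_upwards [eventually_ge_atTop K₀] with n hn d hLL he s hs1 hs
  have h1 := hK₀ (2 * n + 2) d (by omega) hLL he s hs1 hs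
  have e : (n : ℂ) * (1 - d s) - n * (1 - d 0) * Complex.cosh (3 * s) =
      (n : ℂ) / (2 * n + 2 : ℕ) * wf (2 * n + 2) d s := by
    rw [wf]
    have : ((2 * n + 2 : ℕ) : ℂ) ≠ 0 := by exact_mod_cast (by omega : 2 * n + 2 ≠ 0)
    field_simp
  rw [e, norm_mul, norm_div, Complex.norm_natCast, Complex.norm_natCast]
  have h2 : (n : ℝ) / (2 * n + 2 : ℕ) ≤ 1 := by
    rw [div_le_one (by positivity)]
    exact_mod_cast (by omega : n ≤ 2 * n + 2)
  calc (n : ℝ) / (2 * n + 2 : ℕ) * ‖wf (2 * n + 2) d s‖ ≤ 1 * δ := by gcongr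
    _ = δ := one_mul _

/-- a low lying level with `d 0` near `-1` does not exist for large `n`. -/
theorem sigma_neg {E : ℝ} (hE : 0 ≤ E) :
    ∀ᶠ n : ℕ in atTop, ∀ P : Polynomial ℂ, Lev n P → E < (2 * n + 2 : ℕ) * ‖-1 - dP P 0‖ := by
  have hCE := CE_ge hE
  obtain ⟨N, hN⟩ := exists_nat_gt (6 * CE E)
  filter_upwards [eventually_ge_atTop N] with n hn P hL
  have hnK : (n : ℝ) ≤ (2 * n + 2 : ℕ) := by exact_mod_cast (by omega : n ≤ 2 * n + 2)
  have hN' : 6 * CE E < (2 * n + 2 : ℕ) := hN.trans_le ((by exact_mod_cast hn : (N : ℝ) ≤ n).trans hnK)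
  by_contra hcon
  push Not at hcon
  have hLL : LL (2 * n + 2) (dP P) (-1) E :=
    { fe := hL.fe
      re := hL.real
      hσ := by norm_num
      hE := by push_cast at hcon ⊢; exact hcon }
  have hW : W (sh).re = 2 := by rw [sh_re, W, mul_zero, Real.cosh_zero]; norm_num
  have h1 := hLL.near (s := sh) (by rw [sh_im, abs_of_pos (by positivity)]; linarith [Real.pi_pos]) (by rw [hW]; linarith)
  rw [hW, dP_sh hL] at h1
  have h2 : ‖((-1 : ℝ) : ℂ) - 1‖ = 2 := by
    push_cast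
    have : (-1 - 1 : ℂ) = -2 := by norm_num
    rw [this, norm_neg, Complex.norm_ofNat]
  rw [h2] at h1
  linarith

end Ann

namespace DR

open Polynomial Complex Filter Topology

/-- the hypotheses `Lev` for the eigenvalues -/
theorem Sol.lev {n : ℕ} {d : ℝ[X]} (h : Sol n (d.map (algebraMap ℝ ℂ))) :
    ∃ P : ℂ[X], Ann.Lev n P ∧ Ann.dP P = dS (d.map (algebraMap ℝ ℂ)) := by
  obtain ⟨P, hP1, hP2, hP3, -⟩ := h.spectral
  have e : Ann.dP P = dS (d.map (algebraMap ℝ ℂ)) := by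
    funext s
    rw [Ann.dP, dS, hP2]
  refine ⟨P, ⟨hP1, ?_, hP3, ?_, ?_⟩, e⟩
  · rw [e]; exact h.real
  · intro s h0 h1 h2
    rw [e, sh_eq] at *
    have := h.cubic_s h0 h1 h2
    rw [dS, dS, dS]
    linear_combination this
  · rw [e]; exact h.fe.ord

end DR
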