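import Pool.Agent.Helper2.Ann.Export
import Pool.Agent.Helper40.A4.Bridge

/-!
# The convergence statement needed for the quantisation
-/

set_option autoImplicit false

namespace Ann

open Complex Set Filter Topology Metric Polynomial

lemma cosh_norm_one {s : ℂ} (hs : s.re = 1) : ‖Complex.cosh (3 * s)‖ ≤ Real.cosh 3 := by
  have := norm_cosh_le s
  rwa [hs, mul_one] at this

/-- a family of real solutions whose value at `0` satisfies `n (1 - d) → ε ≠ 0` satisfies `A4.LimS`. -/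
theorem limS {ι : Type*} {l : Filter ι} {n : ι → ℕ} {d : ι → ℝ[X]} {ε : ℝ}
    (hsol : ∀ᶠ i in l, DR.Sol (n i) ((d i).map (algebraMap ℝ ℂ))) (hn : Tendsto n l atTop)
    (hε : Tendsto (fun i => (n i : ℝ) * (1 - (d i).eval (1 / 2))) l (𝓝 ε)) (h0 : ε ≠ 0) :
    A4.LimS l n (fun i => (d i).map (algebraMap ℝ ℂ)) 1 ε := by
  have hd0 : ∀ i, DR.dS ((d i).map (algebraMap ℝ ℂ)) 0 = (((d i).eval (1 / 2) : ℝ) : ℂ) := by
    intro i
    rw [DR.dS_zero, eval_map_algebraMap]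
    have : ((1 / 2 : ℂ)) = ((1 / 2 : ℝ) : ℂ) := by push_cast; ring
    rw [this]
    exact (Polynomial.aeval_algebraMap_apply ℂ (1 / 2 : ℝ) (d i)).trans rfl
  have hn1 : ∀ᶠ i in l, 1 ≤ n i := hn.eventually (eventually_ge_atTop 1)
  set E : ℝ := 4 * (|ε| + 1) with hE
  have hE0 : 0 ≤ E := by positivity
  have hε0 : 0 < |ε| := abs_pos.2 h0
  -- the distance to the limit
  have hdist : ∀ δ > 0, ∀ᶠ i in l, |(n i : ℝ) * (1 - (d i).eval (1 / 2)) - ε| < δ := by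
    intro δ hδ
    have := (Metric.tendsto_nhds.1 hε) δ hδ
    simpa [Real.dist_eq] using this
  -- the levels
  have hLL : ∀ᶠ i in l, LL (2 * n i + 2) (DR.dS ((d i).map (algebraMap ℝ ℂ))) 1 E := by
    filter_upwards [hsol, hn1, hdist 1 one_pos] with i h1 h2 h3
    refine ⟨h1.fe, h1.real, by norm_num, ?_⟩
    rw [hd0, ← ofReal_sub, Complex.norm_real, Real.norm_eq_abs]
    have h4 : |(n i : ℝ) * (1 - (d i).eval (1 / 2))| ≤ |ε| + 1 := by
      have := abs_sub_abs_le_abs_sub ((n i : ℝ) * (1 - (d i).eval (1 / 2))) ε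
      linarith
    rw [abs_mul, abs_of_nonneg (by positivity : (0 : ℝ) ≤ n i)] at h4
    have h5 : ((2 * n i + 2 : ℕ) : ℝ) ≤ 4 * n i := by exact_mod_cast (by omega : 2 * n i + 2 ≤ 4 * n i)
    calc ((2 * n i + 2 : ℕ) : ℝ) * |1 - (d i).eval (1 / 2)| ≤ (4 * n i) * |1 - (d i).eval (1 / 2)| := by gcongr
      _ = 4 * (n i * |1 - (d i).eval (1 / 2)|) := by ring
      _ ≤ E := by rw [hE]; gcongr
  have hlow : ∀ᶠ i in l, |ε| / 2 ≤ (2 * n i + 2 : ℕ) * ‖1 - DR.dS ((d i).map (algebraMap ℝ ℂ)) 0‖ := by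
    filter_upwards [hdist (|ε| / 2) (by positivity)] with i h3
    rw [hd0, ← ofReal_one, ← ofReal_sub, Complex.norm_real, Real.norm_eq_abs]
    have h4 : |ε| / 2 ≤ |(n i : ℝ) * (1 - (d i).eval (1 / 2))| := by
      have := abs_sub_abs_le_abs_sub ε ((n i : ℝ) * (1 - (d i).eval (1 / 2)))
      rw [abs_sub_comm] at this
      linarith
    rw [abs_mul, abs_of_nonneg (by positivity : (0 : ℝ) ≤ n i)] at h4
    refine h4.trans ?_
    have h5 : (n i : ℝ) ≤ ((2 * n i + 2 : ℕ) : ℝ) := by exact_mod_cast (by omega : n i ≤ 2 * n i + 2)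
    gcongr
  have hii : ∀ δ > 0, ∀ᶠ i in l, ∀ s : ℂ, s.re = 1 → |s.im| ≤ Real.pi / 4 →
      DR.yf ((d i).map (algebraMap ℝ ℂ)) s ≠ 0 ∧
      ‖deriv (DR.yf ((d i).map (algebraMap ℝ ℂ))) s / DR.yf ((d i).map (algebraMap ℝ ℂ)) s / (n i : ℂ) -
        6 / Complex.sinh (3 * s)‖ ≤ δ := by
    intro δ hδ
    filter_upwards [hn.eventually (limit_ii (E := E) (c := |ε| / 2) (δ := δ) hE0 (by positivity) hδ), hsol, hLL, hlow]
      with i h1 h2 h3 h4 s hs1 hs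
    obtain ⟨P, hP, hPd⟩ := h2.lev
    rw [← hPd] at h3 h4
    have := h1 P hP h3 h4 s hs1 hs
    rw [hPd, DR.yf_eq] at this
    exact this
  refine ⟨hsol, hn, ?_, ?_, ?_⟩
  · intro δ hδ
    have hc3 : 0 < Real.cosh 3 := Real.cosh_pos _
    filter_upwards [hn.eventually (limit_n (E := E) (X := 1) (δ := δ / 2) hE0 (by norm_num) (by positivity)), hLL,
      hdist (δ / 2 / Real.cosh 3) (by positivity), hsol] with i h1 h2 h3 h4 s hs1 hs
    obtain ⟨P, hP, hPd⟩ := h4.lev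
    have h5 := h1 _ h2 (by rw [← hPd]; exact dP_even P) s (by rw [hs1]; norm_num) hs
    have h6 := cosh_norm_one hs1
    rw [hd0] at h5
    have e : (n i : ℂ) * (DR.dS ((d i).map (algebraMap ℝ ℂ)) s - 1) + ε * Complex.cosh (3 * s) =
        -((n i : ℂ) * (1 - DR.dS ((d i).map (algebraMap ℝ ℂ)) s) -
          n i * (1 - (((d i).eval (1 / 2) : ℝ) : ℂ)) * Complex.cosh (3 * s)) -
        (((n i : ℝ) * (1 - (d i).eval (1 / 2)) - ε : ℝ) : ℂ) * Complex.cosh (3 * s) := by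
      push_cast; ring
    rw [e]
    refine (norm_sub_le _ _).trans ?_
    rw [norm_neg, norm_mul, Complex.norm_real, Real.norm_eq_abs]
    have h7 : |(n i : ℝ) * (1 - (d i).eval (1 / 2)) - ε| * ‖Complex.cosh (3 * s)‖ ≤ δ / 2 / Real.cosh 3 * Real.cosh 3 := by
      gcongr
    rw [div_mul_cancel₀ _ hc3.ne'] at h7
    linarith
  · filter_upwards [hii 1 one_pos] with i h s hs1 hs
    exact (h s hs1 hs).1
  · intro δ hδ
    filter_upwards [hii δ hδ] with i h s hs1 hs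
    exact (h s hs1 hs).2

/-- **quantisation, braid value `-2`** -/
theorem quant_A {ι : Type*} {l : Filter ι} [l.NeBot] {n : ι → ℕ} {d : ι → ℝ[X]} {ε : ℝ}
    (hsol : ∀ᶠ i in l, DR.Sol (n i) ((d i).map (algebraMap ℝ ℂ))) (hn : Tendsto n l atTop)
    (hε : Tendsto (fun i => (n i : ℝ) * (1 - (d i).eval (1 / 2))) l (𝓝 ε)) (h0 : ε ≠ 0)
    (hb : ∀ᶠ i in l, A4.Dx ((d i).map (algebraMap ℝ ℂ)) 0 = -2) : ∃ m : ℤ, ε = 2 * Real.pi * (m + 1 / 3) := by
  obtain ⟨m, hm⟩ := (limS hsol hn hε h0).quant_A one_pos hb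
  refine ⟨m, ?_⟩
  have e : (2 * Real.pi * (m + 1 / 3) : ℂ) = ((2 * Real.pi * (m + 1 / 3) : ℝ) : ℂ) := by push_cast; ring
  rw [e] at hm
  exact ofReal_injective hm

/-- **quantisation, braid value `1`** -/
theorem quant_B {ι : Type*} {l : Filter ι} [l.NeBot] {n : ι → ℕ} {d : ι → ℝ[X]} {ε : ℝ}
    (hsol : ∀ᶠ i in l, DR.Sol (n i) ((d i).map (algebraMap ℝ ℂ))) (hn : Tendsto n l atTop)
    (hε : Tendsto (fun i => (n i : ℝ) * (1 - (d i).eval (1 / 2))) l (𝓝 ε)) (h0 : ε ≠ 0)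
    (hb : ∀ᶠ i in l, A4.Dx ((d i).map (algebraMap ℝ ℂ)) 0 = 1) : ∃ m : ℤ, ε = 2 * Real.pi * m := by
  obtain ⟨m, hm⟩ := (limS hsol hn hε h0).quant_B one_pos hb
  refine ⟨m, ?_⟩
  have e : (2 * Real.pi * m : ℂ) = ((2 * Real.pi * m : ℝ) : ℂ) := by push_cast; ring
  rw [e] at hm
  exact ofReal_injective hm

end Ann
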