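import Pool.Agent.Helper2.Ann.NearLine

/-!
# The limit `K (1 - d s) ≈ K (1 - d 0) cosh 3s`
-/

set_option autoImplicit false

namespace Ann

open Complex Set Filter Topology Metric

variable {K : ℕ} {d : ℂ → ℂ} {E : ℝ}

/-- `w(s) = K (1 - d s) - K (1 - d 0) cosh (3 s)` -/
noncomputable def wf (K : ℕ) (d : ℂ → ℂ) (s : ℂ) : ℂ := K * (1 - d s) - K * (1 - d 0) * Complex.cosh (3 * s)

/-- `v = w / sinh (3 s)` -/
noncomputable def vf (K : ℕ) (d : ℂ → ℂ) (s : ℂ) : ℂ :=
  dslope (wf K d) 0 s / dslope (fun z : ℂ => Complex.sinh (3 * z)) 0 s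

lemma wf_zero : wf K d 0 = 0 := by simp [wf]

lemma wf_diff (hd : ∀ s : ℂ, |s.im| < Real.pi / 2 → DifferentiableAt ℂ d s) {s : ℂ} (hs : |s.im| < Real.pi / 2) :
    DifferentiableAt ℂ (wf K d) s := by
  have h1 := hd s hs
  unfold wf
  fun_prop

lemma wf_even (he : ∀ s, d (-s) = d s) (s : ℂ) : wf K d (-s) = wf K d s := by
  rw [wf, wf, he, mul_neg, Complex.cosh_neg]

lemma deriv_zero_of_even {f : ℂ → ℂ} (he : ∀ s, f (-s) = f s) (hf : DifferentiableAt ℂ f 0) : deriv f 0 = 0 := by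
  have h1 : HasDerivAt f (deriv f 0) 0 := hf.hasDerivAt
  have h1' : HasDerivAt f (deriv f 0) (-0) := by rwa [neg_zero]
  have h2 : HasDerivAt (fun z : ℂ => -z) (-1) 0 := hasDerivAt_neg 0
  have h3 := HasDerivAt.comp (0 : ℂ) (h₂ := f) h1' h2
  have h4 : (f ∘ fun z : ℂ => -z) = f := by funext z; exact he z
  rw [h4] at h3
  have := h1.unique h3
  have h5 : (2 : ℂ) * deriv f 0 = 0 := by linear_combination this
  simpa using h5

/-- the denominators -/
noncomputable def sd (s : ℂ) : ℂ := dslope (fun z : ℂ => Complex.sinh (3 * z)) 0 s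

lemma sinh3_deriv (s : ℂ) : HasDerivAt (fun z : ℂ => Complex.sinh (3 * z)) (Complex.cosh (3 * s) * 3) s := by
  have h0 : HasDerivAt (fun z : ℂ => 3 * z) 3 s := by simpa using (hasDerivAt_id s).const_mul 3
  exact h0.csinh

lemma sd_mul (s : ℂ) : s * sd s = Complex.sinh (3 * s) := by
  rcases eq_or_ne s 0 with rfl | hs
  · simp
  · rw [sd, dslope_of_ne _ hs, slope_def_field]
    simp
    field_simp

lemma sd_zero : sd 0 = 3 := by
  rw [sd, dslope_same, (sinh3_deriv 0).deriv]; simp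

lemma sinh_ne' {z : ℂ} (h : |z.im| < Real.pi) (hz : z ≠ 0) : Complex.sinh z ≠ 0 := by
  intro h0
  have h1 := normSq_sinh z
  rw [h0, norm_zero] at h1
  have e1 : Real.sinh z.re ^ 2 = 0 := by nlinarith [sq_nonneg (Real.sinh z.re), sq_nonneg (Real.sin z.im)]
  have e2 : Real.sin z.im ^ 2 = 0 := by nlinarith [sq_nonneg (Real.sinh z.re), sq_nonneg (Real.sin z.im)]
  have e3 : Real.sinh z.re = 0 := by simpa using e1
  rw [Real.sinh_eq_zero] at e3
  have e4 : Real.sin z.im = 0 := by simpa using e2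
  have hb := abs_lt.1 h
  rw [Real.sin_eq_zero_iff_of_lt_of_lt (by linarith) (by linarith)] at e4
  exact hz (Complex.ext (by simpa using e3) (by simpa using e4))

lemma three_ne' {s : ℂ} (hs : |s.im| < Real.pi / 3) (h0 : s ≠ 0) : Complex.sinh (3 * s) ≠ 0 := by
  apply sinh_ne'
  · have : (3 * s).im = 3 * s.im := by simp
    rw [this, abs_mul]
    simp only [Nat.abs_ofNat]
    linarith
  · simpa using h0

lemma sd_ne {s : ℂ} (hs : |s.im| < Real.pi / 3) : sd s ≠ 0 := by
  rcases eq_or_ne s 0 with rfl | h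
  · rw [sd_zero]; norm_num
  · intro h0
    apply three_ne' hs h
    rw [← sd_mul, h0, mul_zero]

lemma diff_dslope {f : ℂ → ℂ} {U : Set ℂ} (hU : IsOpen U) (h0 : (0 : ℂ) ∈ U) (hf : DifferentiableOn ℂ f U) {s : ℂ}
    (hs : s ∈ U) : DifferentiableAt ℂ (dslope f 0) s :=
  ((Complex.differentiableOn_dslope (hU.mem_nhds h0)).2 hf).differentiableAt (hU.mem_nhds hs)

lemma sd_diff (s : ℂ) : DifferentiableAt ℂ sd s :=
  diff_dslope isOpen_univ (mem_univ _) (fun z _ => (sinh3_deriv z).differentiableAt.differentiableWithinAt) (mem_univ _)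

lemma isOpen_strip (b : ℝ) : IsOpen {z : ℂ | |z.im| < b} := isOpen_lt (by fun_prop) (by fun_prop)

lemma vf_diff (hd : ∀ s : ℂ, |s.im| < Real.pi / 2 → DifferentiableAt ℂ d s) {s : ℂ} (hs : |s.im| < Real.pi / 3) :
    DifferentiableAt ℂ (vf K d) s := by
  have h1 : DifferentiableAt ℂ (dslope (wf K d) 0) s := by
    refine diff_dslope (isOpen_strip (Real.pi / 2)) ?_ (fun z hz => (wf_diff hd hz).differentiableWithinAt) ?_
    · simp only [mem_ofPred_eq, zero_im, abs_zero]; positivity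
    · simp only [mem_ofPred_eq]; linarith [Real.pi_pos]
  exact h1.div (sd_diff s) (sd_ne hs)

lemma vf_mul {s : ℂ} (hs : |s.im| < Real.pi / 3) : vf K d s * Complex.sinh (3 * s) = wf K d s := by
  rcases eq_or_ne s 0 with rfl | h
  · simp [wf_zero]
  · have h1 := sd_ne hs
    have h2 : dslope (wf K d) 0 s * s = wf K d s := by
      rw [dslope_of_ne _ h, slope_def_field, wf_zero]
      simp
      field_simp
    rw [← sd_mul, vf, ← sd]
    rw [show dslope (wf K d) 0 s / sd s * (s * sd s) = dslope (wf K d) 0 s * s * (sd s / sd s) by ring, div_self h1, mul_one, h2]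

lemma vf_zero (hd : ∀ s : ℂ, |s.im| < Real.pi / 2 → DifferentiableAt ℂ d s) (he : ∀ s, d (-s) = d s) : vf K d 0 = 0 := by
  rw [vf, dslope_same, deriv_zero_of_even (wf_even he) (wf_diff hd (by rw [zero_im, abs_zero]; positivity)), zero_div]

lemma conj_three (s : ℂ) : (starRingEnd ℂ) (3 * s) = 3 * (starRingEnd ℂ) s := by
  rw [map_mul, Complex.conj_ofNat]

lemma wf_conj (hr : IsRealF d) {s : ℂ} (hs : |s.im| < Real.pi / 2) :
    wf K d ((starRingEnd ℂ) s) = (starRingEnd ℂ) (wf K d s) := by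
  have h0 : (starRingEnd ℂ) (d 0) = d 0 := by
    have := hr 0 (by rw [zero_im, abs_zero]; positivity)
    rw [map_zero] at this; exact this.symm
  rw [wf, wf, hr s hs, ← conj_three, Complex.cosh_conj]
  simp only [map_sub, map_mul, map_natCast, map_one, h0]

lemma vf_conj (hd : ∀ s : ℂ, |s.im| < Real.pi / 2 → DifferentiableAt ℂ d s) (he : ∀ s, d (-s) = d s) (hr : IsRealF d)
    {s : ℂ} (hs : |s.im| < Real.pi / 3) : vf K d ((starRingEnd ℂ) s) = (starRingEnd ℂ) (vf K d s) := by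
  rcases eq_or_ne s 0 with rfl | h
  · rw [map_zero, vf_zero hd he, map_zero]
  · have h1 := three_ne' hs h
    have h2 := vf_mul (K := K) (d := d) hs
    have h3 := vf_mul (K := K) (d := d) (s := (starRingEnd ℂ) s) (by simpa using hs)
    rw [wf_conj hr (by linarith [Real.pi_pos]), ← h2, map_mul] at h3
    have h4 : Complex.sinh (3 * (starRingEnd ℂ) s) = (starRingEnd ℂ) (Complex.sinh (3 * s)) := by
      rw [← conj_three, Complex.sinh_conj]
    rw [h4] at h3
    exact mul_right_cancel₀ (by simpa using h1) h3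

lemma vf_real (hd : ∀ s : ℂ, |s.im| < Real.pi / 2 → DifferentiableAt ℂ d s) (he : ∀ s, d (-s) = d s) (hr : IsRealF d)
    (t : ℝ) : (vf K d t).im = 0 := by
  have h := vf_conj (K := K) hd he hr (s := (t : ℂ)) (by rw [ofReal_im, abs_zero]; positivity)
  rw [conj_ofReal] at h
  exact Complex.conj_eq_iff_im.1 h.symm

/-- `Im v = - Re w / cosh 3t` on the line -/
lemma vf_line (t : ℝ) : (vf K d (t + sh)).im * Real.cosh (3 * t) = -(wf K d (t + sh)).re := by
  have h := vf_mul (K := K) (d := d) (s := (t : ℂ) + sh) (by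
    rw [add_im, ofReal_im, zero_add, sh_im, abs_of_pos (by positivity)]; linarith [Real.pi_pos])
  have e : Complex.sinh (3 * ((t : ℂ) + sh)) = ((Real.cosh (3 * t) : ℝ) : ℂ) * I := by
    rw [mul_add, Complex.sinh_add]
    have h1 : Complex.cosh (3 * sh) = 0 := by
      rw [sh, ← mul_assoc]
      have : (3 : ℂ) * ((Real.pi / 6 : ℝ) : ℂ) = ((Real.pi / 2 : ℝ) : ℂ) := by push_cast; ring
      rw [this, Complex.cosh_mul_I, ← Complex.ofReal_cos, Real.cos_pi_div_two, ofReal_zero]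
    have h2 : Complex.sinh (3 * sh) = I := by
      rw [sh, ← mul_assoc]
      have : (3 : ℂ) * ((Real.pi / 6 : ℝ) : ℂ) = ((Real.pi / 2 : ℝ) : ℂ) := by push_cast; ring
      rw [this, Complex.sinh_mul_I, ← Complex.ofReal_sin, Real.sin_pi_div_two, ofReal_one, one_mul]
    rw [h1, h2, mul_zero, zero_add]
    push_cast
    ring
  rw [e] at h
  have h3 := congrArg Complex.re h
  rw [← mul_assoc, Complex.mul_re, Complex.I_re, Complex.I_im, mul_zero, zero_sub, mul_one, Complex.mul_im, ofReal_re,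
    ofReal_im, mul_zero, zero_add] at h3
  linarith

lemma sinh_norm_ge (s : ℂ) : |Real.sinh (3 * s.re)| ≤ ‖Complex.sinh (3 * s)‖ := by
  apply le_of_sq_le_sq _ (norm_nonneg _)
  rw [normSq_sinh, sq_abs]
  have : (3 * s).re = 3 * s.re := by simp
  rw [this]
  linarith [sq_nonneg (Real.sin (3 * s).im)]

lemma norm_cosh_le (s : ℂ) : ‖Complex.cosh (3 * s)‖ ≤ Real.cosh (3 * s.re) := by
  apply le_of_sq_le_sq _ (Real.cosh_pos _).le
  rw [normSq_cosh]
  have : (3 * s).re = 3 * s.re := by simp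
  rw [this, Real.cosh_sq]
  linarith [Real.cos_sq_le_one (3 * s).im]

/-- the bound for `w` -/
lemma LL.norm_w (h : LL K d 1 E) {s : ℂ} (hs : |s.im| ≤ Real.pi / 4) (hK : CE E * W s.re < K) :
    ‖wf K d s‖ ≤ 4 * CE E * W s.re := by
  have hE := h.E_nonneg
  have h1 := h.near hs hK
  rw [ofReal_one] at h1
  have h2 := h.hE
  rw [ofReal_one] at h2
  have hW := W_pos s.re
  calc ‖wf K d s‖ ≤ ‖(K : ℂ) * (1 - d s)‖ + ‖(K : ℂ) * (1 - d 0) * Complex.cosh (3 * s)‖ := norm_sub_le _ _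
    _ = K * ‖1 - d s‖ + K * ‖1 - d 0‖ * ‖Complex.cosh (3 * s)‖ := by
      rw [norm_mul, norm_mul, norm_mul, Complex.norm_natCast]
    _ ≤ 3 * CE E * W s.re + E * Real.cosh (3 * s.re) := by
      gcongr
      exact norm_cosh_le s
    _ ≤ 4 * CE E * W s.re := by
      have : E * Real.cosh (3 * s.re) ≤ CE E * W s.re := by
        unfold CE W
        have := Real.cosh_pos (3 * s.re)
        nlinarith [mul_nonneg hE this.le]
      linarith

/-- powers of `th` are `O(1/K²)` -/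
lemma pow_small {T : ℝ} (hT0 : 0 ≤ T) (hT1 : T ≤ 1) (hK : 2 ≤ K) : K ^ 2 * (1 - T) ^ 2 * T ^ K ≤ 4 := by
  have h1 := pow_ge_quad K (σ := 1 - T) (by linarith)
  have h2 : T ^ K * (1 + (1 - T)) ^ K ≤ 1 := by
    rw [← mul_pow]; exact pow_le_one₀ (by nlinarith) (by nlinarith)
  have hK' : (2 : ℝ) ≤ K := by exact_mod_cast hK
  have h3 : (K : ℝ) ^ 2 * (1 - T) ^ 2 ≤ 4 * (1 + (1 - T)) ^ K := by
    have h4 : 0 ≤ (K : ℝ) * (1 - T) := mul_nonneg (by linarith) (by linarith)
    have h5 : (K : ℝ) ^ 2 / 4 ≤ K * (K - 1) / 2 := by nlinarith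
    have h6 : (K : ℝ) ^ 2 / 4 * (1 - T) ^ 2 ≤ K * (K - 1) / 2 * (1 - T) ^ 2 := by gcongr
    linarith
  calc K ^ 2 * (1 - T) ^ 2 * T ^ K ≤ 4 * (1 + (1 - T)) ^ K * T ^ K := by gcongr
    _ = 4 * (T ^ K * (1 + (1 - T)) ^ K) := by ring
    _ ≤ 4 := by linarith

/-- `K |y| = O(W²/K)` in the inner half of the strip -/
lemma LL.y_small2 {σ : ℝ} (h : LL K d σ E) (hK : 2 ≤ K) {s : ℂ} (hs : |s.im| ≤ Real.pi / 12) :
    K ^ 2 * ‖yf d s‖ ≤ 48 * W s.re ^ 2 := by
  have hs' : |s.im| ≤ Real.pi / 6 := by linarith [Real.pi_pos]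
  have h1 := h.fe.norm_y_le_strip h.re hs'
  have h2 := q_ge hs'
  have h3 : (1 : ℝ) / 2 ≤ Real.cos (3 * s.im) := half_le_cos (by rw [abs_mul]; simp only [Nat.abs_ofNat]; linarith)
  have h4 := pow_small (K := K) (norm_nonneg (th s)) (norm_th_le hs') hK
  have h5 : 1 / 4 ≤ (1 - ‖th s‖) ^ 2 * W s.re ^ 2 := by
    rw [← mul_pow]
    have : (1 / 2 : ℝ) ≤ (1 - ‖th s‖) * W s.re := h3.trans h2
    nlinarith
  have h6 : 0 ≤ (K : ℝ) ^ 2 * ‖th s‖ ^ K := by positivity
  calc K ^ 2 * ‖yf d s‖ ≤ K ^ 2 * (3 * ‖th s‖ ^ K) := by gcongr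
    _ = 12 * (K ^ 2 * ‖th s‖ ^ K) * (1 / 4) := by ring
    _ ≤ 12 * (K ^ 2 * ‖th s‖ ^ K) * ((1 - ‖th s‖) ^ 2 * W s.re ^ 2) := by gcongr
    _ = 12 * (K ^ 2 * (1 - ‖th s‖) ^ 2 * ‖th s‖ ^ K) * W s.re ^ 2 := by ring
    _ ≤ 12 * 4 * W s.re ^ 2 := by gcongr
    _ = 48 * W s.re ^ 2 := by ring

/-- `Re w` is small on the line -/
lemma LL.re_w_line (h : LL K d 1 E) (t : ℝ) (hK : CE E * W t < K) :
    K * |(wf K d (t + sh)).re| ≤ 5 * CE E ^ 2 * W t ^ 2 := by
  have hE := h.E_nonneg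
  have hW := W_pos t
  have hC := CE_ge hE
  have hK0 : (0 : ℝ) < K := lt_of_le_of_lt (mul_nonneg (by linarith) hW.le) hK
  have hK2 : 2 ≤ K := by
    have : (2 : ℝ) ≤ K := by nlinarith [W_ge t]
    exact_mod_cast this
  have him : |((t : ℂ) + sh).im| = Real.pi / 6 := by
    rw [add_im, ofReal_im, zero_add, sh_im, abs_of_pos (by positivity)]
  have hre : ((t : ℂ) + sh).re = t := by simp
  have h1 := h.near (s := (t : ℂ) + sh) (by rw [him]; linarith [Real.pi_pos]) (by rwa [hre])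
  rw [ofReal_one, hre] at h1
  have h2 := h.y_small2 hK2 (s := (t : ℂ)) (by rw [ofReal_im, abs_zero]; positivity)
  rw [ofReal_re] at h2
  -- `Re w = K Re (1 - d)`
  have h0 : (d 0).im = 0 := by
    have := h.re 0 (by rw [zero_im, abs_zero]; positivity)
    rw [map_zero] at this
    exact Complex.conj_eq_iff_im.1 this.symm
  have hcosh : Complex.cosh (3 * ((t : ℂ) + sh)) = ((Real.sinh (3 * t) : ℝ) : ℂ) * I := by
    rw [mul_add, Complex.cosh_add]
    have e1 : Complex.cosh (3 * sh) = 0 := by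
      rw [sh, ← mul_assoc]
      have : (3 : ℂ) * ((Real.pi / 6 : ℝ) : ℂ) = ((Real.pi / 2 : ℝ) : ℂ) := by push_cast; ring
      rw [this, Complex.cosh_mul_I, ← Complex.ofReal_cos, Real.cos_pi_div_two, ofReal_zero]
    have e2 : Complex.sinh (3 * sh) = I := by
      rw [sh, ← mul_assoc]
      have : (3 : ℂ) * ((Real.pi / 6 : ℝ) : ℂ) = ((Real.pi / 2 : ℝ) : ℂ) := by push_cast; ring
      rw [this, Complex.sinh_mul_I, ← Complex.ofReal_sin, Real.sin_pi_div_two, ofReal_one, one_mul]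
    rw [e1, e2, mul_zero, zero_add]
    push_cast
    ring
  have hw : (wf K d (t + sh)).re = K * (1 - d (t + sh)).re := by
    have e1 : (K : ℂ) * (1 - d 0) = (((K : ℝ) * (1 - (d 0).re) : ℝ) : ℂ) := by
      have : d 0 = (((d 0).re : ℝ) : ℂ) := by apply Complex.ext <;> simp [h0]
      rw [this]; push_cast; simp
    rw [wf, hcosh, e1, Complex.sub_re]
    have e2 : ((((K : ℝ) * (1 - (d 0).re) : ℝ) : ℂ) * (((Real.sinh (3 * t) : ℝ) : ℂ) * I)).re = 0 := by
      rw [Complex.re_ofReal_mul, Complex.re_ofReal_mul, Complex.I_re, mul_zero, mul_zero]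
    rw [e2, sub_zero]
    have : ((K : ℂ) * (1 - d (t + sh))) = (((K : ℝ) : ℂ)) * (1 - d (t + sh)) := by push_cast; rfl
    rw [this, Complex.re_ofReal_mul]
  -- `|d|^2 = 1 + y`
  have hprod : d (t + sh) * d (t - sh) = 1 + yf d t := by rw [yf]; ring
  have hconj : d (t - sh) = (starRingEnd ℂ) (d (t + sh)) := by
    rw [← conj_line, h.re _ (by rw [him]; linarith [Real.pi_pos])]
  have hnsq : ‖d (t + sh)‖ ^ 2 = 1 + (yf d t).re := by
    have h3 := congrArg Complex.re hprod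
    rw [hconj, Complex.mul_conj, Complex.normSq_eq_norm_sq, Complex.ofReal_re, Complex.add_re, Complex.one_re] at h3
    exact h3
  set e : ℂ := 1 - d (t + sh) with he
  have h4 : 2 * e.re = ‖e‖ ^ 2 - (yf d t).re := by
    have h5 : ‖d (t + sh)‖ ^ 2 = 1 - 2 * e.re + ‖e‖ ^ 2 := by
      have : d (t + sh) = 1 - e := by rw [he]; ring
      rw [this, Complex.sq_norm, Complex.sq_norm, Complex.normSq_sub]
      simp
      ring
    linarith
  have h6 : K * ‖e‖ ≤ 3 * CE E * W t := h1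
  have h7 : |(yf d t).re| ≤ ‖yf d t‖ := Complex.abs_re_le_norm _
  have h8 : |2 * e.re| ≤ ‖e‖ ^ 2 + ‖yf d t‖ := by
    rw [h4]
    refine (abs_sub _ _).trans ?_
    rw [abs_of_nonneg (sq_nonneg ‖e‖)]
    linarith
  rw [abs_mul] at h8
  simp only [Nat.abs_ofNat] at h8
  rw [hw, abs_mul, abs_of_pos hK0]
  have h9 : (K * ‖e‖) ^ 2 ≤ (3 * CE E * W t) ^ 2 := pow_le_pow_left₀ (by positivity) h6 2
  have h10 : K ^ 2 * |2 * e.re| ≤ (3 * CE E * W t) ^ 2 + 48 * W t ^ 2 := by
    calc K ^ 2 * |2 * e.re| = K ^ 2 * (2 * |e.re|) := by rw [abs_mul]; simp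
      _ ≤ K ^ 2 * (‖e‖ ^ 2 + ‖yf d t‖) := by gcongr
      _ = (K * ‖e‖) ^ 2 + K ^ 2 * ‖yf d t‖ := by ring
      _ ≤ _ := by linarith
  rw [abs_mul] at h10
  simp only [Nat.abs_ofNat] at h10
  have h11 : 48 * W t ^ 2 ≤ CE E ^ 2 * W t ^ 2 := by
    gcongr
    nlinarith
  nlinarith

/-! ### maximum principle on a rectangle -/

lemma im_rect {v : ℂ → ℂ} {R δ C : ℝ} (hR : 0 < R) (hv : ∀ s : ℂ, |s.im| < Real.pi / 3 → DifferentiableAt ℂ v s)
    (h0 : ∀ t : ℝ, |t| ≤ R → (v t).im ≤ δ) (h1 : ∀ t : ℝ, |t| ≤ R → (v (t + sh)).im ≤ δ)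
    (h2 : ∀ s : ℂ, |s.re| = R → |s.im| ≤ Real.pi / 6 → (v s).im ≤ C) (hC : 0 ≤ C) (hδ : 0 ≤ δ)
    {s : ℂ} (hs : |s.re| ≤ R) (hs0 : 0 ≤ s.im) (hs1 : s.im ≤ Real.pi / 6) :
    (v s).im ≤ δ + 2 * C * Real.cosh (3 * s.re) / Real.cosh (3 * R) := by
  have hp := Real.pi_pos
  set B : ℝ := 2 * C / Real.cosh (3 * R) with hB
  have hcR := Real.cosh_pos (3 * R)
  have hB0 : 0 ≤ B := by positivity
  set a : ℂ := ((Real.pi / 12 : ℝ) : ℂ) * I with ha
  -- real part of the barrier
  have hbar : ∀ z : ℂ, (Complex.cosh (3 * (z - a))).re = Real.cosh (3 * z.re) * Real.cos (3 * z.im - Real.pi / 4) := by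
    intro z
    have e : 3 * (z - a) = ((3 * z.re : ℝ) : ℂ) + ((3 * z.im - Real.pi / 4 : ℝ) : ℂ) * I := by
      apply Complex.ext
      · simp [ha]
      · simp [ha]; ring
    rw [e, Complex.cosh_add, Complex.cosh_mul_I, Complex.sinh_mul_I, ← Complex.ofReal_cosh, ← Complex.ofReal_sinh,
      ← Complex.ofReal_cos, ← Complex.ofReal_sin, Complex.add_re, Complex.re_ofReal_mul, Complex.ofReal_re,
      Complex.re_ofReal_mul, Complex.re_ofReal_mul, Complex.I_re]
    ring
  have hcos : ∀ y : ℝ, 0 ≤ y → y ≤ Real.pi / 6 → (1 : ℝ) / 2 ≤ Real.cos (3 * y - Real.pi / 4) := by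
    intro y hy0 hy1
    exact half_le_cos (abs_le.2 ⟨by linarith, by linarith⟩)
  set Φ : ℂ → ℂ := fun z => Complex.exp (-I * v z - B * Complex.cosh (3 * (z - a))) with hΦ
  have hnorm : ∀ z : ℂ, ‖Φ z‖ = Real.exp ((v z).im - B * (Real.cosh (3 * z.re) * Real.cos (3 * z.im - Real.pi / 4))) := by
    intro z
    rw [hΦ]
    simp only
    rw [Complex.norm_exp, Complex.sub_re, Complex.re_ofReal_mul, hbar]
    simp
  have hcl : ∀ z ∈ closure (Ioo (-R) R ×ℂ Ioo 0 (Real.pi / 6)), |z.re| ≤ R ∧ 0 ≤ z.im ∧ z.im ≤ Real.pi / 6 := by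
    intro z hz
    rw [Complex.closure_reProdIm, closure_Ioo (by linarith), closure_Ioo (by positivity), mem_reProdIm] at hz
    exact ⟨abs_le.2 ⟨hz.1.1, hz.1.2⟩, hz.2.1, hz.2.2⟩
  have hmem : s ∈ closure (Ioo (-R) R ×ℂ Ioo 0 (Real.pi / 6)) := by
    rw [Complex.closure_reProdIm, closure_Ioo (by linarith), closure_Ioo (by positivity), mem_reProdIm]
    exact ⟨abs_le.1 hs, hs0, hs1⟩
  have key : ‖Φ s‖ ≤ Real.exp δ := by
    refine Complex.norm_le_of_forall_mem_frontier_norm_le (U := Ioo (-R) R ×ℂ Ioo 0 (Real.pi / 6)) ?_ ?_ ?_ hmem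
    · exact (isBounded_Ioo _ _).reProdIm (isBounded_Ioo _ _)
    · refine DifferentiableOn.diffContOnCl fun z hz => ?_
      have h3 := hcl z hz
      have h4 := hv z (by rw [abs_of_nonneg h3.2.1]; linarith [h3.2.2])
      have h5 : DifferentiableAt ℂ Φ z := by
        rw [hΦ]
        fun_prop
      exact h5.differentiableWithinAt
    · intro z hz
      have hopen : IsOpen (Ioo (-R) R ×ℂ Ioo 0 (Real.pi / 6)) := isOpen_Ioo.reProdIm isOpen_Ioo
      rw [hopen.frontier_eq] at hz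
      have h3 := hcl z hz.1
      have hcz := Real.cosh_pos (3 * z.re)
      rw [hnorm, Real.exp_le_exp]
      have h4 := hcos z.im h3.2.1 h3.2.2
      have h5 : 0 ≤ B * (Real.cosh (3 * z.re) * Real.cos (3 * z.im - Real.pi / 4)) := by
        have : 0 ≤ Real.cos (3 * z.im - Real.pi / 4) := by linarith
        positivity
      by_cases hre : |z.re| = R
      · have h6 := h2 z hre (by rw [abs_of_nonneg h3.2.1]; exact h3.2.2)
        have h7 : C ≤ B * (Real.cosh (3 * z.re) * Real.cos (3 * z.im - Real.pi / 4)) := by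
          have h8 : Real.cosh (3 * z.re) = Real.cosh (3 * R) := by
            rw [← Real.cosh_abs (3 * z.re), abs_mul, hre]; simp
          rw [h8]
          calc C = B * (Real.cosh (3 * R) * (1 / 2)) := by rw [hB]; field_simp
            _ ≤ B * (Real.cosh (3 * R) * Real.cos (3 * z.im - Real.pi / 4)) := by gcongr
        linarith
      · have hre' : |z.re| < R := lt_of_le_of_ne h3.1 hre
        have hor : z.im = 0 ∨ z.im = Real.pi / 6 := by
          by_contra hcon
          push Not at hcon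
          apply hz.2
          rw [mem_reProdIm]
          exact ⟨abs_lt.1 hre', lt_of_le_of_ne h3.2.1 (Ne.symm hcon.1), lt_of_le_of_ne h3.2.2 hcon.2⟩
        rcases hor with h6 | h6
        · have : z = ((z.re : ℝ) : ℂ) := by apply Complex.ext <;> simp [h6]
          have h7 := h0 z.re h3.1
          rw [← this] at h7
          linarith
        · have : z = ((z.re : ℝ) : ℂ) + sh := by apply Complex.ext <;> simp [h6]
          have h7 := h1 z.re h3.1
          rw [← this] at h7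
          linarith
  rw [hnorm, Real.exp_le_exp] at key
  have h3 : B * (Real.cosh (3 * s.re) * Real.cos (3 * s.im - Real.pi / 4)) ≤ B * (Real.cosh (3 * s.re) * 1) := by
    have := Real.cosh_pos (3 * s.re)
    have := Real.cos_le_one (3 * s.im - Real.pi / 4)
    gcongr
  have h4 : 2 * C * Real.cosh (3 * s.re) / Real.cosh (3 * R) = B * (Real.cosh (3 * s.re) * 1) := by rw [hB]; ring
  rw [h4]
  linarith

/-- `Im v` is small -/
lemma LL.im_v (h : LL K d 1 E) (he : ∀ s, d (-s) = d s) {R : ℝ} (hR : 1 ≤ R) (hK : CE E * W R < K)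
    {s : ℂ} (hs : |s.re| ≤ R) (hs1 : |s.im| ≤ Real.pi / 6) :
    |(vf K d s).im| ≤ 10 * CE E ^ 2 * W R / K + 2 * (16 * CE E) * Real.cosh (3 * s.re) / Real.cosh (3 * R) := by
  have hp := Real.pi_pos
  have hE := h.E_nonneg
  have hC := CE_ge hE
  have hWR := W_pos R
  have hK0 : (0 : ℝ) < K := lt_of_le_of_lt (mul_nonneg (by linarith) hWR.le) hK
  have hWle : ∀ x : ℝ, |x| ≤ R → W x ≤ W R := by
    intro x hx
    unfold W
    have : Real.cosh (3 * x) ≤ Real.cosh (3 * R) := by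
      rw [Real.cosh_le_cosh, abs_mul, abs_mul, abs_of_pos (by linarith : 0 < R)]
      gcongr
    linarith
  have hCW : ∀ x : ℝ, |x| ≤ R → CE E * W x < K := fun x hx =>
    lt_of_le_of_lt (mul_le_mul_of_nonneg_left (hWle x hx) (by linarith)) hK
  -- horizontal line
  have hline : ∀ t : ℝ, |t| ≤ R → |(vf K d (t + sh)).im| ≤ 10 * CE E ^ 2 * W R / K := by
    intro t ht
    have h1 := h.re_w_line t (hCW t ht)
    have h2 := vf_line (K := K) (d := d) t
    have hc := Real.cosh_pos (3 * t)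
    have h3 : |(vf K d (t + sh)).im| * Real.cosh (3 * t) = |(wf K d (t + sh)).re| := by
      rw [← abs_neg (wf K d (t + sh)).re, ← h2, abs_mul, abs_of_pos hc]
    have h4 : W t ≤ 2 * Real.cosh (3 * t) := by
      have := Real.one_le_cosh (3 * t); unfold W; linarith
    have h5 : K * |(vf K d (t + sh)).im| * Real.cosh (3 * t) ≤ 5 * CE E ^ 2 * W t * (2 * Real.cosh (3 * t)) := by
      calc K * |(vf K d (t + sh)).im| * Real.cosh (3 * t) = K * |(wf K d (t + sh)).re| := by rw [← h3]; ring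
        _ ≤ 5 * CE E ^ 2 * W t ^ 2 := h1
        _ = 5 * CE E ^ 2 * W t * W t := by ring
        _ ≤ 5 * CE E ^ 2 * W t * (2 * Real.cosh (3 * t)) := by have := W_pos t; gcongr
    have h6 : K * |(vf K d (t + sh)).im| ≤ 10 * CE E ^ 2 * W t := by
      have : 5 * CE E ^ 2 * W t * (2 * Real.cosh (3 * t)) = 10 * CE E ^ 2 * W t * Real.cosh (3 * t) := by ring
      rw [this] at h5
      exact le_of_mul_le_mul_right h5 hc
    rw [le_div_iff₀ hK0, mul_comm]
    have := hWle t ht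
    calc K * |(vf K d (t + sh)).im| ≤ 10 * CE E ^ 2 * W t := h6
      _ ≤ 10 * CE E ^ 2 * W R := by gcongr
  have hδ : 0 ≤ 10 * CE E ^ 2 * W R / K := by positivity
  have hreal : ∀ t : ℝ, (vf K d t).im = 0 := vf_real h.fe.diff he h.re
  -- vertical sides
  have hside : ∀ z : ℂ, |z.re| = R → |z.im| ≤ Real.pi / 6 → |(vf K d z).im| ≤ 16 * CE E := by
    intro z hz hz2
    have h1 := h.norm_w (s := z) (by linarith) (hCW _ hz.le)
    have h2 := vf_mul (K := K) (d := d) (s := z) (by linarith)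
    have h3 := sinh_norm_ge z
    have h4 : Real.cosh (3 * z.re) = Real.cosh (3 * R) := by
      rw [← Real.cosh_abs (3 * z.re), abs_mul, hz]; simp
    have h5 : |Real.sinh (3 * z.re)| = Real.sinh (3 * R) := by
      rw [Real.abs_sinh, abs_mul, hz]; simp
    have h6 : Real.cosh (3 * R) + 1 ≤ 4 * Real.sinh (3 * R) := by
      have h7 := Real.cosh_sq (3 * R)
      have h8 : 3 ≤ Real.sinh (3 * R) := by
        have := Real.self_le_sinh_iff.2 (show 0 ≤ 3 * R by linarith)
        linarith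
      have h9 := Real.cosh_pos (3 * R)
      nlinarith
    have h7 : ‖vf K d z‖ * Real.sinh (3 * R) ≤ 4 * CE E * W z.re := by
      rw [← h5]
      calc ‖vf K d z‖ * |Real.sinh (3 * z.re)| ≤ ‖vf K d z‖ * ‖Complex.sinh (3 * z)‖ := by gcongr
        _ = ‖wf K d z‖ := by rw [← norm_mul, h2]
        _ ≤ _ := h1
    have h8 : W z.re = 1 + Real.cosh (3 * R) := by rw [W, h4]
    rw [h8] at h7
    have h9 : 0 < Real.sinh (3 * R) := by
      rw [Real.sinh_pos_iff]; linarith
    have h10 : ‖vf K d z‖ * Real.sinh (3 * R) ≤ 16 * CE E * Real.sinh (3 * R) := by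
      refine h7.trans ?_
      nlinarith
    exact (Complex.abs_im_le_norm _).trans (le_of_mul_le_mul_right h10 h9)
  -- reduce to the upper half
  wlog hs0 : 0 ≤ s.im generalizing s
  · have h1 := this (s := (starRingEnd ℂ) s) (by simpa using hs) (by simpa using hs1) (by simp; linarith)
    rw [vf_conj h.fe.diff he h.re (by linarith), conj_im, abs_neg, conj_re] at h1
    exact h1
  have hs1' : s.im ≤ Real.pi / 6 := (le_abs_self _).trans hs1
  have hub := im_rect (v := vf K d) (R := R) (δ := 10 * CE E ^ 2 * W R / K) (C := 16 * CE E) (by linarith)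
    (fun z hz => vf_diff h.fe.diff hz) (fun t _ => by rw [hreal t]; exact hδ) (fun t ht => (le_abs_self _).trans (hline t ht))
    (fun z hz hz2 => (le_abs_self _).trans (hside z hz hz2)) (by linarith) hδ hs hs0 hs1'
  have hlb := im_rect (v := fun z => -vf K d z) (R := R) (δ := 10 * CE E ^ 2 * W R / K) (C := 16 * CE E) (by linarith)
    (fun z hz => (vf_diff h.fe.diff hz).neg) (fun t _ => by rw [neg_im, hreal t, neg_zero]; exact hδ)
    (fun t ht => by rw [neg_im]; exact (neg_le_abs _).trans (hline t ht))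
    (fun z hz hz2 => by rw [neg_im]; exact (neg_le_abs _).trans (hside z hz hz2)) (by linarith) hδ hs hs0 hs1'
  rw [neg_im] at hlb
  exact abs_le.2 ⟨by linarith, hub⟩

/-! ### from the imaginary part to the function -/

/-- Borel-Carathéodory around real points. -/
lemma bc_real {v : ℂ → ℂ} {M x : ℝ} (hM : 0 < M) (hv : ∀ s : ℂ, |s.im| < Real.pi / 3 → DifferentiableAt ℂ v s)
    (hreal : (v x).im = 0) (hb : ∀ s : ℂ, |s.re - x| ≤ 1 → |s.im| ≤ Real.pi / 6 → |(v s).im| ≤ M)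
    {s : ℂ} (hs : ‖s - x‖ < Real.pi / 6) : ‖v s - v x‖ ≤ 2 * M * ‖s - x‖ / (Real.pi / 6 - ‖s - x‖) := by
  have hp := Real.pi_pos
  have hp4 := Real.pi_le_four
  have hin : ∀ w : ℂ, w ∈ ball (0 : ℂ) (Real.pi / 6) → |((x : ℂ) + w).re - x| ≤ 1 ∧ |((x : ℂ) + w).im| ≤ Real.pi / 6 := by
    intro w hw
    rw [mem_ball_zero_iff] at hw
    have h1 := (Complex.abs_re_le_norm w).trans hw.le
    have h2 := (Complex.abs_im_le_norm w).trans hw.le
    simp only [add_re, ofReal_re, add_sub_cancel_left, add_im, ofReal_im, zero_add]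
    exact ⟨by linarith, h2⟩
  have h := Complex.borelCaratheodory_zero (f := fun w => -I * (v (x + w) - v x)) (M := M) (R := Real.pi / 6) (z := s - x) hM
    ?_ ?_ (by positivity) (by rwa [mem_ball_zero_iff]) (by simp)
  · have e : (x : ℂ) + (s - x) = s := by ring
    rw [e, norm_mul, norm_neg, norm_I, one_mul] at h
    exact h
  · intro w hw
    have h1 := hv ((x : ℂ) + w) (by linarith [(hin w hw).2])
    have h2 : DifferentiableAt ℂ (fun w : ℂ => v (x + w)) w := h1.comp w (by fun_prop)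
    exact ((h2.sub_const _).const_mul _).differentiableWithinAt
  · intro w hw
    simp only [mem_ofPred_eq]
    have h1 := hin w hw
    have h2 : (-I * (v (x + w) - v x)).re = (v (x + w)).im := by
      simp [hreal]
    rw [h2]
    exact (le_abs_self _).trans (hb _ h1.1 h1.2)

/-- a bound for `v` on the real axis -/
lemma bc_axis {v : ℂ → ℂ} {M R : ℝ} (hM : 0 < M) (hv : ∀ s : ℂ, |s.im| < Real.pi / 3 → DifferentiableAt ℂ v s)
    (hreal : ∀ x : ℝ, (v x).im = 0) (hv0 : v 0 = 0) (hb : ∀ s : ℂ, |s.re| ≤ R + 1 → |s.im| ≤ Real.pi / 6 → |(v s).im| ≤ M)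
    {x : ℝ} (hx : |x| ≤ R) : ‖v x‖ ≤ 8 * M * |x| := by
  have hp := Real.pi_pos
  have hp3 := Real.pi_gt_three
  have hp4 := Real.pi_le_four
  have hder : ∀ y : ℝ, |y| ≤ R → ‖deriv v y‖ ≤ 8 * M := by
    intro y hy
    have h1 : ‖deriv v y‖ ≤ 2 * M / (Real.pi / 12) := by
      have h2 : deriv (fun z => v z - v y) (y : ℂ) = deriv v y := by
        rw [deriv_sub_const]
      rw [← h2]
      refine Complex.norm_deriv_le_of_forall_mem_sphere_norm_le (by positivity) ?_ ?_
      · refine DifferentiableOn.diffContOnCl fun z hz => ?_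
        rw [closure_ball _ (by positivity), mem_closedBall_iff_norm] at hz
        have h3 := (Complex.abs_im_le_norm (z - y)).trans hz
        rw [Complex.sub_im, ofReal_im, sub_zero] at h3
        exact ((hv z (by linarith)).sub_const _).differentiableWithinAt
      · intro z hz
        rw [mem_sphere_iff_norm] at hz
        have h3 := bc_real (v := v) (M := M) (x := y) hM hv (hreal y)
          (fun s hs hs2 => hb s (by
            have h4 : |s.re| ≤ |s.re - y| + |y| := by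
              have : s.re = (s.re - y) + y := by ring
              conv_lhs => rw [this]
              exact abs_add_le _ _
            linarith) hs2) (s := z) (by rw [hz]; linarith)
        rw [hz] at h3
        refine h3.trans (le_of_eq ?_)
        field_simp
        ring
    refine h1.trans ?_
    rw [div_le_iff₀ (by positivity)]
    nlinarith
  have hconv : Convex ℝ {z : ℂ | z.im = 0 ∧ |z.re| ≤ R} := by
    intro z hz w hw a b ha hb' hab
    refine ⟨?_, ?_⟩
    · simp [hz.1, hw.1]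
    · have : (a • z + b • w).re = a * z.re + b * w.re := by simp
      rw [this]
      calc |a * z.re + b * w.re| ≤ |a * z.re| + |b * w.re| := abs_add_le _ _
        _ = a * |z.re| + b * |w.re| := by rw [abs_mul, abs_mul, abs_of_nonneg ha, abs_of_nonneg hb']
        _ ≤ a * R + b * R := by gcongr; exacts [hz.2, hw.2]
        _ = R := by rw [← add_mul, hab, one_mul]
  have hR : 0 ≤ R := (abs_nonneg x).trans hx
  have h := hconv.norm_image_sub_le_of_norm_hasDerivWithin_le (f := v) (f' := deriv v) (C := 8 * M) (x := 0) (y := (x : ℂ))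
    (fun z hz => (hv z (by rw [hz.1, abs_zero]; positivity)).hasDerivAt.hasDerivWithinAt) (fun z hz => ?_)
    ⟨by simp, by simpa using hR⟩ ⟨by simp, by simpa using hx⟩
  · rw [hv0, sub_zero, sub_zero, Complex.norm_real, Real.norm_eq_abs] at h
    exact h
  · have : z = ((z.re : ℝ) : ℂ) := by apply Complex.ext <;> simp [hz.1]
    rw [this]
    exact hder _ hz.2

/-- **Lower zone.** -/
lemma lower_zone {E R₀ η ε : ℝ} (hE : 0 ≤ E) (hR₀ : 0 ≤ R₀) (hη : 0 < η) (hε : 0 < ε) :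
    ∃ K₀ : ℕ, ∀ (K : ℕ) (d : ℂ → ℂ), K₀ ≤ K → LL K d 1 E → (∀ s, d (-s) = d s) →
      ∀ s : ℂ, |s.re| ≤ R₀ → |s.im| ≤ Real.pi / 6 - η → ‖wf K d s‖ ≤ ε := by
  have hp := Real.pi_pos
  have hp4 := Real.pi_le_four
  have hC := CE_ge hE
  -- choice of `M`
  set Q : ℝ := (8 * R₀ + 2 / η) * Real.cosh (3 * R₀) + 1 with hQ
  have hc0 := Real.cosh_pos (3 * R₀)
  have hQ0 : 0 < Q := by positivity
  set M : ℝ := ε / Q with hM
  have hM0 : 0 < M := by positivity
  -- choice of `R`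
  obtain ⟨R, hR1, hR2⟩ : ∃ R : ℝ, R₀ + 2 ≤ R ∧ 2 * (16 * CE E) * Real.cosh (3 * (R₀ + 1)) / Real.cosh (3 * R) ≤ M / 2 := by
    set A : ℝ := 2 * (16 * CE E) * Real.cosh (3 * (R₀ + 1)) with hA
    have hA0 : 0 < A := by have := Real.cosh_pos (3 * (R₀ + 1)); positivity
    refine ⟨max (R₀ + 2) (2 * A / M), le_max_left _ _, ?_⟩
    set R := max (R₀ + 2) (2 * A / M)
    have h1 : 2 * A / M ≤ R := le_max_right _ _
    have h2 : R ≤ Real.cosh (3 * R) := by
      have hRn : 0 ≤ R := le_trans (by linarith) (le_max_left (R₀ + 2) (2 * A / M))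
      have h3 : 3 * R ≤ Real.sinh (3 * R) := Real.self_le_sinh_iff.2 (by linarith)
      have h4 := Real.sinh_lt_cosh (3 * R)
      linarith
    rw [div_le_iff₀ (Real.cosh_pos _)]
    have h5 : 2 * A / M * M = 2 * A := by field_simp
    have h6 : 2 * A / M * M ≤ Real.cosh (3 * R) * M := mul_le_mul_of_nonneg_right (h1.trans h2) hM0.le
    linarith
  have hWR := W_pos R
  obtain ⟨K₀, hK₀⟩ := exists_nat_gt (max (CE E * W R) (20 * CE E ^ 2 * W R / M))
  refine ⟨K₀, fun K d hK h he s hs1 hs2 => ?_⟩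
  have hKr : (K₀ : ℝ) ≤ K := by exact_mod_cast hK
  have hK1 : CE E * W R < K := lt_of_lt_of_le (lt_of_le_of_lt (le_max_left _ _) hK₀) hKr
  have hK2 : 20 * CE E ^ 2 * W R / M < K := lt_of_lt_of_le (lt_of_le_of_lt (le_max_right _ _) hK₀) hKr
  have hK0 : (0 : ℝ) < K := lt_of_le_of_lt (by positivity) hK1
  have him : ∀ z : ℂ, |z.re| ≤ R₀ + 1 → |z.im| ≤ Real.pi / 6 → |(vf K d z).im| ≤ M := by
    intro z hz1 hz2
    have h1 := h.im_v he (R := R) (by linarith) hK1 (s := z) (by linarith) hz2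
    have h2 : 10 * CE E ^ 2 * W R / K ≤ M / 2 := by
      rw [div_lt_iff₀ hM0] at hK2
      rw [div_le_iff₀ hK0]
      linarith
    have h3 : 2 * (16 * CE E) * Real.cosh (3 * z.re) / Real.cosh (3 * R) ≤ M / 2 := by
      refine le_trans ?_ hR2
      have h4 : Real.cosh (3 * z.re) ≤ Real.cosh (3 * (R₀ + 1)) := by
        rw [Real.cosh_le_cosh, abs_mul, abs_mul, abs_of_pos (by linarith : 0 < R₀ + 1)]
        gcongr
      have := Real.cosh_pos (3 * R)
      gcongr
    linarith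
  have hvd : ∀ z : ℂ, |z.im| < Real.pi / 3 → DifferentiableAt ℂ (vf K d) z := fun z hz => vf_diff h.fe.diff hz
  have hvr : ∀ t : ℝ, (vf K d t).im = 0 := vf_real h.fe.diff he h.re
  have hv0 := vf_zero (K := K) h.fe.diff he
  have h1 := bc_axis (v := vf K d) (M := M) (R := R₀) hM0 hvd hvr hv0 him (x := s.re) hs1
  have hsn : ‖s - (s.re : ℂ)‖ = |s.im| := by
    have : s - (s.re : ℂ) = ((s.im : ℝ) : ℂ) * I := by apply Complex.ext <;> simp
    rw [this, norm_mul, norm_I, mul_one, Complex.norm_real, Real.norm_eq_abs]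
  have h2 := bc_real (v := vf K d) (M := M) (x := s.re) hM0 hvd (hvr _) (fun z hz hz2 => him z (by
      have h4 : |z.re| ≤ |z.re - s.re| + |s.re| := by
        have : z.re = (z.re - s.re) + s.re := by ring
        conv_lhs => rw [this]
        exact abs_add_le _ _
      linarith) hz2) (s := s) (by rw [hsn]; linarith)
  rw [hsn] at h2
  have h3 : 2 * M * |s.im| / (Real.pi / 6 - |s.im|) ≤ 2 / η * M := by
    rw [div_mul_eq_mul_div, div_le_div_iff₀ (by linarith) hη]
    have h4 : |s.im| ≤ 1 := by linarith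
    have h5 : η ≤ Real.pi / 6 - |s.im| := by linarith
    have h6 := abs_nonneg s.im
    calc 2 * M * |s.im| * η ≤ 2 * M * 1 * η := by gcongr
      _ ≤ 2 * M * (Real.pi / 6 - |s.im|) := by rw [mul_one]; gcongr
  have h4 : ‖vf K d s‖ ≤ M * (8 * R₀ + 2 / η) := by
    have h5 : ‖vf K d s‖ ≤ ‖vf K d s - vf K d s.re‖ + ‖vf K d s.re‖ := by
      have : vf K d s = (vf K d s - vf K d s.re) + vf K d s.re := by ring
      conv_lhs => rw [this]
      exact norm_add_le _ _
    have h6 : 8 * M * |s.re| ≤ 8 * M * R₀ := by gcongr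
    linarith
  have h5 : ‖Complex.sinh (3 * s)‖ ≤ Real.cosh (3 * R₀) := by
    have h6 : ‖Complex.sinh (3 * s)‖ ≤ Real.cosh (3 * s.re) := by
      apply le_of_sq_le_sq _ (Real.cosh_pos _).le
      rw [normSq_sinh, Real.cosh_sq]
      have : (3 * s).re = 3 * s.re := by simp
      rw [this]
      linarith [Real.sin_sq_le_one (3 * s).im]
    refine h6.trans ?_
    rw [Real.cosh_le_cosh, abs_mul, abs_mul, abs_of_nonneg hR₀]
    gcongr
  rw [← vf_mul (K := K) (d := d) (s := s) (by linarith), norm_mul]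
  calc ‖vf K d s‖ * ‖Complex.sinh (3 * s)‖ ≤ M * (8 * R₀ + 2 / η) * Real.cosh (3 * R₀) := by gcongr
    _ ≤ M * Q := by rw [hQ, mul_assoc]; gcongr; linarith
    _ = ε := by rw [hM]; field_simp

/-- **Upper zone.** -/
lemma upper_zone {E R₀ η ε : ℝ} (hE : 0 ≤ E) (hR₀ : 0 ≤ R₀) (hη : 0 < η) (hε : 0 < ε) :
    ∃ K₀ : ℕ, ∀ (K : ℕ) (d : ℂ → ℂ), K₀ ≤ K → LL K d 1 E → (∀ s, d (-s) = d s) →
      ∀ s : ℂ, |s.re| ≤ R₀ → Real.pi / 6 + η ≤ s.im → s.im ≤ Real.pi / 4 → ‖wf K d s‖ ≤ ε := by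
  have hp := Real.pi_pos
  have hp4 := Real.pi_le_four
  have hC := CE_ge hE
  have hW0 := W_pos R₀
  obtain ⟨K₁, hK₁⟩ := lower_zone hE hR₀ hη (show 0 < ε / 2 by linarith)
  obtain ⟨K₀, hK₀⟩ := exists_nat_gt (max (6 * CE E * W R₀) (40 * CE E ^ 2 * W R₀ ^ 2 / ε))
  refine ⟨max K₀ K₁, fun K d hK h he s hs1 hs2 hs3 => ?_⟩
  have hKr : (K₀ : ℝ) ≤ K := by exact_mod_cast (le_max_left _ _).trans hK
  have hK6 : 6 * CE E * W R₀ < K := lt_of_lt_of_le (lt_of_le_of_lt (le_max_left _ _) hK₀) hKr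
  have hK1 : CE E * W R₀ < K := by nlinarith [mul_pos (show 0 < CE E by linarith) hW0]
  have hK2 : 40 * CE E ^ 2 * W R₀ ^ 2 / ε < K := lt_of_lt_of_le (lt_of_le_of_lt (le_max_right _ _) hK₀) hKr
  have hK0 : (0 : ℝ) < K := lt_of_le_of_lt (by positivity) hK1
  have hWle : W s.re ≤ W R₀ := by
    unfold W
    have : Real.cosh (3 * s.re) ≤ Real.cosh (3 * R₀) := by
      rw [Real.cosh_le_cosh, abs_mul, abs_mul, abs_of_nonneg hR₀]
      gcongr
    linarith
  have hWs := W_pos s.re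
  have hKs : CE E * W s.re < K := lt_of_le_of_lt (mul_le_mul_of_nonneg_left hWle (by linarith)) hK1
  have hKn2 : 2 ≤ K := by
    have : (2 : ℝ) ≤ K := by nlinarith [W_ge R₀]
    exact_mod_cast this
  set s' : ℂ := s - 2 * sh with hs'
  have hs're : s'.re = s.re := by simp [hs']
  have hs'im : s'.im = s.im - Real.pi / 3 := by simp [hs']; ring
  set p : ℂ := s - sh with hpdef
  have hpre : p.re = s.re := by simp [hpdef]
  have hpim : p.im = s.im - Real.pi / 6 := by simp [hpdef]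
  have h1 := hK₁ K d ((le_max_right _ _).trans hK) h he s' (by rw [hs're]; exact hs1) (by rw [hs'im, abs_le]; constructor <;> linarith)
  have h2 := h.near (s := s') (by rw [hs'im, abs_le]; constructor <;> linarith) (by rw [hs're]; exact hKs)
  have h3 := h.y_small2 hKn2 (s := p) (by rw [hpim, abs_le]; constructor <;> linarith)
  rw [ofReal_one, hs're] at h2
  rw [hpre] at h3
  have hprod : d s * d s' = 1 + yf d p := yf_apply_sub d s
  -- lower bound for `d s'`
  have h4 : ‖1 - d s'‖ ≤ 1 / 2 := by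
    have h5 : K * ‖1 - d s'‖ ≤ 3 * CE E * W R₀ := h2.trans (by gcongr)
    by_contra hcon
    push Not at hcon
    nlinarith
  have h6 : 1 / 2 ≤ ‖d s'‖ := by
    have : ‖(1 : ℂ)‖ ≤ ‖(1 : ℂ) - d s'‖ + ‖d s'‖ := by
      have e : (1 : ℂ) = (1 - d s') + d s' := by ring
      conv_lhs => rw [e]
      exact norm_add_le _ _
    rw [norm_one] at this
    linarith
  have hcosh : Complex.cosh (3 * s) = -Complex.cosh (3 * s') := by
    have e : 3 * s = 3 * s' + Real.pi * I := by
      rw [hs', sh]; push_cast; ring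
    rw [e, Complex.cosh_add, Complex.cosh_mul_I, Complex.sinh_mul_I, Complex.cos_pi, Complex.sin_pi]
    ring
  have hsum : (wf K d s + wf K d s') * d s' = -(K * ((1 - d s') ^ 2 + yf d p)) := by
    rw [wf, wf, hcosh]
    linear_combination (-(K : ℂ)) * hprod
  have h7 : ‖wf K d s + wf K d s'‖ ≤ ε / 2 := by
    have h8 : ‖wf K d s + wf K d s'‖ * ‖d s'‖ ≤ K * (‖1 - d s'‖ ^ 2 + ‖yf d p‖) := by
      rw [← norm_mul, hsum, norm_neg, norm_mul, Complex.norm_natCast]
      gcongr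
      refine (norm_add_le _ _).trans ?_
      rw [norm_pow]
    have h9 : ‖wf K d s + wf K d s'‖ ≤ 2 * (K * (‖1 - d s'‖ ^ 2 + ‖yf d p‖)) := by
      nlinarith [norm_nonneg (wf K d s + wf K d s')]
    refine h9.trans ?_
    have h10 : (K * ‖1 - d s'‖) ^ 2 ≤ (3 * CE E * W s.re) ^ 2 := pow_le_pow_left₀ (by positivity) h2 2
    have h11 : K * (2 * (K * (‖1 - d s'‖ ^ 2 + ‖yf d p‖))) ≤ 20 * CE E ^ 2 * W R₀ ^ 2 := by
      calc K * (2 * (K * (‖1 - d s'‖ ^ 2 + ‖yf d p‖))) = 2 * ((K * ‖1 - d s'‖) ^ 2 + K ^ 2 * ‖yf d p‖) := by ring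
        _ ≤ 2 * ((3 * CE E * W s.re) ^ 2 + 48 * W s.re ^ 2) := by gcongr
        _ = (18 * CE E ^ 2 + 96) * W s.re ^ 2 := by ring
        _ ≤ (20 * CE E ^ 2) * W s.re ^ 2 := by
          gcongr
          nlinarith
        _ ≤ 20 * CE E ^ 2 * W R₀ ^ 2 := by gcongr
    have h12 : 20 * CE E ^ 2 * W R₀ ^ 2 ≤ K * (ε / 2) := by
      rw [div_lt_iff₀ hε] at hK2
      linarith
    exact le_of_mul_le_mul_left (h11.trans h12) hK0
  have h13 : ‖wf K d s‖ ≤ ‖wf K d s + wf K d s'‖ + ‖wf K d s'‖ := by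
    have : wf K d s = (wf K d s + wf K d s') - wf K d s' := by ring
    conv_lhs => rw [this]
    exact norm_sub_le _ _
  linarith

/-- **Theorem (A3)(i).** `K (1 - d s) - K (1 - d 0) cosh (3 s) → 0` uniformly for `|Re s| ≤ R₀`, `|Im s| ≤ π/4`. -/
theorem limit_i {E R₀ ε : ℝ} (hE : 0 ≤ E) (hR₀ : 0 ≤ R₀) (hε : 0 < ε) :
    ∃ K₀ : ℕ, ∀ (K : ℕ) (d : ℂ → ℂ), K₀ ≤ K → LL K d 1 E → (∀ s, d (-s) = d s) →
      ∀ s : ℂ, |s.re| ≤ R₀ → |s.im| ≤ Real.pi / 4 → ‖wf K d s‖ ≤ ε := by
  have hp := Real.pi_pos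
  have hp3 := Real.pi_gt_three
  have hp4 := Real.pi_le_four
  have hC := CE_ge hE
  have hW1 := W_pos (R₀ + 1)
  set C₂ : ℝ := 4 * CE E * W (R₀ + 1) with hC₂
  have hC₂0 : 0 < C₂ := by positivity
  set η : ℝ := min (ε / (44 * C₂)) (Real.pi / 48) with hη
  have hη0 : 0 < η := lt_min (by positivity) (by positivity)
  have hη1 : η ≤ Real.pi / 48 := min_le_right _ _
  have hη2 : 44 * C₂ * η ≤ ε := by
    have : η ≤ ε / (44 * C₂) := min_le_left _ _
    rw [le_div_iff₀ (by positivity)] at this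
    linarith
  obtain ⟨K₁, hK₁⟩ := lower_zone hE (show 0 ≤ R₀ + 1 by linarith) hη0 (show 0 < ε / 44 by linarith)
  obtain ⟨K₂, hK₂⟩ := upper_zone hE (show 0 ≤ R₀ + 1 by linarith) hη0 (show 0 < ε / 44 by linarith)
  obtain ⟨K₀, hK₀⟩ := exists_nat_gt (CE E * W (R₀ + 1))
  refine ⟨max K₀ (max K₁ K₂), fun K d hK h he s hs1 hs2 => ?_⟩
  have hKr : (K₀ : ℝ) ≤ K := by exact_mod_cast (le_max_left _ _).trans hK
  have hK1' : K₁ ≤ K := (le_max_left _ _).trans ((le_max_right _ _).trans hK)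
  have hK2' : K₂ ≤ K := (le_max_right _ _).trans ((le_max_right _ _).trans hK)
  have hK1 : CE E * W (R₀ + 1) < K := lt_of_lt_of_le hK₀ hKr
  -- reduce to the upper half
  wlog hs0 : 0 ≤ s.im generalizing s
  · have h1 := this (s := (starRingEnd ℂ) s) (by simpa using hs1) (by simpa using hs2) (by simp; linarith)
    rwa [wf_conj h.re (by linarith), Complex.norm_conj] at h1
  rw [abs_of_nonneg hs0] at hs2
  rcases le_total s.im (Real.pi / 6 - η) with hz | hz
  · exact (hK₁ K d hK1' h he s (by linarith) (by rw [abs_of_nonneg hs0]; exact hz)).trans (by linarith)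
  rcases le_total (Real.pi / 6 + η) s.im with hz2 | hz2
  · exact (hK₂ K d hK2' h he s (by linarith) hz2 hs2).trans (by linarith)
  -- near the line: circle trick
  set c : ℂ := (s.re : ℂ) + sh with hc
  have hcre : c.re = s.re := by simp [hc]
  have hcim : c.im = Real.pi / 6 := by simp [hc]
  have hin : ∀ w : ℂ, ‖w - c‖ ≤ Real.pi / 24 → Real.pi / 8 ≤ w.im ∧ w.im ≤ 5 * Real.pi / 24 ∧ |w.re| ≤ R₀ + 1 := by
    intro w hw
    have h1 := (Complex.abs_im_le_norm (w - c)).trans hw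
    have h2 := (Complex.abs_re_le_norm (w - c)).trans hw
    rw [Complex.sub_im, hcim] at h1
    rw [Complex.sub_re, hcre] at h2
    have h1' := abs_le.1 h1
    refine ⟨by linarith, by linarith, ?_⟩
    have : |w.re| ≤ |w.re - s.re| + |s.re| := by
      have : w.re = (w.re - s.re) + s.re := by ring
      conv_lhs => rw [this]
      exact abs_add_le _ _
    linarith
  have hscn : ‖s - c‖ ≤ Real.pi / 24 / 2 := by
    have e : s - c = ((s.im - Real.pi / 6 : ℝ) : ℂ) * I := by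
      apply Complex.ext <;> simp [hc]
    rw [e, norm_mul, norm_I, mul_one, Complex.norm_real, Real.norm_eq_abs, abs_le]
    constructor <;> linarith
  have key := circ (f := wf K d) (c := c) (r := Real.pi / 24) (A := ε / 44 * (Real.pi / 24) + C₂ * η) (m := 1) one_ne_zero
    (by positivity) ?_ (by positivity) ?_ hscn
  · refine key.trans ?_
    rw [pow_one]
    have h1 : 8 / (3 * (Real.pi / 24)) ≤ 22 := by
      rw [div_le_iff₀ (by positivity)]; nlinarith
    have h2 : ε / 44 * (Real.pi / 24) + C₂ * η ≤ ε / 44 * (1 / 2) + ε / 44 := by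
      have : ε / 44 * (Real.pi / 24) ≤ ε / 44 * (1 / 2) := mul_le_mul_of_nonneg_left (by linarith) (by positivity)
      nlinarith
    calc (ε / 44 * (Real.pi / 24) + C₂ * η) * (8 / (3 * (Real.pi / 24))) ≤ (ε / 44 * (1 / 2) + ε / 44) * 22 := by gcongr
      _ ≤ ε := by linarith
  · refine DifferentiableOn.diffContOnCl fun w hw => ?_
    rw [closure_ball _ (by positivity), mem_closedBall_iff_norm] at hw
    have h1 := hin w hw
    exact (wf_diff h.fe.diff (by rw [abs_lt]; constructor <;> linarith [h1.1, h1.2.1])).differentiableWithinAt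
  · intro w hw _
    have h1 := hin w hw.le
    have h2 : |(w - c).im| ≤ Real.pi / 24 := (Complex.abs_im_le_norm (w - c)).trans hw.le
    rw [pow_one]
    rw [Complex.sub_im, hcim] at *
    by_cases hfar : η ≤ |w.im - Real.pi / 6|
    · have h3 : ‖wf K d w‖ ≤ ε / 44 := by
        rcases le_total w.im (Real.pi / 6) with hl | hl
        · rw [abs_of_nonpos (by linarith)] at hfar
          exact hK₁ K d hK1' h he w h1.2.2 (by rw [abs_of_nonneg (by linarith [h1.1])]; linarith)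
        · rw [abs_of_nonneg (by linarith)] at hfar
          exact hK₂ K d hK2' h he w h1.2.2 (by linarith) (by linarith [h1.2.1])
      calc ‖wf K d w‖ * |w.im - Real.pi / 6| ≤ ε / 44 * (Real.pi / 24) := by gcongr
        _ ≤ ε / 44 * (Real.pi / 24) + C₂ * η := by have := mul_pos hC₂0 hη0; linarith
    · push Not at hfar
      have hWw : W w.re ≤ W (R₀ + 1) := by
        unfold W
        have : Real.cosh (3 * w.re) ≤ Real.cosh (3 * (R₀ + 1)) := by
          rw [Real.cosh_le_cosh, abs_mul, abs_mul, abs_of_pos (by linarith : 0 < R₀ + 1)]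
          exact mul_le_mul_of_nonneg_left h1.2.2 (abs_nonneg _)
        linarith
      have h3 := h.norm_w (s := w) (by rw [abs_le]; constructor <;> linarith [h1.1, h1.2.1])
        (lt_of_le_of_lt (mul_le_mul_of_nonneg_left hWw (by linarith)) hK1)
      have h4 : ‖wf K d w‖ ≤ C₂ := h3.trans (by rw [hC₂]; gcongr)
      calc ‖wf K d w‖ * |w.im - Real.pi / 6| ≤ C₂ * η := by gcongr
        _ ≤ ε / 44 * (Real.pi / 24) + C₂ * η := by have : 0 ≤ ε / 44 * (Real.pi / 24) := by positivity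
                                                   linarith

end Ann
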