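import Mathlib

/-!
# Tools from complex analysis: circle trick, logarithmic derivatives
-/

set_option autoImplicit false

namespace Ann

open Complex Set Filter Topology Metric

/-- On the circle `|w| = r` we have `|w² - r²| = 2 r |Im w|`. -/
lemma norm_sq_sub {w : ℂ} {r : ℝ} (hw : ‖w‖ = r) : ‖w ^ 2 - (r : ℂ) ^ 2‖ = 2 * r * |w.im| := by
  have h1 : (r : ℂ) ^ 2 = w * (starRingEnd ℂ) w := by
    rw [Complex.mul_conj, Complex.normSq_eq_norm_sq, hw]; push_cast; ring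
  have h2 : w ^ 2 - (r : ℂ) ^ 2 = w * (2 * w.im * I) := by
    rw [h1]
    have : w - (starRingEnd ℂ) w = 2 * w.im * I := by
      apply Complex.ext <;> simp; ring
    linear_combination w * this
  rw [h2, norm_mul, norm_mul, norm_mul, norm_I, hw, Complex.norm_real, Real.norm_eq_abs]
  simp
  ring

/-- **Circle trick.** A bound `A/|Im(z-c)|^m` on the circle gives a bound inside. -/
lemma circ {f : ℂ → ℂ} {c : ℂ} {r A : ℝ} {m : ℕ} (hm : m ≠ 0) (hr : 0 < r) (hf : DiffContOnCl ℂ f (ball c r))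
    (hA : 0 ≤ A) (hb : ∀ z : ℂ, ‖z - c‖ = r → (z - c).im ≠ 0 → ‖f z‖ * |(z - c).im| ^ m ≤ A) {z : ℂ} (hz : ‖z - c‖ ≤ r / 2) :
    ‖f z‖ ≤ A * (8 / (3 * r)) ^ m := by
  have h1 : ‖f z * ((z - c) ^ 2 - (r : ℂ) ^ 2) ^ m‖ ≤ A * (2 * r) ^ m := by
    refine Complex.norm_le_of_forall_mem_frontier_norm_le (f := fun z => f z * ((z - c) ^ 2 - (r : ℂ) ^ 2) ^ m)
      isBounded_ball (U := ball c r) ?_ ?_ ?_
    · refine ⟨hf.1.mul (by fun_prop), hf.2.mul (by fun_prop)⟩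
    · intro w hw
      rw [frontier_ball c hr.ne', mem_sphere_iff_norm] at hw
      simp only [norm_mul, norm_pow]
      rw [norm_sq_sub hw, mul_pow]
      by_cases h0 : (w - c).im = 0
      · rw [h0, abs_zero, zero_pow hm, mul_zero, mul_zero]; positivity
      · have := hb w hw h0
        calc ‖f w‖ * ((2 * r) ^ m * |(w - c).im| ^ m) = (‖f w‖ * |(w - c).im| ^ m) * (2 * r) ^ m := by ring
          _ ≤ A * (2 * r) ^ m := by gcongr
    · exact subset_closure (by rw [mem_ball_iff_norm]; linarith)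
  rw [norm_mul, norm_pow] at h1
  have h2 : 3 * r ^ 2 / 4 ≤ ‖(z - c) ^ 2 - (r : ℂ) ^ 2‖ := by
    have e : (r : ℂ) ^ 2 = (z - c) ^ 2 - ((z - c) ^ 2 - (r : ℂ) ^ 2) := by ring
    have h3 : r ^ 2 ≤ ‖z - c‖ ^ 2 + ‖(z - c) ^ 2 - (r : ℂ) ^ 2‖ := by
      calc r ^ 2 = ‖(r : ℂ) ^ 2‖ := by rw [norm_pow, Complex.norm_real, Real.norm_of_nonneg hr.le]
        _ = ‖(z - c) ^ 2 - ((z - c) ^ 2 - (r : ℂ) ^ 2)‖ := by rw [← e]
        _ ≤ ‖(z - c) ^ 2‖ + ‖(z - c) ^ 2 - (r : ℂ) ^ 2‖ := norm_sub_le _ _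
        _ = ‖z - c‖ ^ 2 + ‖(z - c) ^ 2 - (r : ℂ) ^ 2‖ := by rw [norm_pow]
    have h4 : ‖z - c‖ ^ 2 ≤ (r / 2) ^ 2 := pow_le_pow_left₀ (norm_nonneg _) hz 2
    nlinarith
  have h5 : ‖f z‖ * (3 * r ^ 2 / 4) ^ m ≤ A * (2 * r) ^ m :=
    (mul_le_mul_of_nonneg_left (pow_le_pow_left₀ (by positivity) h2 m) (norm_nonneg _)).trans h1
  have h6 : (3 * r ^ 2 / 4) ^ m * (8 / (3 * r)) ^ m = (2 * r) ^ m := by
    rw [← mul_pow]; congr 1; field_simp; ring
  have h7 : 0 < (3 * r ^ 2 / 4) ^ m := by positivity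
  rw [← h6, ← mul_assoc, mul_right_comm] at h5
  exact le_of_mul_le_mul_right h5 h7

/-- logarithm of a nonvanishing function on a ball -/
lemma exists_log {f : ℂ → ℂ} {c : ℂ} {ρ : ℝ} (hρ : 0 < ρ) (hf : DifferentiableOn ℂ f (ball c ρ))
    (hne : ∀ z ∈ ball c ρ, f z ≠ 0) :
    ∃ l : ℂ → ℂ, l c = 0 ∧ (∀ z ∈ ball c ρ, HasDerivAt l (deriv f z / f z) z) ∧
      ∀ z ∈ ball c ρ, f z = f c * Complex.exp (l z) := by
  have h1 : DifferentiableOn ℂ (fun z => deriv f z / f z) (ball c ρ) := (hf.deriv isOpen_ball).div hf hne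
  obtain ⟨l, hl0, hl⟩ := h1.isExactOn_ball.with_val_at c 0
  refine ⟨l, hl0, hl, fun z hz => ?_⟩
  have hd : ∀ w ∈ ball c ρ, HasDerivAt (fun w => f w * Complex.exp (-l w)) 0 w := by
    intro w hw
    have h2 : HasDerivAt f (deriv f w) w := (hf.differentiableAt (isOpen_ball.mem_nhds hw)).hasDerivAt
    have h3 : HasDerivAt (fun w => f w * Complex.exp (-l w))
        (deriv f w * Complex.exp (-l w) + f w * (Complex.exp (-l w) * -(deriv f w / f w))) w := h2.mul (hl w hw).neg.cexp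
    have e : f w * (deriv f w / f w) = deriv f w := mul_div_cancel₀ _ (hne w hw)
    have e2 : deriv f w * Complex.exp (-l w) + f w * (Complex.exp (-l w) * -(deriv f w / f w)) = 0 := by
      linear_combination (-Complex.exp (-l w)) * e
    rwa [e2] at h3
  have hc : f z * Complex.exp (-l z) = f c * Complex.exp (-l c) := by
    refine isOpen_ball.is_const_of_deriv_eq_zero (convex_ball c ρ).isPreconnected
      (f := fun w => f w * Complex.exp (-l w)) (s := ball c ρ) ?_ ?_ hz (mem_ball_self hρ)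
    · exact fun w hw => (hd w hw).differentiableAt.differentiableWithinAt
    · exact fun w hw => (hd w hw).deriv
  rw [hl0, neg_zero, Complex.exp_zero, mul_one] at hc
  rw [← hc, mul_assoc, ← Complex.exp_add, neg_add_cancel, Complex.exp_zero, mul_one]

/-- Borel-Carathéodory for the logarithm. -/
lemma log_bound {f : ℂ → ℂ} {c : ℂ} {ρ M B : ℝ} (hρ : 0 < ρ)
    (hne : ∀ z ∈ ball c ρ, f z ≠ 0) (hb : ∀ z ∈ ball c ρ, ‖f z‖ ≤ B) (hM : 0 < M) (hBM : B ≤ ‖f c‖ * Real.exp M)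
    {l : ℂ → ℂ} (hl0 : l c = 0) (hl : ∀ z ∈ ball c ρ, HasDerivAt l (deriv f z / f z) z)
    (hl2 : ∀ z ∈ ball c ρ, f z = f c * Complex.exp (l z)) {z : ℂ} (hz : z ∈ ball c ρ) :
    ‖l z‖ ≤ 2 * M * ‖z - c‖ / (ρ - ‖z - c‖) := by
  have hc : 0 < ‖f c‖ := norm_pos_iff.2 (hne c (mem_ball_self hρ))
  have hsh : ∀ w ∈ ball (0 : ℂ) ρ, c + w ∈ ball c ρ := by
    intro w hw; rw [mem_ball_iff_norm] at *; simpa using hw
  have h := Complex.borelCaratheodory_zero (f := fun w => l (c + w)) (M := M) (R := ρ) (z := z - c) hM ?_ ?_ hρ ?_ (by simp [hl0])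
  · simpa using h
  · intro w hw
    have h1 := hl (c + w) (hsh w hw)
    exact ((h1.differentiableAt).comp w (by fun_prop)).differentiableWithinAt
  · intro w hw
    simp only [mem_ofPred_eq]
    have h1 := hsh w hw
    have h2 : ‖f (c + w)‖ = ‖f c‖ * Real.exp ((l (c + w)).re) := by
      conv_lhs => rw [hl2 _ h1]
      rw [norm_mul, Complex.norm_exp]
    have h3 := hb _ h1
    rw [h2] at h3
    have h4 := le_of_mul_le_mul_left (h3.trans hBM) hc
    exact Real.exp_le_exp.1 h4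
  · rw [mem_ball_zero_iff]; rwa [mem_ball_iff_norm] at hz

/-- **Bound for the logarithmic derivative** of a nonvanishing bounded function on a ball. -/
lemma logDeriv_bound {f : ℂ → ℂ} {c : ℂ} {ρ M B : ℝ} (hρ : 0 < ρ) (hf : DifferentiableOn ℂ f (ball c ρ))
    (hne : ∀ z ∈ ball c ρ, f z ≠ 0) (hb : ∀ z ∈ ball c ρ, ‖f z‖ ≤ B) (hM : 0 < M) (hBM : B ≤ ‖f c‖ * Real.exp M)
    {z : ℂ} (hz : z ∈ ball c ρ) : ‖deriv f z / f z‖ ≤ 8 * M * ρ / (ρ - ‖z - c‖) ^ 2 := by
  obtain ⟨l, hl0, hl, hl2⟩ := exists_log hρ hf hne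
  have hz' := mem_ball_iff_norm.1 hz
  set η := ρ - ‖z - c‖ with hη
  have hη0 : 0 < η := by linarith
  have hsub : closedBall z (η / 2) ⊆ ball c ρ := by
    intro w hw
    rw [mem_closedBall_iff_norm] at hw
    rw [mem_ball_iff_norm]
    have : w - c = (w - z) + (z - c) := by ring
    rw [this]
    have := norm_add_le (w - z) (z - c)
    linarith
  have h1 : ‖deriv l z‖ ≤ (4 * M * ρ / η) / (η / 2) := by
    refine Complex.norm_deriv_le_of_forall_mem_sphere_norm_le (by linarith) ?_ ?_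
    · refine DifferentiableOn.diffContOnCl ?_
      rw [closure_ball z (by linarith)]
      exact fun w hw => (hl w (hsub hw)).differentiableAt.differentiableWithinAt
    · intro w hw
      have hw' : w ∈ ball c ρ := hsub (sphere_subset_closedBall hw)
      rw [mem_sphere_iff_norm] at hw
      have h2 := log_bound hρ hne hb hM hBM hl0 hl hl2 hw'
      have h3 : ‖w - c‖ ≤ ρ - η / 2 := by
        have : w - c = (w - z) + (z - c) := by ring
        rw [this]
        have := norm_add_le (w - z) (z - c)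
        linarith
      refine h2.trans ?_
      rw [div_le_div_iff₀ (by linarith) hη0]
      have h4 : ‖w - c‖ ≤ ρ := by linarith
      have h5 : 0 ≤ ‖w - c‖ := norm_nonneg _
      have h6 : M * ‖w - c‖ ≤ M * ρ := mul_le_mul_of_nonneg_left h4 hM.le
      have h7 : η / 2 ≤ ρ - ‖w - c‖ := by linarith
      have h8 : 0 ≤ M * ρ := by positivity
      nlinarith [mul_le_mul_of_nonneg_left h7 h8, mul_le_mul_of_nonneg_right h6 hη0.le]
  rw [(hl z hz).deriv] at h1
  refine h1.trans (le_of_eq ?_)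
  field_simp
  ring

/-- A bound for the logarithmic derivative gives a bound for ratios. -/
lemma ratio_bound {f : ℂ → ℂ} {c : ℂ} {ρ B : ℝ} (hρ : 0 < ρ) (hf : DifferentiableOn ℂ f (ball c ρ))
    (hne : ∀ z ∈ ball c ρ, f z ≠ 0) (hb : ∀ z ∈ ball c ρ, ‖deriv f z / f z‖ ≤ B)
    {z : ℂ} (hz : z ∈ ball c ρ) (hsmall : B * ‖z - c‖ ≤ 1) : ‖f z - f c‖ ≤ 2 * B * ‖z - c‖ * ‖f c‖ := by
  obtain ⟨l, hl0, hl, hl2⟩ := exists_log hρ hf hne
  have h1 : ‖l z - l c‖ ≤ B * ‖z - c‖ := by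
    refine (convex_ball c ρ).norm_image_sub_le_of_norm_hasDerivWithin_le (f := l) (fun w hw => (hl w hw).hasDerivWithinAt) hb
      (mem_ball_self hρ) hz
  rw [hl0, sub_zero] at h1
  have h2 := Complex.norm_exp_sub_one_le (h1.trans hsmall)
  have h3 : f z - f c = (Complex.exp (l z) - 1) * f c := by
    conv_lhs => rw [hl2 z hz]
    ring
  rw [h3, norm_mul]
  have h4 : ‖Complex.exp (l z) - 1‖ ≤ 2 * B * ‖z - c‖ := by linarith
  exact mul_le_mul_of_nonneg_right h4 (norm_nonneg _)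

end Ann
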