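import Pool.Agent.Helper2.Ann.LowLying
import Pool.Agent.Helper2.Ann.Tools

/-!
# Bounds for `d` up to and across the lines `|Im s| = π/6`
-/

set_option autoImplicit false

namespace Ann

open Complex Set Filter Topology Metric

variable {K : ℕ} {d : ℂ → ℂ}

/-- the weight `1 + cosh 3x` -/
noncomputable def W (x : ℝ) : ℝ := 1 + Real.cosh (3 * x)

lemma W_ge (x : ℝ) : 2 ≤ W x := by
  have := Real.one_le_cosh (3 * x); unfold W; linarith

lemma W_pos (x : ℝ) : 0 < W x := by linarith [W_ge x]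

lemma cosh_shift {x y : ℝ} (h : |x - y| ≤ 1 / 3) : Real.cosh (3 * x) ≤ 3 * Real.cosh (3 * y) := by
  have h1 : 3 * x = 3 * y + 3 * (x - y) := by ring
  rw [h1, Real.cosh_add]
  have h2 : Real.sinh (3 * y) * Real.sinh (3 * (x - y)) ≤ Real.cosh (3 * y) * |Real.sinh (3 * (x - y))| := by
    calc Real.sinh (3 * y) * Real.sinh (3 * (x - y)) ≤ |Real.sinh (3 * y) * Real.sinh (3 * (x - y))| := le_abs_self _
      _ = |Real.sinh (3 * y)| * |Real.sinh (3 * (x - y))| := abs_mul _ _
      _ ≤ Real.cosh (3 * y) * |Real.sinh (3 * (x - y))| := by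
        gcongr
        rw [Real.abs_sinh, ← Real.cosh_abs (3 * y)]
        exact (Real.sinh_lt_cosh _).le
  have h3 : Real.cosh (3 * (x - y)) + |Real.sinh (3 * (x - y))| ≤ 3 := by
    rw [Real.abs_sinh, ← Real.cosh_abs (3 * (x - y)), Real.cosh_add_sinh]
    have h4 : |3 * (x - y)| ≤ 1 := by rw [abs_mul]; simp only [Nat.abs_ofNat]; linarith
    calc Real.exp |3 * (x - y)| ≤ Real.exp 1 := Real.exp_le_exp.2 h4
      _ ≤ 3 := by linarith [Real.exp_one_lt_d9]
  have := Real.cosh_pos (3 * y)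
  nlinarith

lemma W_shift {x y : ℝ} (h : |x - y| ≤ 1 / 3) : W x ≤ 3 * W y := by
  have := cosh_shift h; unfold W; linarith

lemma q_ge {s : ℂ} (hs : |s.im| ≤ Real.pi / 6) : Real.cos (3 * s.im) ≤ (1 - ‖th s‖) * W s.re := by
  have h1 := norm_th_sq (s := s) (by linarith [Real.pi_pos])
  have h2 := norm_th_le hs
  have h3 : Real.cos (3 * s.im) = Real.cos (3 * s.im / 2) ^ 2 - Real.sin (3 * s.im / 2) ^ 2 := by
    have := Real.cos_two_mul' (3 * s.im / 2)
    rwa [show 2 * (3 * s.im / 2) = 3 * s.im by ring] at this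
  have h4 : W s.re = 2 * (Real.sinh (3 * s.re / 2) ^ 2 + 1) := by
    unfold W
    rw [show 3 * s.re = 2 * (3 * s.re / 2) by ring, Real.cosh_two_mul, Real.cosh_sq]; ring_nf
  have h5 : Real.cos (3 * s.im / 2) ^ 2 ≤ 1 := Real.cos_sq_le_one _
  rw [h3, h4]
  have h6 := norm_nonneg (th s)
  have h7 := sq_nonneg (Real.sinh (3 * s.re / 2))
  nlinarith [mul_nonneg (sub_nonneg.2 h2) (sub_nonneg.2 h2), mul_nonneg (sub_nonneg.2 h2) (sub_nonneg.2 h5),
    mul_nonneg (mul_nonneg (sub_nonneg.2 h2) (sub_nonneg.2 h2)) h7,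
    mul_nonneg (mul_nonneg (sub_nonneg.2 h2) (sub_nonneg.2 h2)) (sq_nonneg (Real.cos (3 * s.im / 2)))]

/-- hypotheses: a low lying level -/
structure LL (K : ℕ) (d : ℂ → ℂ) (σ E : ℝ) : Prop where
  fe : FE K d
  re : IsRealF d
  hσ : σ ^ 2 = 1
  hE : K * ‖(σ : ℂ) - d 0‖ ≤ E

variable {σ E : ℝ}

lemma LL.norm_σ (h : LL K d σ E) : ‖(σ : ℂ)‖ = 1 := by
  rw [Complex.norm_real, Real.norm_eq_abs]
  exact (pow_eq_one_iff_of_nonneg (abs_nonneg σ) two_ne_zero).1 (by rw [sq_abs]; exact h.hσ)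

lemma LL.E_nonneg (h : LL K d σ E) : 0 ≤ E := le_trans (by positivity) h.hE

/-- raw bound with the weight -/
lemma LL.raw (h : LL K d σ E) {s : ℂ} (hs : |s.im| ≤ Real.pi / 6) :
    K * Real.cos (3 * s.im) * ‖σ - d s‖ ≤ (2 * E + 200) * W s.re := by
  have h1 := h.fe.raw h.re h.norm_σ h.hE hs
  have h2 := q_ge hs
  have hK : (0 : ℝ) ≤ K := by positivity
  have hW := W_pos s.re
  calc K * Real.cos (3 * s.im) * ‖σ - d s‖ ≤ K * ((1 - ‖th s‖) * W s.re) * ‖σ - d s‖ := by gcongr
    _ = (K * (1 - ‖th s‖) * ‖σ - d s‖) * W s.re := by ring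
    _ ≤ (2 * E + 200) * W s.re := by gcongr

/-- smallness of `y` inside the strip -/
lemma LL.y_small (h : LL K d σ E) {s : ℂ} (hs : |s.im| ≤ Real.pi / 6) :
    K * Real.cos (3 * s.im) * ‖yf d s‖ ≤ 3 * W s.re := by
  have h1 := h.fe.norm_y_le_strip h.re hs
  have h2 := q_ge hs
  have h3 := norm_th_le hs
  have h4 := norm_nonneg (th s)
  have hK : (0 : ℝ) ≤ K := by positivity
  have hW := W_pos s.re
  set T := ‖th s‖ with hT
  have h5 : T ^ K * (1 + K * (1 - T)) ≤ 1 := by
    have h6 : (1 : ℝ) + K * (1 - T) ≤ (1 + (1 - T)) ^ K := one_add_mul_le_pow (by linarith) K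
    calc T ^ K * (1 + K * (1 - T)) ≤ T ^ K * (1 + (1 - T)) ^ K := by gcongr
      _ = (T * (1 + (1 - T))) ^ K := by rw [mul_pow]
      _ ≤ 1 := pow_le_one₀ (by nlinarith) (by nlinarith)
  have h6 : K * (1 - T) * T ^ K ≤ 1 := by nlinarith [pow_nonneg h4 K]
  calc K * Real.cos (3 * s.im) * ‖yf d s‖ ≤ K * ((1 - T) * W s.re) * (3 * T ^ K) := by
        have h7 : 0 ≤ (1 - T) * W s.re := mul_nonneg (by linarith) hW.le
        have h8 : K * Real.cos (3 * s.im) ≤ K * ((1 - T) * W s.re) := by gcongr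
        exact mul_le_mul h8 h1 (norm_nonneg _) (by positivity)
    _ = 3 * W s.re * (K * (1 - T) * T ^ K) := by ring
    _ ≤ 3 * W s.re * 1 := by gcongr
    _ = 3 * W s.re := by ring

lemma yf_apply_sub (d : ℂ → ℂ) (s : ℂ) : d s * d (s - 2 * sh) = 1 + yf d (s - sh) := by
  rw [yf, show s - sh + sh = s by ring, show s - sh - sh = s - 2 * sh by ring]; ring

/-- `d` has no zeros for `|Im s| ≤ π/4`, `(2E+210) W(Re s) < K`. -/
lemma LL.ne_zero_aux (h : LL K d σ E) {s : ℂ} (hs0 : 0 ≤ s.im) (hs : s.im ≤ Real.pi / 4)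
    (hK : (2 * E + 210) * W s.re < K) : d s ≠ 0 := by
  intro h0
  have hp := Real.pi_pos
  have hW := W_pos s.re
  have hE := h.E_nonneg
  have hK0 : (0 : ℝ) < K := lt_of_le_of_lt (by positivity) hK
  have hsub : (s - sh).im = s.im - Real.pi / 6 := sub_sh_im s
  have hre : (s - sh).re = s.re := by simp
  have hy : |(s - sh).im| ≤ Real.pi / 6 := by rw [hsub, abs_le]; constructor <;> linarith
  have h1 := h.y_small hy
  have h2 : yf d (s - sh) = -1 := by
    have := yf_apply_sub d s
    rw [h0, zero_mul] at this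
    linear_combination -this
  rw [h2, norm_neg, norm_one, mul_one, hsub, hre] at h1
  have h3 : Real.cos (3 * (s.im - Real.pi / 6)) = Real.sin (3 * s.im) := by
    rw [show 3 * (s.im - Real.pi / 6) = 3 * s.im - Real.pi / 2 by ring, Real.cos_sub_pi_div_two]
  rw [h3] at h1
  rcases le_total s.im (Real.pi / 6) with hl | hl
  · have h4 := h.raw (s := s) (by rw [abs_of_nonneg hs0]; exact hl)
    rw [h0, sub_zero, h.norm_σ, mul_one] at h4
    have h5 := Real.sin_sq_add_cos_sq (3 * s.im)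
    have h6 : 0 ≤ Real.cos (3 * s.im) := Real.cos_nonneg_of_mem_Icc ⟨by linarith, by linarith⟩
    have h7 : 0 ≤ Real.sin (3 * s.im) := Real.sin_nonneg_of_nonneg_of_le_pi (by linarith) (by linarith)
    have h8 : (1 : ℝ) ≤ Real.sin (3 * s.im) + Real.cos (3 * s.im) := by nlinarith
    nlinarith
  · have h5 : (1 : ℝ) / 2 ≤ Real.sin (3 * s.im) := by
      have h6 : Real.sin (3 * s.im) = Real.cos (3 * s.im - Real.pi / 2) := (Real.cos_sub_pi_div_two _).symm
      rw [h6, ← Real.cos_pi_div_three]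
      exact Real.cos_le_cos_of_nonneg_of_le_pi (by linarith) (by linarith) (by linarith)
    nlinarith

lemma LL.ne_zero (h : LL K d σ E) {s : ℂ} (hs : |s.im| ≤ Real.pi / 4) (hK : (2 * E + 210) * W s.re < K) : d s ≠ 0 := by
  have hb := abs_le.1 hs
  rcases le_total 0 s.im with h0 | h0
  · exact h.ne_zero_aux h0 hb.2 hK
  · intro hz
    have h1 : d ((starRingEnd ℂ) s) = 0 := by
      rw [h.re s (by linarith [Real.pi_pos]), hz, map_zero]
    exact h.ne_zero_aux (s := (starRingEnd ℂ) s) (by simp; linarith) (by simp; linarith) (by simpa using hK) h1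

/-! ### upper bound of `d` up to the line -/

lemma one_sub_tanh {z : ℂ} (hz : Complex.cosh z ≠ 0) : (1 - Complex.tanh z) * (Complex.exp (z + z) + 1) = 2 := by
  have e0 : Complex.exp z * Complex.exp (-z) = 1 := by rw [← Complex.exp_add]; simp
  have e1 : Complex.exp (z + z) + 1 = 2 * Complex.exp z * Complex.cosh z := by
    rw [Complex.cosh, Complex.exp_add]; linear_combination (-1 : ℂ) * e0
  have e2 : Complex.exp z * (Complex.cosh z - Complex.sinh z) = 1 := by
    rw [Complex.cosh_sub_sinh]; exact e0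
  have e3 : Complex.tanh z * Complex.cosh z = Complex.sinh z := by
    rw [Complex.tanh_eq_sinh_div_cosh, div_mul_cancel₀ _ hz]
  rw [e1]
  linear_combination 2 * e2 - 2 * Complex.exp z * e3

lemma one_sub_th {s : ℂ} (hs : |s.im| ≤ Real.pi / 6) : 2 ≤ ‖1 - th s‖ * (Real.exp (3 * s.re) + 1) := by
  have hc := cosh_arg_ne (s := s) (by linarith [Real.pi_pos])
  have h1 := one_sub_tanh hc
  rw [show 3 * s / 2 + 3 * s / 2 = 3 * s by ring] at h1
  have h2 : ‖1 - th s‖ * ‖Complex.exp (3 * s) + 1‖ = 2 := by rw [← norm_mul, th, h1]; simp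
  have h3 : ‖Complex.exp (3 * s) + 1‖ ≤ Real.exp (3 * s.re) + 1 := by
    refine (norm_add_le _ _).trans ?_
    rw [Complex.norm_exp, norm_one]
    simp
  have := mul_le_mul_of_nonneg_left h3 (norm_nonneg (1 - th s))
  linarith

lemma th_neg (s : ℂ) : th (-s) = -th s := by
  rw [th, th, show 3 * -s / 2 = -(3 * s / 2) by ring, Complex.tanh_neg]

lemma one_add_th {s : ℂ} (hs : |s.im| ≤ Real.pi / 6) : 2 ≤ ‖1 + th s‖ * (Real.exp (-(3 * s.re)) + 1) := by
  have := one_sub_th (s := -s) (by simpa using hs)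
  rw [th_neg, sub_neg_eq_add] at this
  simpa using this

lemma den_ge_mul {K : ℕ} {w : ℂ} (hw : ‖w‖ ≤ 1) : K * ‖1 - w‖ ≤ ‖1 + (K : ℂ) * (1 - w)‖ := by
  have hK : (0 : ℝ) ≤ K := by positivity
  apply le_of_sq_le_sq _ (norm_nonneg _)
  rw [mul_pow, Complex.sq_norm, Complex.sq_norm, Complex.normSq_apply, Complex.normSq_apply]
  have h1 : w.re ≤ 1 := (Complex.re_le_norm w).trans hw
  simp
  nlinarith [mul_nonneg hK (sub_nonneg.2 h1)]

/-- the majorant is small up to the lines -/
lemma norm_HH_W {s : ℂ} (hs : |s.im| ≤ Real.pi / 6) : K * ‖HH K s‖ ≤ 12 * W s.re := by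
  have hK : (0 : ℝ) ≤ K := by positivity
  have hw := norm_th_le hs
  have h1 := one_sub_th hs
  have h2 := one_add_th hs
  have e1 := Real.exp_pos (3 * s.re)
  have e2 := Real.exp_pos (-(3 * s.re))
  have h3 : K * ‖12 / (1 + (K : ℂ) * (1 - th s))‖ ≤ 6 * (Real.exp (3 * s.re) + 1) := by
    rw [norm_div, ← mul_div_assoc, div_le_iff₀ (norm_pos_iff.2 (den_ne hw))]
    have := den_ge_mul (K := K) hw
    have e : ‖(12 : ℂ)‖ = 12 := by simp
    rw [e]
    calc (K : ℝ) * 12 ≤ K * (6 * (‖1 - th s‖ * (Real.exp (3 * s.re) + 1))) := by gcongr; linarith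
      _ = 6 * (Real.exp (3 * s.re) + 1) * (K * ‖1 - th s‖) := by ring
      _ ≤ 6 * (Real.exp (3 * s.re) + 1) * ‖1 + (K : ℂ) * (1 - th s)‖ := by gcongr
  have h4 : K * ‖12 / (1 + (K : ℂ) * (1 + th s))‖ ≤ 6 * (Real.exp (-(3 * s.re)) + 1) := by
    rw [norm_div, ← mul_div_assoc, div_le_iff₀ (norm_pos_iff.2 (den_ne' hw))]
    have := den_ge_mul (K := K) (w := -th s) (by rwa [norm_neg])
    rw [sub_neg_eq_add] at this
    have e : ‖(12 : ℂ)‖ = 12 := by simp
    rw [e]
    calc (K : ℝ) * 12 ≤ K * (6 * (‖1 + th s‖ * (Real.exp (-(3 * s.re)) + 1))) := by gcongr; linarith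
      _ = 6 * (Real.exp (-(3 * s.re)) + 1) * (K * ‖1 + th s‖) := by ring
      _ ≤ 6 * (Real.exp (-(3 * s.re)) + 1) * ‖1 + (K : ℂ) * (1 + th s)‖ := by gcongr
  have h5 : ‖HH K s‖ ≤ ‖12 / (1 + (K : ℂ) * (1 - th s))‖ + ‖12 / (1 + (K : ℂ) * (1 + th s))‖ := norm_add_le _ _
  have h6 : W s.re = 1 + (Real.exp (3 * s.re) + Real.exp (-(3 * s.re))) / 2 := by rw [W, Real.cosh_eq]
  have h7 := mul_le_mul_of_nonneg_left h5 hK
  rw [h6]
  nlinarith

/-- `|d| ≤ exp (6 W/K)` on the closed strip -/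
lemma FE.norm_le_W (h : FE K d) (hr : IsRealF d) (hK : 0 < K) {s : ℂ} (hs : |s.im| ≤ Real.pi / 6) :
    ‖d s‖ ≤ Real.exp (6 * W s.re / K) := by
  have hK' : (0 : ℝ) < K := by exact_mod_cast hK
  refine (h.norm_le_exp hr hs).trans (Real.exp_le_exp.2 ?_)
  have h1 := norm_HH_W (K := K) hs
  have h2 := Complex.re_le_norm (HH K s)
  rw [le_div_iff₀ hK']
  nlinarith

/-! ### logarithmic derivative near the line -/

lemma one_sub_ge_exp {u : ℝ} (h0 : 0 ≤ u) (h1 : u ≤ 1 / 2) : Real.exp (-(2 * u)) ≤ 1 - u := by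
  rw [Real.exp_neg, inv_le_comm₀ (Real.exp_pos _) (by linarith)]
  have h2 := Real.add_one_le_exp (2 * u)
  refine le_trans ?_ h2
  rw [inv_le_comm₀ (by linarith) (by linarith), inv_eq_one_div, div_le_iff₀ (by linarith)]
  nlinarith

lemma half_le_cos {x : ℝ} (h : |x| ≤ Real.pi / 4) : (1 : ℝ) / 2 ≤ Real.cos x := by
  rw [← Real.cos_abs, ← Real.cos_pi_div_three]
  exact Real.cos_le_cos_of_nonneg_of_le_pi (abs_nonneg _) (by linarith [Real.pi_pos]) (by linarith [Real.pi_pos])

/-- logarithmic derivative below the line -/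
lemma LL.ld_below (h : LL K d σ E) {s : ℂ} (hs0 : Real.pi / 12 ≤ s.im) (hs : s.im < Real.pi / 6)
    (hK : (8 * E + 1000) * W s.re < K) :
    ‖deriv d s / d s‖ * (Real.pi / 6 - s.im) ^ 2 * K ≤ (24 * E + 2500) * W s.re := by
  have hp := Real.pi_pos
  have hp3 := Real.pi_gt_three
  have hp4 := Real.pi_le_four
  have hW := W_pos s.re
  have hE := h.E_nonneg
  have hK0 : (0 : ℝ) < K := lt_of_le_of_lt (by positivity) hK
  have hKn : 0 < K := by exact_mod_cast hK0
  have hEW := mul_nonneg hE hW.le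
  set c : ℂ := (s.re : ℂ) + ((Real.pi / 12 : ℝ) : ℂ) * I with hc
  have hcre : c.re = s.re := by simp [hc]
  have hcim : c.im = Real.pi / 12 := by simp [hc]
  have hball : ∀ z ∈ ball c (Real.pi / 12), |z.im| ≤ Real.pi / 6 ∧ |z.re - s.re| ≤ 1 / 3 := by
    intro z hz
    rw [mem_ball_iff_norm] at hz
    have h1 := (Complex.abs_im_le_norm (z - c)).trans hz.le
    have h2 := (Complex.abs_re_le_norm (z - c)).trans hz.le
    rw [Complex.sub_im, hcim] at h1
    rw [Complex.sub_re, hcre] at h2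
    have h1' := abs_le.1 h1
    refine ⟨abs_le.2 ⟨by linarith, by linarith⟩, by linarith⟩
  -- lower bound at the centre
  have hraw := h.raw (s := c) (by rw [hcim, abs_of_pos (by positivity)]; linarith)
  rw [hcim, hcre] at hraw
  have hcos : (1 : ℝ) / 2 ≤ Real.cos (3 * (Real.pi / 12)) := half_le_cos (by rw [abs_of_pos (by positivity)]; linarith)
  set u := ‖σ - d c‖ with hu
  have hu0 : 0 ≤ u := norm_nonneg _
  have hu1 : K * u ≤ (4 * E + 400) * W s.re := by
    have : K * (1 / 2) * u ≤ K * Real.cos (3 * (Real.pi / 12)) * u := by gcongr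
    linarith
  have hu2 : u ≤ 1 / 2 := by
    by_contra hcon
    push Not at hcon
    nlinarith
  have hdc : Real.exp (-(2 * u)) ≤ ‖d c‖ := by
    refine (one_sub_ge_exp hu0 hu2).trans ?_
    have : ‖(σ : ℂ)‖ ≤ ‖(σ : ℂ) - d c‖ + ‖d c‖ := by
      have e : (σ : ℂ) = (σ - d c) + d c := by ring
      conv_lhs => rw [e]
      exact norm_add_le _ _
    rw [h.norm_σ] at this
    linarith
  have key := logDeriv_bound (f := d) (c := c) (ρ := Real.pi / 12) (M := 18 * W s.re / K + 2 * u) (B := Real.exp (18 * W s.re / K))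
    (by positivity) ?_ ?_ ?_ (by positivity) ?_ (z := s) ?_
  · have e1 : ‖s - c‖ = s.im - Real.pi / 12 := by
      have e2 : s - c = ((s.im - Real.pi / 12 : ℝ) : ℂ) * I := by
        apply Complex.ext <;> simp [hc]
      rw [e2, norm_mul, norm_I, mul_one, Complex.norm_real, Real.norm_of_nonneg (by linarith)]
    rw [e1, show Real.pi / 12 - (s.im - Real.pi / 12) = Real.pi / 6 - s.im by ring] at key
    have h5' : 0 < Real.pi / 6 - s.im := by linarith
    have h5 : 0 < (Real.pi / 6 - s.im) ^ 2 := by positivity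
    rw [le_div_iff₀ h5] at key
    have h6 : ‖deriv d s / d s‖ * (Real.pi / 6 - s.im) ^ 2 * K ≤ 8 * (18 * W s.re / K + 2 * u) * (Real.pi / 12) * K := by
      gcongr
    refine h6.trans ?_
    have e3 : 8 * (18 * W s.re / K + 2 * u) * (Real.pi / 12) * K = (2 / 3 * Real.pi) * (18 * W s.re + 2 * (K * u)) := by
      field_simp
      ring
    rw [e3]
    have h7 : 18 * W s.re + 2 * (K * u) ≤ (8 * E + 818) * W s.re := by nlinarith
    have h8 : 2 / 3 * Real.pi ≤ 3 := by linarith
    have h9 : 0 ≤ 18 * W s.re + 2 * (K * u) := by positivity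
    calc (2 / 3 * Real.pi) * (18 * W s.re + 2 * (K * u)) ≤ 3 * ((8 * E + 818) * W s.re) := by
          exact mul_le_mul h8 h7 h9 (by norm_num)
      _ ≤ (24 * E + 2500) * W s.re := by nlinarith
  · exact fun z hz => (h.fe.diff z (by have := (hball z hz).1; linarith)).differentiableWithinAt
  · intro z hz
    have h1 := hball z hz
    have h2 := W_shift h1.2
    refine h.ne_zero (by linarith [h1.1]) ?_
    nlinarith
  · intro z hz
    have h1 := hball z hz
    have h2 := W_shift h1.2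
    refine (h.fe.norm_le_W h.re hKn h1.1).trans (Real.exp_le_exp.2 ?_)
    exact div_le_div_of_nonneg_right (by linarith) hK0.le
  · have : Real.exp (18 * W s.re / K) = Real.exp (-(2 * u)) * Real.exp (18 * W s.re / K + 2 * u) := by
      rw [← Real.exp_add]; ring_nf
    rw [this]
    gcongr
  · rw [mem_ball_iff_norm]
    have e2 : s - c = ((s.im - Real.pi / 12 : ℝ) : ℂ) * I := by
      apply Complex.ext <;> simp [hc]
    rw [e2, norm_mul, norm_I, mul_one, Complex.norm_real, Real.norm_of_nonneg (by linarith)]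
    linarith

/-- reality of the derivative -/
lemma deriv_conj_real (hr : IsRealF d) {s : ℂ} (hs : |s.im| < Real.pi / 2) :
    deriv d ((starRingEnd ℂ) s) = (starRingEnd ℂ) (deriv d s) := by
  have hopen : IsOpen {z : ℂ | |z.im| < Real.pi / 2} := isOpen_lt (by fun_prop) (by fun_prop)
  have h1 : ((starRingEnd ℂ) ∘ d ∘ (starRingEnd ℂ)) =ᶠ[𝓝 s] d := by
    filter_upwards [hopen.mem_nhds hs] with z hz
    simp only [Function.comp_apply]
    rw [hr z hz, Complex.conj_conj]
  have h2 := h1.deriv_eq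
  rw [deriv_conj_conj] at h2
  simp only [Function.comp_apply] at h2
  rw [← h2, Complex.conj_conj]

lemma ld_conj (hr : IsRealF d) {s : ℂ} (hs : |s.im| < Real.pi / 2) :
    ‖deriv d ((starRingEnd ℂ) s) / d ((starRingEnd ℂ) s)‖ = ‖deriv d s / d s‖ := by
  rw [deriv_conj_real hr hs, hr s hs, norm_div, norm_div, Complex.norm_conj, Complex.norm_conj]

/-- logarithmic derivative above the line -/
lemma LL.ld_above (h : LL K d σ E) {s : ℂ} (hs0 : Real.pi / 6 < s.im) (hs : s.im ≤ 5 * Real.pi / 24)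
    (hK : (8 * E + 1000) * W s.re < K) :
    ‖deriv d s / d s‖ * (s.im - Real.pi / 6) ^ 2 * K ≤ (24 * E + 2800) * W s.re := by
  have hp := Real.pi_pos
  have hp3 := Real.pi_gt_three
  have hp4 := Real.pi_le_four
  have hW := W_pos s.re
  have hE := h.E_nonneg
  have hK0 : (0 : ℝ) < K := lt_of_le_of_lt (by positivity) hK
  have hEW := mul_nonneg hE hW.le
  -- the point below
  set s' : ℂ := s - 2 * sh with hs'
  have hs're : s'.re = s.re := by simp [hs']
  have hs'im : s'.im = s.im - Real.pi / 3 := by simp [hs']; ring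
  have hb := h.ld_below (s := (starRingEnd ℂ) s') (by rw [conj_im, hs'im]; linarith) (by rw [conj_im, hs'im]; linarith)
    (by rw [conj_re, hs're]; exact hK)
  rw [ld_conj h.re (by rw [hs'im, abs_lt]; constructor <;> linarith), conj_im, conj_re, hs're, hs'im] at hb
  rw [show Real.pi / 6 - -(s.im - Real.pi / 3) = s.im - Real.pi / 6 by ring] at hb
  -- bound for y near s - sh
  set p : ℂ := s - sh with hpdef
  have hpre : p.re = s.re := by simp [hpdef]
  have hpim : p.im = s.im - Real.pi / 6 := by simp [hpdef]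
  have hyb : ∀ w : ℂ, ‖w - p‖ ≤ Real.pi / 24 → ‖yf d w‖ ≤ 18 * W s.re / K := by
    intro w hw
    have h1 := (Complex.abs_im_le_norm (w - p)).trans hw
    have h2 := (Complex.abs_re_le_norm (w - p)).trans hw
    rw [Complex.sub_im, hpim] at h1
    rw [Complex.sub_re, hpre] at h2
    have h1' := abs_le.1 h1
    have h3 : |w.im| ≤ Real.pi / 12 := abs_le.2 ⟨by linarith, by linarith⟩
    have h4 := h.y_small (s := w) (by linarith)
    have h5 : (1 : ℝ) / 2 ≤ Real.cos (3 * w.im) := half_le_cos (by rw [abs_mul]; simp only [Nat.abs_ofNat]; linarith)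
    have h6 := W_shift (x := w.re) (y := s.re) (by linarith)
    rw [le_div_iff₀ hK0]
    have h7 : K * (1 / 2) * ‖yf d w‖ ≤ K * Real.cos (3 * w.im) * ‖yf d w‖ := by gcongr
    nlinarith
  have hyd : ‖deriv (yf d) p‖ ≤ 18 * W s.re / K / (Real.pi / 24) := by
    refine Complex.norm_deriv_le_of_forall_mem_sphere_norm_le (by positivity) ?_ ?_
    · refine DifferentiableOn.diffContOnCl ?_
      rw [closure_ball p (by positivity)]
      intro w hw
      rw [mem_closedBall_iff_norm] at hw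
      have h1 := (Complex.abs_im_le_norm (w - p)).trans hw
      rw [Complex.sub_im, hpim] at h1
      have h1' := abs_le.1 h1
      exact (yf_diff h.fe.diff (by rw [abs_lt]; constructor <;> linarith)).differentiableWithinAt
    · intro w hw
      rw [mem_sphere_iff_norm] at hw
      exact hyb w hw.le
  have hyp := hyb p (by rw [sub_self, norm_zero]; positivity)
  have hsmall : 18 * W s.re / K ≤ 1 / 2 := by
    rw [div_le_iff₀ hK0]; nlinarith
  have hden : 1 / 2 ≤ ‖1 + yf d p‖ := by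
    have : ‖(1 : ℂ)‖ ≤ ‖1 + yf d p‖ + ‖yf d p‖ := by
      have e : (1 : ℂ) = (1 + yf d p) - yf d p := by ring
      conv_lhs => rw [e]
      exact norm_sub_le _ _
    rw [norm_one] at this
    linarith
  -- the identity
  have hds : d s ≠ 0 := h.ne_zero (by rw [abs_of_pos (by linarith)]; linarith) (by nlinarith)
  have hprod : d s * d s' = 1 + yf d p := yf_apply_sub d s
  have hne : 1 + yf d p ≠ 0 := by
    intro h0; rw [h0, norm_zero] at hden; linarith
  have hds' : d s' ≠ 0 := by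
    intro h0; rw [h0, mul_zero] at hprod; exact hne hprod.symm
  have hD : deriv d s * d s' + d s * deriv d s' = deriv (yf d) p := by
    have h1 : HasDerivAt d (deriv d s) s := (h.fe.diff s (by rw [abs_of_pos (by linarith)]; linarith)).hasDerivAt
    have h2 : HasDerivAt (fun z => d (z - 2 * sh)) (deriv d s') s := by
      have h3 : HasDerivAt d (deriv d s') s' := (h.fe.diff s' (by rw [hs'im, abs_lt]; constructor <;> linarith)).hasDerivAt
      have h4 : HasDerivAt (fun z : ℂ => z - 2 * sh) 1 s := (hasDerivAt_id s).sub_const _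
      have h5 := HasDerivAt.comp s (h₂ := d) h3 h4
      rw [mul_one] at h5
      exact h5
    have h5 : HasDerivAt (fun z => 1 + yf d (z - sh)) (deriv (yf d) p) s := by
      have h3 : HasDerivAt (yf d) (deriv (yf d) p) p := (yf_diff h.fe.diff (by rw [hpim, abs_lt]; constructor <;> linarith)).hasDerivAt
      have h4 : HasDerivAt (fun z : ℂ => z - sh) 1 s := (hasDerivAt_id s).sub_const _
      have h6 := HasDerivAt.comp s (h₂ := yf d) h3 h4
      rw [mul_one] at h6
      exact h6.const_add 1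
    have h6 : (fun z => d z * d (z - 2 * sh)) = fun z => 1 + yf d (z - sh) := by
      funext z; exact yf_apply_sub d z
    have h7 := h1.mul h2
    have h8 : HasDerivAt (fun z => d z * d (z - 2 * sh)) (deriv d s * d s' + d s * deriv d s') s := h7
    rw [h6] at h8
    exact h8.unique h5
  have hL : deriv d s / d s = deriv (yf d) p / (1 + yf d p) - deriv d s' / d s' := by
    rw [← hprod, ← hD]
    field_simp
    ring
  have hyd' : ‖deriv (yf d) p / (1 + yf d p)‖ ≤ 288 * W s.re / K := by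
    rw [norm_div, div_le_iff₀ (by linarith)]
    have h1 : 18 * W s.re / K / (Real.pi / 24) ≤ 144 * W s.re / K := by
      rw [div_div, div_le_div_iff₀ (by positivity) hK0]
      nlinarith [mul_pos hW hK0]
    have h2 : 144 * W s.re / K ≤ 288 * W s.re / K * ‖1 + yf d p‖ := by
      have : 144 * W s.re / K = 288 * W s.re / K * (1 / 2) := by ring
      rw [this]
      gcongr
    exact (hyd.trans h1).trans h2
  have hη : (s.im - Real.pi / 6) ^ 2 ≤ 1 := by
    have h1 : 0 ≤ s.im - Real.pi / 6 := by linarith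
    have h2 : s.im - Real.pi / 6 ≤ 1 := by linarith
    nlinarith
  calc ‖deriv d s / d s‖ * (s.im - Real.pi / 6) ^ 2 * K
      ≤ (‖deriv (yf d) p / (1 + yf d p)‖ + ‖deriv d s' / d s'‖) * (s.im - Real.pi / 6) ^ 2 * K := by
        rw [hL]; gcongr; exact norm_sub_le _ _
    _ = ‖deriv (yf d) p / (1 + yf d p)‖ * (s.im - Real.pi / 6) ^ 2 * K + ‖deriv d s' / d s'‖ * (s.im - Real.pi / 6) ^ 2 * K := by ring
    _ ≤ 288 * W s.re / K * 1 * K + (24 * E + 2500) * W s.re := by gcongr
    _ = 288 * W s.re + (24 * E + 2500) * W s.re := by field_simp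
    _ ≤ (24 * E + 2800) * W s.re := by nlinarith

/-- the constant of the final bound -/
noncomputable def CE (E : ℝ) : ℝ := 4000000 * (E + 1)

lemma CE_ge {E : ℝ} (hE : 0 ≤ E) : 4000000 ≤ CE E := by unfold CE; nlinarith

/-- logarithmic derivative on a neighbourhood of the line -/
lemma LL.ld_near (h : LL K d σ E) (x : ℝ) (hK : CE E * W x < K) {z : ℂ} (hz : ‖z - ((x : ℂ) + sh)‖ ≤ Real.pi / 48) :
    ‖deriv d z / d z‖ ≤ CE E * W x / K := by
  have hp := Real.pi_pos
  have hp3 := Real.pi_gt_three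
  have hp4 := Real.pi_le_four
  have hW := W_pos x
  have hE := h.E_nonneg
  have hEW := mul_nonneg hE hW.le
  have hK0 : (0 : ℝ) < K := lt_of_le_of_lt (mul_nonneg (by linarith [CE_ge hE]) hW.le) hK
  unfold CE at hK
  set c : ℂ := (x : ℂ) + sh with hc
  have hcre : c.re = x := by simp [hc]
  have hcim : c.im = Real.pi / 6 := by simp [hc]
  have hin : ∀ w : ℂ, ‖w - c‖ ≤ Real.pi / 24 → Real.pi / 8 ≤ w.im ∧ w.im ≤ 5 * Real.pi / 24 ∧ W w.re ≤ 3 * W x := by
    intro w hw
    have h1 := (Complex.abs_im_le_norm (w - c)).trans hw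
    have h2 := (Complex.abs_re_le_norm (w - c)).trans hw
    rw [Complex.sub_im, hcim] at h1
    rw [Complex.sub_re, hcre] at h2
    have h1' := abs_le.1 h1
    exact ⟨by linarith, by linarith, W_shift (by linarith)⟩
  have hcl : closure (ball c (Real.pi / 24)) ⊆ {w | ‖w - c‖ ≤ Real.pi / 24} := by
    rw [closure_ball c (by positivity)]
    intro w hw
    rwa [mem_closedBall_iff_norm] at hw
  have key := circ (f := fun w => deriv d w / d w) (c := c) (r := Real.pi / 24) (A := (24 * E + 2800) * (3 * W x) / K) (m := 2)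
    (by norm_num) (by positivity) ?_ (by positivity) ?_ (z := z) (by linarith)
  · refine key.trans ?_
    have h1 : (8 / (3 * (Real.pi / 24))) ^ 2 ≤ 455.2 := by
      rw [div_pow, div_le_iff₀ (by positivity)]
      nlinarith
    calc (24 * E + 2800) * (3 * W x) / K * (8 / (3 * (Real.pi / 24))) ^ 2 ≤ (24 * E + 2800) * (3 * W x) / K * 455.2 := by gcongr
      _ = (24 * E + 2800) * (3 * W x) * 455.2 / K := by ring
      _ ≤ CE E * W x / K := by
        apply div_le_div_of_nonneg_right _ hK0.le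
        unfold CE
        nlinarith
  · refine DifferentiableOn.diffContOnCl ?_
    intro w hw
    have h1 := hin w (hcl hw)
    have hopen : IsOpen {z : ℂ | |z.im| < Real.pi / 2} := isOpen_lt (by fun_prop) (by fun_prop)
    have h2 : |w.im| < Real.pi / 2 := by rw [abs_lt]; constructor <;> linarith [h1.1, h1.2.1]
    have h3 : DifferentiableOn ℂ d {z : ℂ | |z.im| < Real.pi / 2} := fun y hy => (h.fe.diff y hy).differentiableWithinAt
    have h4 : DifferentiableAt ℂ (deriv d) w := (h3.deriv hopen).differentiableAt (hopen.mem_nhds h2)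
    refine (h4.div (h.fe.diff w h2) (h.ne_zero (by rw [abs_le]; constructor <;> linarith [h1.1, h1.2.1]) ?_)).differentiableWithinAt
    nlinarith [h1.2.2]
  · intro w hw hne
    have h1 := hin w hw.le
    rw [Complex.sub_im, hcim] at *
    have h2 : (24 * E + 2800) * W w.re ≤ (24 * E + 2800) * (3 * W x) := by
      apply mul_le_mul_of_nonneg_left h1.2.2; linarith
    rw [le_div_iff₀ hK0, sq_abs]
    refine le_trans ?_ h2
    rcases lt_or_gt_of_ne (sub_ne_zero.1 hne) with hlt | hgt
    · have h3 := h.ld_below (s := w) (by linarith [h1.1]) hlt (by nlinarith [h1.2.2])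
      have h4 : (w.im - Real.pi / 6) ^ 2 = (Real.pi / 6 - w.im) ^ 2 := by ring
      rw [h4]
      have h5 := W_pos w.re
      nlinarith
    · exact h.ld_above (s := w) hgt h1.2.1 (by nlinarith [h1.2.2])

/-- the middle zone -/
lemma LL.mid (h : LL K d σ E) {s : ℂ} (hs : |s.im| ≤ Real.pi / 6 - Real.pi / 96) :
    K * ‖σ - d s‖ ≤ 16 * ((2 * E + 200) * W s.re) := by
  have hp := Real.pi_pos
  have h1 := h.raw (s := s) (by linarith)
  have hc : (1 : ℝ) / 16 ≤ Real.cos (3 * s.im) := by
    have h2 : Real.cos (Real.pi / 2 - Real.pi / 32) ≤ Real.cos (3 * s.im) := by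
      rw [← Real.cos_abs (3 * s.im)]
      apply Real.cos_le_cos_of_nonneg_of_le_pi (abs_nonneg _) (by linarith)
      rw [abs_mul]; simp only [Nat.abs_ofNat]; linarith
    rw [Real.cos_pi_div_two_sub] at h2
    have h3 := Real.mul_le_sin (x := Real.pi / 32) (by positivity) (by linarith)
    have h4 : 2 / Real.pi * (Real.pi / 32) = 1 / 16 := by field_simp; norm_num
    linarith
  have hK : (0 : ℝ) ≤ K := by positivity
  have h5 : K * (1 / 16) * ‖σ - d s‖ ≤ K * Real.cos (3 * s.im) * ‖σ - d s‖ := by gcongr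
  linarith

/-- **Main bound**: for a low lying level `K |σ - d s| ≤ 3 C(E) (1 + cosh (3 Re s))` for all `|Im s| ≤ π/4` as long as
`C(E) (1 + cosh (3 Re s)) < K`. -/
theorem LL.near (h : LL K d σ E) {s : ℂ} (hs : |s.im| ≤ Real.pi / 4) (hK : CE E * W s.re < K) :
    K * ‖σ - d s‖ ≤ 3 * CE E * W s.re := by
  -- reduce to the upper half
  wlog h0 : 0 ≤ s.im generalizing s
  · have h1 := this (s := (starRingEnd ℂ) s) (by simpa using hs) (by simpa using hK) (by simp; linarith)
    rw [h.re s (by linarith [Real.pi_pos]), conj_re] at h1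
    have h2 : (σ : ℂ) - (starRingEnd ℂ) (d s) = (starRingEnd ℂ) ((σ : ℂ) - d s) := by simp
    rwa [h2, Complex.norm_conj] at h1
  have hp := Real.pi_pos
  have hp3 := Real.pi_gt_three
  have hp4 := Real.pi_le_four
  have hW := W_pos s.re
  have hE := h.E_nonneg
  have hEW := mul_nonneg hE hW.le
  have hK0 : (0 : ℝ) < K := lt_of_le_of_lt (mul_nonneg (by linarith [CE_ge hE]) hW.le) hK
  have hK' : 4000000 * (E + 1) * W s.re < K := hK
  rw [abs_of_nonneg h0] at hs
  rcases le_total s.im (Real.pi / 6 - Real.pi / 96) with hz | hz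
  · have h1 := h.mid (s := s) (by rw [abs_of_nonneg h0]; exact hz)
    unfold CE
    nlinarith
  rcases lt_or_ge s.im (Real.pi / 6 + Real.pi / 48) with hz2 | hz2
  · -- near the line
    set c : ℂ := (s.re : ℂ) + sh with hc
    have hcre : c.re = s.re := by simp [hc]
    have hcim : c.im = Real.pi / 6 := by simp [hc]
    set B : ℝ := CE E * W s.re / K with hB
    have hB0 : 0 ≤ B := div_nonneg (mul_nonneg (by linarith [CE_ge hE]) hW.le) hK0.le
    have hB1 : B ≤ 1 := by rw [hB, div_le_one hK0]; exact hK.le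
    have hin : ∀ w ∈ ball c (Real.pi / 48), |w.im| ≤ Real.pi / 4 ∧ W w.re ≤ 3 * W s.re := by
      intro w hw
      rw [mem_ball_iff_norm] at hw
      have h1 := (Complex.abs_im_le_norm (w - c)).trans hw.le
      have h2 := (Complex.abs_re_le_norm (w - c)).trans hw.le
      rw [Complex.sub_im, hcim] at h1
      rw [Complex.sub_re, hcre] at h2
      have h1' := abs_le.1 h1
      exact ⟨abs_le.2 ⟨by linarith, by linarith⟩, W_shift (by linarith)⟩
    have hrat : ∀ z ∈ ball c (Real.pi / 48), ‖d z - d c‖ ≤ 2 * B * ‖z - c‖ * ‖d c‖ := by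
      intro z hz
      refine ratio_bound (ρ := Real.pi / 48) (by positivity) ?_ ?_ ?_ hz ?_
      · exact fun w hw => (h.fe.diff w (by linarith [(hin w hw).1])).differentiableWithinAt
      · intro w hw
        exact h.ne_zero (hin w hw).1 (by nlinarith [(hin w hw).2])
      · intro w hw
        exact h.ld_near s.re hK (by rw [mem_ball_iff_norm] at hw; exact hw.le)
      · rw [mem_ball_iff_norm] at hz
        have : ‖z - c‖ ≤ 1 := by linarith
        nlinarith [norm_nonneg (z - c)]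
    have hdc : ‖d c‖ ≤ 2 := h.fe.norm_le_two_strip h.re (by rw [hcim, abs_of_pos (by positivity)])
    -- the comparison point
    set p : ℂ := c - ((Real.pi / 96 : ℝ) : ℂ) * I with hpd
    have hpn : ‖p - c‖ = Real.pi / 96 := by
      have : p - c = -(((Real.pi / 96 : ℝ) : ℂ) * I) := by rw [hpd]; ring
      rw [this, norm_neg, norm_mul, norm_I, mul_one, Complex.norm_real, Real.norm_of_nonneg (by positivity)]
    have hpre : p.re = s.re := by simp [hpd, hc]
    have hpim : p.im = Real.pi / 6 - Real.pi / 96 := by simp [hpd, hc]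
    have h1 := hrat p (by rw [mem_ball_iff_norm, hpn]; linarith)
    have h2 := h.mid (s := p) (by rw [hpim, abs_of_pos (by linarith)])
    rw [hpre] at h2
    have hscn : ‖s - c‖ < Real.pi / 48 := by
      have e : s - c = ((s.im - Real.pi / 6 : ℝ) : ℂ) * I := by
        apply Complex.ext <;> simp [hc]
      rw [e, norm_mul, norm_I, mul_one, Complex.norm_real, Real.norm_eq_abs, abs_lt]
      constructor <;> linarith
    have h3 := hrat s (by rw [mem_ball_iff_norm]; exact hscn)
    have h4 : ‖d p - d c‖ ≤ B := by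
      refine h1.trans ?_
      rw [hpn]
      nlinarith [norm_nonneg (d c), mul_nonneg hB0 (norm_nonneg (d c)), mul_le_mul_of_nonneg_left hdc hB0]
    have h5 : ‖d s - d c‖ ≤ B := by
      refine h3.trans ?_
      have h6 : 2 * B * ‖s - c‖ * ‖d c‖ ≤ 2 * B * (Real.pi / 48) * 2 := by
        have h7 : 2 * B * ‖s - c‖ ≤ 2 * B * (Real.pi / 48) := by
          have := hscn.le
          gcongr
        exact mul_le_mul h7 hdc (norm_nonneg _) (by positivity)
      nlinarith
    have h6 : ‖σ - d s‖ ≤ ‖σ - d p‖ + ‖d p - d c‖ + ‖d s - d c‖ := by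
      have e : (σ : ℂ) - d s = ((σ : ℂ) - d p) + (d p - d c) - (d s - d c) := by ring
      rw [e]
      refine (norm_sub_le _ _).trans ?_
      have := norm_add_le ((σ : ℂ) - d p) (d p - d c)
      linarith
    have h7 : K * ‖σ - d s‖ ≤ K * (‖σ - d p‖ + B + B) := by gcongr; linarith
    have h8 : K * B = CE E * W s.re := by rw [hB]; field_simp
    have h9 : 16 * ((2 * E + 200) * W s.re) ≤ CE E * W s.re := by unfold CE; nlinarith
    nlinarith
  · -- above the line
    set s' : ℂ := s - 2 * sh with hs'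
    have hs're : s'.re = s.re := by simp [hs']
    have hs'im : s'.im = s.im - Real.pi / 3 := by simp [hs']; ring
    have h1 := h.mid (s := s') (by rw [hs'im, abs_le]; constructor <;> linarith)
    rw [hs're] at h1
    set p : ℂ := s - sh with hpdef
    have hpre : p.re = s.re := by simp [hpdef]
    have hpim : p.im = s.im - Real.pi / 6 := by simp [hpdef]
    have h2 := h.y_small (s := p) (by rw [hpim, abs_le]; constructor <;> linarith)
    rw [hpre] at h2
    have h3 : (1 : ℝ) / 2 ≤ Real.cos (3 * p.im) := half_le_cos (by rw [hpim, abs_le]; constructor <;> linarith)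
    have h4 : K * ‖yf d p‖ ≤ 6 * W s.re := by
      have : K * (1 / 2) * ‖yf d p‖ ≤ K * Real.cos (3 * p.im) * ‖yf d p‖ := by gcongr
      linarith
    have hprod : d s * d s' = 1 + yf d p := yf_apply_sub d s
    have h5 : ‖σ - d s'‖ ≤ 1 / 2 := by
      by_contra hcon
      push Not at hcon
      nlinarith
    have h6 : 1 / 2 ≤ ‖d s'‖ := by
      have : ‖(σ : ℂ)‖ ≤ ‖(σ : ℂ) - d s'‖ + ‖d s'‖ := by
        have e : (σ : ℂ) = (σ - d s') + d s' := by ring
        conv_lhs => rw [e]
        exact norm_add_le _ _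
      rw [h.norm_σ] at this
      linarith
    have h7 : ((σ : ℂ) - d s) * d s' = -((σ : ℂ) * ((σ : ℂ) - d s')) - yf d p := by
      have hσ : (σ : ℂ) ^ 2 = 1 := by exact_mod_cast h.hσ
      linear_combination (-1 : ℂ) * hprod + hσ
    have h8 : ‖(σ : ℂ) - d s‖ * ‖d s'‖ ≤ ‖(σ : ℂ) - d s'‖ + ‖yf d p‖ := by
      rw [← norm_mul, h7]
      refine (norm_sub_le _ _).trans ?_
      rw [norm_neg, norm_mul, h.norm_σ, one_mul]
    have h9 : ‖(σ : ℂ) - d s‖ ≤ 2 * (‖(σ : ℂ) - d s'‖ + ‖yf d p‖) := by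
      nlinarith [norm_nonneg ((σ : ℂ) - d s)]
    have h10 : K * ‖(σ : ℂ) - d s‖ ≤ K * (2 * (‖(σ : ℂ) - d s'‖ + ‖yf d p‖)) := by gcongr
    unfold CE
    nlinarith

end Ann
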