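import Pool.Agent.Helper2.Ann.Limit
import Pool.Agent.Rect.Spec.Growth

/-!
# The logarithmic derivative of `y`
-/

set_option autoImplicit false

namespace Ann

open Complex Set Filter Topology Metric

/-- `d s = P (tanh s ^ 2)` -/
noncomputable def dP (P : Polynomial ℂ) (s : ℂ) : ℂ := P.eval (Complex.tanh s ^ 2)

/-- The properties of an eigenvalue polynomial `P` (in the variable `tanh² s`) on `n` strands. -/
structure Lev (n : ℕ) (P : Polynomial ℂ) : Prop where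
  deg : P.natDegree ≤ n
  real : IsRealF (dP P)
  one : P.eval (-1 / 3) = 1
  cub : ∀ s : ℂ, Complex.cosh s ≠ 0 → Complex.cosh (s + 2 * sh) ≠ 0 → Complex.cosh (s - 2 * sh) ≠ 0 →
    dP P s * dP P (s + 2 * sh) * dP P (s - 2 * sh) = dP P s + dP P (s + 2 * sh) + dP P (s - 2 * sh) - 2
  ord : ((2 * n + 2 : ℕ) : ℕ∞) ≤ analyticOrderAt (yf (dP P)) 0

variable {n : ℕ} {P : Polynomial ℂ}

lemma dP_even (P : Polynomial ℂ) (s : ℂ) : dP P (-s) = dP P s := by
  rw [dP, dP, Complex.tanh_neg, neg_sq]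

lemma dP_diff (P : Polynomial ℂ) {s : ℂ} (hs : |s.im| < Real.pi / 2) : DifferentiableAt ℂ (dP P) s := by
  have hc : Complex.cosh s ≠ 0 := cosh_ne hs
  have h1 : DifferentiableAt ℂ Complex.tanh s := by
    have h2 : Complex.tanh = fun z : ℂ => Complex.sinh z / Complex.cosh z := by
      funext z; exact Complex.tanh_eq_sinh_div_cosh z
    rw [h2]
    exact (Complex.differentiable_sinh s).div (Complex.differentiable_cosh s) hc
  exact P.differentiable.differentiableAt.comp s (h1.pow 2)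

lemma dP_bdd (P : Polynomial ℂ) : ∃ C : ℝ, ∀ s : ℂ, |s.im| ≤ Real.pi / 3 → ‖dP P s‖ ≤ C := by
  obtain ⟨C, hC⟩ := (isCompact_closedBall (0 : ℂ) 4).exists_bound_of_continuousOn (f := fun z => P.eval z)
    P.continuous.continuousOn
  refine ⟨C, fun s hs => hC _ ?_⟩
  rw [mem_closedBall_zero_iff, norm_pow]
  have := norm_tanh_le hs
  nlinarith [norm_nonneg (Complex.tanh s)]

lemma tanh_add_pi (s : ℂ) : Complex.tanh (s + Real.pi * I) = Complex.tanh s := by
  rw [Complex.tanh_eq_sinh_div_cosh, Complex.tanh_eq_sinh_div_cosh, Complex.cosh_add, Complex.sinh_add, Complex.cosh_mul_I,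
    Complex.sinh_mul_I, Complex.cos_pi, Complex.sin_pi]
  simp

lemma dP_add_six (P : Polynomial ℂ) (s : ℂ) : dP P (s + 6 * sh) = dP P s := by
  have e : s + 6 * sh = s + Real.pi * I := by rw [sh]; push_cast; ring
  rw [e, dP, dP, tanh_add_pi]

lemma cosh_three_sh (s : ℂ) : Complex.cosh (s + 3 * sh) = Complex.sinh s * I := by
  have e : s + 3 * sh = s + ((Real.pi / 2 : ℝ) : ℂ) * I := by rw [sh]; push_cast; ring
  rw [e, Complex.cosh_add, Complex.cosh_mul_I, Complex.sinh_mul_I, ← Complex.ofReal_cos, ← Complex.ofReal_sin,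
    Real.cos_pi_div_two, Real.sin_pi_div_two]
  simp

lemma sinh_three_sh (s : ℂ) : Complex.sinh (s + 3 * sh) = Complex.cosh s * I := by
  have e : s + 3 * sh = s + ((Real.pi / 2 : ℝ) : ℂ) * I := by rw [sh]; push_cast; ring
  rw [e, Complex.sinh_add, Complex.cosh_mul_I, Complex.sinh_mul_I, ← Complex.ofReal_cos, ← Complex.ofReal_sin,
    Real.cos_pi_div_two, Real.sin_pi_div_two]
  simp

/-- `d (s + iπ/2) = P (coth² s)` -/
lemma dP_three (P : Polynomial ℂ) (s : ℂ) : dP P (s + 3 * sh) = P.eval ((Complex.cosh s / Complex.sinh s) ^ 2) := by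
  rw [dP, Complex.tanh_eq_sinh_div_cosh, cosh_three_sh, sinh_three_sh, mul_div_mul_right _ _ Complex.I_ne_zero]

lemma dP_sh (h : Lev n P) : dP P sh = 1 := by
  have h1 : Complex.tanh sh ^ 2 = -1 / 3 := by
    rw [sh, Complex.tanh_mul_I, ← Complex.ofReal_tan, Real.tan_pi_div_six]
    rw [mul_pow, I_sq]
    push_cast
    have : ((Real.sqrt 3 : ℝ) : ℂ) ^ 2 = 3 := by rw [← ofReal_pow, Real.sq_sqrt (by norm_num)]; norm_num
    rw [div_pow, this]
    norm_num
  rw [dP, h1, h.one]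

lemma Lev.ymul (h : Lev n P) {s : ℂ} (hs : |s.im| ≤ Real.pi / 12) :
    yf (dP P) (s + sh) * yf (dP P) (s - sh) = (1 - dP P s) ^ 2 := by
  have hp := Real.pi_pos
  have hb := abs_le.1 hs
  apply ymul_of_cubic
  apply h.cub
  · exact cosh_ne (by linarith)
  · apply cosh_ne
    have : (s + 2 * sh).im = s.im + Real.pi / 3 := by simp; ring
    rw [this, abs_lt]; constructor <;> linarith
  · apply cosh_ne
    have : (s - 2 * sh).im = s.im - Real.pi / 3 := by simp; ring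
    rw [this, abs_lt]; constructor <;> linarith

lemma Lev.fe (h : Lev n P) : FE (2 * n + 2) (dP P) where
  diff := fun _ hs => dP_diff P hs
  bdd := dP_bdd P
  ymul := fun t => h.ymul (by rw [ofReal_im, abs_zero]; positivity)
  ord := h.ord

lemma ne_sinh {s : ℂ} (hs : |s.im| ≤ Real.pi / 6) (h0 : s ≠ 0) : Complex.sinh s ≠ 0 :=
  sinh_ne' (by linarith [Real.pi_pos]) h0

/-- `y (1 - d(s+3a)) = (1 - d(s+a)) (1 - d(s-a))` -/
lemma Lev.y_three (h : Lev n P) {s : ℂ} (hs : |s.im| ≤ Real.pi / 6) (h0 : s ≠ 0) :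
    yf (dP P) s * (1 - dP P (s + 3 * sh)) = (1 - dP P (s + sh)) * (1 - dP P (s - sh)) := by
  have hp := Real.pi_pos
  have hb := abs_le.1 hs
  have h1 := h.cub (s + sh) ?_ ?_ ?_
  · rw [show s + sh + 2 * sh = s + 3 * sh by ring, show s + sh - 2 * sh = s - sh by ring] at h1
    rw [yf]
    linear_combination (-1 : ℂ) * h1
  · apply cosh_ne
    rw [add_sh_im, abs_lt]; constructor <;> linarith
  · rw [show s + sh + 2 * sh = s + 3 * sh by ring, cosh_three_sh]
    exact mul_ne_zero (ne_sinh hs h0) Complex.I_ne_zero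
  · apply cosh_ne
    rw [show s + sh - 2 * sh = s - sh by ring, sub_sh_im, abs_lt]; constructor <;> linarith

/-! ### growth of `P (coth² s)` -/

/-- `tanh (s/2)` -/
noncomputable def tq (s : ℂ) : ℂ := Complex.tanh (s / 2)

/-- `coth(s) tanh(3s/2)` -/
noncomputable def ct (s : ℂ) : ℂ := (1 + tq s ^ 2) * (3 + tq s ^ 2) / (2 * (1 + 3 * tq s ^ 2))

lemma cosh_half_ne {s : ℂ} (hs : |s.im| < Real.pi / 3) : Complex.cosh (s / 2) ≠ 0 := by
  apply cosh_ne
  have : (s / 2).im = s.im / 2 := by simp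
  rw [this, abs_div]
  simp only [Nat.abs_ofNat]
  linarith [Real.pi_pos]

lemma tq_mul {s : ℂ} (hs : |s.im| < Real.pi / 3) : tq s * Complex.cosh (s / 2) = Complex.sinh (s / 2) := by
  rw [tq, Complex.tanh_eq_sinh_div_cosh, div_mul_cancel₀ _ (cosh_half_ne hs)]

/-- `cosh(3u) = cosh u (1 + 3 t²) (cosh u)²` with `t = tanh u` -/
lemma cosh_three_half {s : ℂ} (hs : |s.im| < Real.pi / 3) :
    Complex.cosh (3 * s / 2) = Complex.cosh (s / 2) ^ 3 * (1 + 3 * tq s ^ 2) := by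
  have h1 : Complex.cosh (3 * s / 2) = 4 * Complex.cosh (s / 2) ^ 3 - 3 * Complex.cosh (s / 2) := by
    rw [show 3 * s / 2 = 3 * (s / 2) by ring, Complex.cosh_three_mul]
  have h2 := tq_mul hs
  have h3 := Complex.cosh_sq (s / 2)
  rw [h1]
  have h4 : Complex.cosh (s / 2) ^ 3 * (1 + 3 * tq s ^ 2) =
      Complex.cosh (s / 2) ^ 3 + 3 * Complex.cosh (s / 2) * (tq s * Complex.cosh (s / 2)) ^ 2 := by ring
  rw [h4, h2]
  linear_combination (3 * Complex.cosh (s / 2)) * h3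

lemma sinh_three_half {s : ℂ} (hs : |s.im| < Real.pi / 3) :
    Complex.sinh (3 * s / 2) = Complex.cosh (s / 2) ^ 3 * (tq s * (3 + tq s ^ 2)) := by
  have h1 : Complex.sinh (3 * s / 2) = 4 * Complex.sinh (s / 2) ^ 3 + 3 * Complex.sinh (s / 2) := by
    rw [show 3 * s / 2 = 3 * (s / 2) by ring, Complex.sinh_three_mul]
  have h2 := tq_mul hs
  have h3 := Complex.cosh_sq (s / 2)
  rw [h1]
  have h4 : Complex.cosh (s / 2) ^ 3 * (tq s * (3 + tq s ^ 2)) =
      3 * Complex.cosh (s / 2) ^ 2 * (tq s * Complex.cosh (s / 2)) + (tq s * Complex.cosh (s / 2)) ^ 3 := by ring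
  rw [h4, h2]
  linear_combination (-3 * Complex.sinh (s / 2)) * h3

lemma one_add_ne {s : ℂ} (hs : |s.im| < Real.pi / 3) : 1 + 3 * tq s ^ 2 ≠ 0 := by
  intro h0
  have h1 := cosh_three_half hs
  rw [h0, mul_zero] at h1
  exact cosh_arg_ne hs h1

lemma ct_mul {s : ℂ} (hs : |s.im| < Real.pi / 3) : ct s * Complex.sinh s = Complex.cosh s * th s := by
  have hc := cosh_half_ne hs
  have h0 := one_add_ne hs
  have h1 : Complex.sinh s = 2 * Complex.sinh (s / 2) * Complex.cosh (s / 2) := by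
    conv_lhs => rw [show s = 2 * (s / 2) by ring, Complex.sinh_two_mul]
  have h2 : Complex.cosh s = Complex.cosh (s / 2) ^ 2 + Complex.sinh (s / 2) ^ 2 := by
    conv_lhs => rw [show s = 2 * (s / 2) by ring, Complex.cosh_two_mul]
  have h3 := tq_mul hs
  have h4 : th s = tq s * (3 + tq s ^ 2) / (1 + 3 * tq s ^ 2) := by
    rw [th, Complex.tanh_eq_sinh_div_cosh, cosh_three_half hs, sinh_three_half hs, mul_div_mul_left _ _ (pow_ne_zero 3 hc)]
  rw [h1, h2, h4, ct, ← h3]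
  field_simp

lemma tq_diff {s : ℂ} (hs : |s.im| < Real.pi / 3) : DifferentiableAt ℂ tq s := by
  have h2 : tq = fun z : ℂ => Complex.sinh (z / 2) / Complex.cosh (z / 2) := by
    funext z; rw [tq, Complex.tanh_eq_sinh_div_cosh]
  rw [h2]
  exact DifferentiableAt.div (by fun_prop) (by fun_prop) (cosh_half_ne hs)

lemma ct_diff {s : ℂ} (hs : |s.im| < Real.pi / 3) : DifferentiableAt ℂ ct s := by
  have h1 := tq_diff hs
  unfold ct
  refine DifferentiableAt.div (by fun_prop) (by fun_prop) ?_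
  exact mul_ne_zero two_ne_zero (one_add_ne hs)

lemma norm_tq_le {s : ℂ} (hs : |s.im| ≤ Real.pi / 6) : ‖tq s‖ ≤ 1 := by
  have hc := cosh_half_ne (s := s) (by linarith [Real.pi_pos])
  have h1 := normSq_sinh (s / 2)
  have h2 := normSq_cosh (s / 2)
  have h3 : (s / 2).im = s.im / 2 := by simp
  have h4 : (1 : ℝ) / 2 ≤ Real.cos (s / 2).im := by
    apply half_le_cos
    rw [h3, abs_div]; simp only [Nat.abs_ofNat]; linarith [Real.pi_pos]
  have h5 : Real.sin (s / 2).im ^ 2 ≤ Real.cos (s / 2).im ^ 2 := by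
    have h6 : Real.cos (2 * (s / 2).im) = Real.cos (s / 2).im ^ 2 - Real.sin (s / 2).im ^ 2 := Real.cos_two_mul' _
    have h7 : 0 ≤ Real.cos (2 * (s / 2).im) := by
      apply Real.cos_nonneg_of_mem_Icc
      rw [h3]
      have := abs_le.1 hs
      constructor <;> linarith [Real.pi_pos]
    linarith
  rw [tq, Complex.tanh_eq_sinh_div_cosh, norm_div, div_le_one (norm_pos_iff.2 hc)]
  apply le_of_sq_le_sq _ (norm_nonneg _)
  rw [h1, h2]
  linarith

/-- the function `P(coth² s) th(s)^(2n)` -/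
noncomputable def fr (P : Polynomial ℂ) (n : ℕ) (s : ℂ) : ℂ :=
  ∑ j ∈ Finset.range (n + 1), P.coeff j * ct s ^ (2 * j) * th s ^ (2 * (n - j))

lemma fr_eq (hn : P.natDegree ≤ n) {s : ℂ} (hs : |s.im| ≤ Real.pi / 6) (h0 : s ≠ 0) :
    fr P n s = dP P (s + 3 * sh) * th s ^ (2 * n) := by
  have hs' : |s.im| < Real.pi / 3 := by linarith [Real.pi_pos]
  have h1 := ne_sinh hs h0
  have h2 : ct s = Complex.cosh s / Complex.sinh s * th s := by
    rw [div_mul_eq_mul_div, ← ct_mul hs', mul_div_cancel_right₀ _ h1]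
  rw [dP_three, fr, Polynomial.eval_eq_sum_range' (Nat.lt_succ_of_le hn), Finset.sum_mul]
  apply Finset.sum_congr rfl
  intro j hj
  have hj' : j ≤ n := by simpa [Nat.lt_succ_iff] using hj
  have e : 2 * n = 2 * j + 2 * (n - j) := by omega
  rw [h2, mul_pow, ← pow_mul, e, pow_add]
  ring

lemma dcc_fr : DiffContOnCl ℂ (fr P n) So := by
  apply dcc_of_diff
  intro s hs
  have hs' : |s.im| < Real.pi / 3 := by linarith [Real.pi_pos]
  have h1 := ct_diff hs'
  have h2 : DifferentiableAt ℂ th s := (hasDerivAt_th hs').differentiableAt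
  unfold fr
  apply DifferentiableAt.fun_sum
  intro j _
  exact ((h1.pow _).const_mul _).mul (h2.pow _)

lemma norm_ct_le {s : ℂ} (hs : |s.im| ≤ Real.pi / 6) : ‖ct s‖ ≤ 8 := by
  have hs' : |s.im| < Real.pi / 3 := by linarith [Real.pi_pos]
  have h1 := cosh_three_half hs'
  have h2 := cosh_half_ne hs'
  have h3 : ‖Complex.cosh (s / 2)‖ ≤ Real.cosh (s.re / 2) := by
    apply le_of_sq_le_sq _ (Real.cosh_pos _).le
    rw [normSq_cosh, Real.cosh_sq]
    have : (s / 2).re = s.re / 2 := by simp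
    rw [this]
    linarith [Real.cos_sq_le_one (s / 2).im]
  have h4 : Real.cosh (3 * s.re / 2) ^ 2 / 2 ≤ ‖Complex.cosh (3 * s / 2)‖ ^ 2 := by
    rw [normSq_cosh, arg_re, arg_im, Real.cosh_sq]
    have := cos_sq_ge hs
    nlinarith [sq_nonneg (Real.sinh (3 * s.re / 2))]
  have h5 : Real.cosh (s.re / 2) ^ 3 ≤ Real.cosh (3 * s.re / 2) := by
    rw [show 3 * s.re / 2 = 3 * (s.re / 2) by ring, Real.cosh_three_mul]
    have := Real.one_le_cosh (s.re / 2)
    nlinarith [mul_nonneg (sub_nonneg.2 this) (sub_nonneg.2 this), pow_pos (Real.cosh_pos (s.re / 2)) 2]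
  have h6 : 1 / 2 ≤ ‖1 + 3 * tq s ^ 2‖ := by
    by_contra hcon
    push Not at hcon
    have h7 : ‖Complex.cosh (3 * s / 2)‖ ≤ Real.cosh (3 * s.re / 2) * (1 / 2) := by
      rw [h1, norm_mul, norm_pow]
      have h8 : ‖Complex.cosh (s / 2)‖ ^ 3 ≤ Real.cosh (3 * s.re / 2) := (pow_le_pow_left₀ (norm_nonneg _) h3 3).trans h5
      exact mul_le_mul h8 hcon.le (norm_nonneg _) (Real.cosh_pos _).le
    have h8 := pow_le_pow_left₀ (norm_nonneg _) h7 2
    have h9 := Real.cosh_pos (3 * s.re / 2)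
    nlinarith [pow_pos h9 2]
  have h7 := norm_tq_le hs
  have h8 : ‖tq s ^ 2‖ ≤ 1 := by rw [norm_pow]; exact pow_le_one₀ (norm_nonneg _) h7
  have h9 : ‖1 + tq s ^ 2‖ ≤ 2 := (norm_add_le _ _).trans (by rw [norm_one]; linarith)
  have h10 : ‖3 + tq s ^ 2‖ ≤ 4 := (norm_add_le _ _).trans (by rw [Complex.norm_ofNat]; linarith)
  rw [ct, norm_div, norm_mul, norm_mul, Complex.norm_ofNat, div_le_iff₀ (by linarith)]
  have h11 : ‖1 + tq s ^ 2‖ * ‖3 + tq s ^ 2‖ ≤ 2 * 4 := mul_le_mul h9 h10 (norm_nonneg _) (by norm_num)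
  linarith

lemma fr_bdd (P : Polynomial ℂ) (n : ℕ) : ∃ C₀ : ℝ, ∀ s ∈ Sc, ‖fr P n s‖ ≤ C₀ := by
  refine ⟨∑ j ∈ Finset.range (n + 1), ‖P.coeff j‖ * 8 ^ (2 * j), fun s hs => ?_⟩
  rw [mem_Sc] at hs
  refine (norm_sum_le _ _).trans (Finset.sum_le_sum fun j _ => ?_)
  rw [norm_mul, norm_mul, norm_pow, norm_pow]
  have h1 : ‖th s‖ ^ (2 * (n - j)) ≤ 1 := pow_le_one₀ (norm_nonneg _) (norm_th_le hs)
  have h2 : ‖ct s‖ ^ (2 * j) ≤ 8 ^ (2 * j) := pow_le_pow_left₀ (norm_nonneg _) (norm_ct_le hs) _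
  have h3 : ‖P.coeff j‖ * ‖ct s‖ ^ (2 * j) ≤ ‖P.coeff j‖ * 8 ^ (2 * j) := mul_le_mul_of_nonneg_left h2 (norm_nonneg _)
  exact (mul_le_of_le_one_right (by positivity) h1).trans h3

/-- on the lines the modulus is `|d(t+2a)|` -/
lemma fr_line (h : Lev n P) {s : ℂ} (hs : |s.im| = Real.pi / 6) : ‖fr P n s‖ = ‖dP P ((s.re : ℂ) + 2 * sh)‖ := by
  have hp := Real.pi_pos
  have h0 : s ≠ 0 := by
    intro h0; rw [h0, zero_im, abs_zero] at hs; linarith
  rw [fr_eq h.deg hs.le h0, norm_mul, norm_pow, norm_th_line hs, one_pow, mul_one]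
  rcases line_cases hs with h1 | h1
  · have e : s + 3 * sh = ((s.re : ℂ) - 2 * sh) + 6 * sh := by
      conv_lhs => rw [h1]
      ring
    rw [e, dP_add_six]
    have e2 : (s.re : ℂ) - 2 * sh = (starRingEnd ℂ) ((s.re : ℂ) + 2 * sh) := by
      rw [map_add, map_mul, conj_ofReal, conj_sh, Complex.conj_ofNat]; ring
    rw [e2, h.real _ ?_, Complex.norm_conj]
    have : ((s.re : ℂ) + 2 * sh).im = Real.pi / 3 := by simp; ring
    rw [this, abs_of_pos (by positivity)]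
    linarith
  · have e : s + 3 * sh = (s.re : ℂ) + 2 * sh := by
      conv_lhs => rw [h1]
      ring
    rw [e]

/-- crude bound -/
lemma crude (h : Lev n P) (t : ℝ) : ‖dP P ((t : ℂ) + 2 * sh)‖ ≤ 2 * Real.exp (3 * n) := by
  have hp := Real.pi_pos
  have him : ((t : ℂ) - sh).im = -(Real.pi / 6) := by simp
  have hre : ((t : ℂ) - sh).re = t := by simp
  have h1 := growth P h.deg (C := 2) (fun t => h.fe.norm_le_two t) (s := (t : ℂ) - sh)
    (by rw [him, abs_neg, abs_of_pos (by positivity)]; linarith) (by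
      intro h0
      have := congrArg Complex.im h0
      rw [him, zero_im] at this
      linarith)
  rw [← dP_three, show (t : ℂ) - sh + 3 * sh = (t : ℂ) + 2 * sh by ring] at h1
  -- lower bound for tanh
  have h2 : (1 : ℝ) / 16 ≤ ‖Complex.tanh (((t : ℂ) - sh) / 2)‖ ^ 2 := by
    have e1 : (((t : ℂ) - sh) / 2).re = t / 2 := by simp
    have e2 : (((t : ℂ) - sh) / 2).im = -(Real.pi / 12) := by simp; ring
    have h3 := normSq_sinh (((t : ℂ) - sh) / 2)
    have h4 := normSq_cosh (((t : ℂ) - sh) / 2)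
    rw [e1, e2, Real.sin_neg, neg_sq] at h3
    rw [e1, e2, Real.cos_neg] at h4
    have hc : Complex.cosh (((t : ℂ) - sh) / 2) ≠ 0 := cosh_ne (by rw [e2, abs_neg, abs_of_pos (by positivity)]; linarith)
    have h5 : (1 : ℝ) / 16 ≤ Real.sin (Real.pi / 12) ^ 2 := by
      have h6 := Real.mul_le_sin (x := Real.pi / 12) (by positivity) (by linarith)
      have h7 : 2 / Real.pi * (Real.pi / 12) = 1 / 6 := by field_simp; norm_num
      have h8 : Real.sin (Real.pi / 12) ^ 2 = (1 - Real.sqrt 3 / 2) / 2 := by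
        rw [Real.sin_sq, Real.cos_sq, show 2 * (Real.pi / 12) = Real.pi / 6 by ring, Real.cos_pi_div_six]; ring
      rw [h8]
      have h9 : Real.sqrt 3 ≤ 1.75 := by
        rw [Real.sqrt_le_left (by norm_num)]; norm_num
      linarith
    have h6 := Real.cos_sq_le_one (Real.pi / 12)
    rw [Complex.tanh_eq_sinh_div_cosh, norm_div, div_pow, le_div_iff₀ (by positivity), h3, h4]
    nlinarith [sq_nonneg (Real.sinh (t / 2))]
  have h3 : (1 / 16 : ℝ) ^ n ≤ ‖Complex.tanh (((t : ℂ) - sh) / 2)‖ ^ (2 * n) := by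
    rw [pow_mul]; exact pow_le_pow_left₀ (by norm_num) h2 n
  have h4 : ‖dP P ((t : ℂ) + 2 * sh)‖ * (1 / 16) ^ n ≤ 2 := (mul_le_mul_of_nonneg_left h3 (norm_nonneg _)).trans h1
  have h5 : (16 : ℝ) ^ n ≤ Real.exp (3 * n) := by
    rw [mul_comm, Real.exp_nat_mul]
    apply pow_le_pow_left₀ (by norm_num)
    have := Real.exp_one_gt_d9
    have e3 : Real.exp 3 = Real.exp 1 ^ 3 := by rw [← Real.exp_nat_mul]; norm_num
    rw [e3]
    nlinarith [pow_pos (Real.exp_pos 1) 2]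
  have h6 : (1 / 16 : ℝ) ^ n * 16 ^ n = 1 := by rw [← mul_pow]; norm_num
  calc ‖dP P ((t : ℂ) + 2 * sh)‖ = ‖dP P ((t : ℂ) + 2 * sh)‖ * (1 / 16) ^ n * 16 ^ n := by rw [mul_assoc, h6, mul_one]
    _ ≤ 2 * Real.exp (3 * n) := by gcongr

/-- sharp bound for moderate `t` -/
lemma sharp (h : Lev n P) {t : ℝ} (ht : ‖1 - dP P t‖ ≤ 1 / 4) : ‖dP P ((t : ℂ) + 2 * sh)‖ ≤ 2 := by
  have hp := Real.pi_pos
  have h1 := yf_apply_sub (dP P) ((t : ℂ) + 2 * sh)
  rw [show (t : ℂ) + 2 * sh - 2 * sh = t by ring, show (t : ℂ) + 2 * sh - sh = t + sh by ring] at h1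
  have h2 := h.fe.ymul t
  have h3 : yf (dP P) (t - sh) = (starRingEnd ℂ) (yf (dP P) (t + sh)) := by
    rw [← conj_line, yf_real h.real]
    rw [add_sh_im, ofReal_im, zero_add, abs_of_pos (by positivity)]
    linarith
  have h4 : ‖yf (dP P) (t + sh)‖ = ‖1 - dP P t‖ := by
    have h5 := congrArg norm h2
    rw [h3, norm_mul, Complex.norm_conj, norm_pow, ← sq] at h5
    exact (pow_left_inj₀ (norm_nonneg _) (norm_nonneg _) two_ne_zero).1 h5
  have h5 : 3 / 4 ≤ ‖dP P t‖ := by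
    have : ‖(1 : ℂ)‖ ≤ ‖(1 : ℂ) - dP P t‖ + ‖dP P t‖ := by
      have e : (1 : ℂ) = (1 - dP P t) + dP P t := by ring
      conv_lhs => rw [e]
      exact norm_add_le _ _
    rw [norm_one] at this
    linarith
  have h6 : ‖dP P ((t : ℂ) + 2 * sh)‖ * ‖dP P t‖ ≤ 5 / 4 := by
    rw [← norm_mul, h1]
    refine (norm_add_le _ _).trans ?_
    rw [norm_one, h4]
    linarith
  nlinarith [norm_nonneg (dP P ((t : ℂ) + 2 * sh))]

/-- for every `M` the powers `|th t|^M` are at least `1/3` far out -/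
lemma exists_far (M : ℕ) : ∃ R : ℝ, 0 ≤ R ∧ ∀ t : ℝ, R ≤ |t| → 1 ≤ 3 * ‖th t‖ ^ M := by
  refine ⟨M, by positivity, fun t ht => ?_⟩
  have h1 := one_sub_tanh (z := ((3 * |t| / 2 : ℝ) : ℂ)) (by rw [← Complex.ofReal_cosh]; exact_mod_cast (Real.cosh_pos _).ne')
  have h2 : (1 - Real.tanh (3 * |t| / 2)) * (Real.exp (3 * |t|) + 1) = 2 := by
    have e : ((3 * |t| / 2 : ℝ) : ℂ) + ((3 * |t| / 2 : ℝ) : ℂ) = ((3 * |t| : ℝ) : ℂ) := by push_cast; ring
    rw [e] at h1
    exact_mod_cast h1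
  have h3 : 3 * |t| + 1 ≤ Real.exp (3 * |t|) := Real.add_one_le_exp _
  have h0 := abs_nonneg t
  set x := 1 - Real.tanh (3 * |t| / 2) with hx
  have hx0 : 0 ≤ x := by
    have := Real.exp_pos (3 * |t|)
    by_contra hcon
    push Not at hcon
    nlinarith
  have h4 : (M : ℝ) * x ≤ 2 / 3 := by
    have h5 : 3 * |t| * x ≤ 2 := by nlinarith
    have h6 : (M : ℝ) * x ≤ |t| * x := by gcongr
    linarith
  have h5 : ‖th t‖ = 1 - x := by rw [norm_th_real, hx]; ring
  have h6 : x ≤ 1 := by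
    have := norm_nonneg (th (t : ℂ))
    linarith
  have h7 := one_add_mul_le_pow (a := -x) (by linarith) M
  rw [h5, sub_eq_add_neg]
  linarith

/-- **Growth bound with majorant.** -/
lemma fr_le (h : Lev n P) {M : ℕ} {R : ℝ} (hR : ∀ t : ℝ, R ≤ |t| → 1 ≤ 3 * ‖th t‖ ^ M)
    (hsm : ∀ t : ℝ, |t| ≤ R → ‖1 - dP P t‖ ≤ 1 / 4) {s : ℂ} (hs : |s.im| ≤ Real.pi / 6) :
    ‖fr P n s‖ ≤ 2 * Real.exp (3 * n * ‖HH M s‖) := by
  have hp := Real.pi_pos
  obtain ⟨C₀, hC₀⟩ := fr_bdd P n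
  have hC₀' : 0 ≤ C₀ := (norm_nonneg _).trans (hC₀ 0 (subset_closure.trans_eq closure_So zero_mem_So))
  have key := strip_le (f := fun z => fr P n z * Complex.exp ((-(3 * n) : ℂ) * HH M z)) (C := 2)
    (C₀ := C₀ * Real.exp (3 * n * 24)) ?_ ?_ ?_ hs
  · rw [norm_mul, Complex.norm_exp] at key
    have e : ((-(3 * n) : ℂ) * HH M s).re = -(3 * n * (HH M s).re) := by
      have : (-(3 * n) : ℂ) = ((-(3 * n) : ℝ) : ℂ) := by push_cast; ring
      rw [this, Complex.re_ofReal_mul]; ring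
    rw [e, Real.exp_neg, ← div_eq_mul_inv, div_le_iff₀ (Real.exp_pos _)] at key
    refine key.trans ?_
    have := Complex.re_le_norm (HH M s)
    gcongr
  · exact ⟨dcc_fr.1.mul (dcc_exp dcc_HH _).1, dcc_fr.2.mul (dcc_exp dcc_HH _).2⟩
  · intro z hz
    have hz1 := (mem_So.1 hz).le
    rw [norm_mul, Complex.norm_exp]
    have h1 := hC₀ z (mem_Sc.2 hz1)
    have h2 : ((-(3 * n) : ℂ) * HH M z).re ≤ 3 * n * 24 := by
      refine (Complex.re_le_norm _).trans ?_
      rw [norm_mul, norm_neg, norm_mul, Complex.norm_ofNat, Complex.norm_natCast]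
      have := norm_HH_le' (K := M) hz1
      gcongr
    exact mul_le_mul h1 (Real.exp_le_exp.2 h2) (Real.exp_pos _).le hC₀'
  · intro z hz
    rw [norm_mul, Complex.norm_exp, fr_line h hz]
    have e : ((-(3 * n) : ℂ) * HH M z).re = -(3 * n * (HH M z).re) := by
      have : (-(3 * n) : ℂ) = ((-(3 * n) : ℝ) : ℂ) := by push_cast; ring
      rw [this, Complex.re_ofReal_mul]; ring
    rw [e, Real.exp_neg, ← div_eq_mul_inv, div_le_iff₀ (Real.exp_pos _)]
    have h1 := re_HH_line (K := M) hz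
    have hn : (0 : ℝ) ≤ n := by positivity
    rcases le_total |z.re| R with hle | hle
    · have h2 := sharp h (hsm z.re hle)
      have h3 : 0 ≤ (HH M z).re := le_trans (by positivity) h1
      have h4 : 1 ≤ Real.exp (3 * n * (HH M z).re) := Real.one_le_exp (by positivity)
      linarith
    · have h2 := crude h z.re
      have h3 : 1 ≤ (HH M z).re := (hR _ hle).trans h1
      have h4 : Real.exp (3 * n) ≤ Real.exp (3 * n * (HH M z).re) := by
        rw [Real.exp_le_exp]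
        nlinarith
      linarith

end Ann
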