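import Pool.Agent.Helper2.Ann.YLimit

/-!
# The logarithmic derivative of `y`: the limit
-/

set_option autoImplicit false

namespace Ann

open Complex Set Filter Topology Metric

variable {n : ℕ} {P : Polynomial ℂ} {E c : ℝ}

/-- the error term `y'/y - 3K/sinh(3s)` -/
noncomputable def Lam (P : Polynomial ℂ) (n : ℕ) (s : ℂ) : ℂ :=
  deriv (yf (dP P)) s / yf (dP P) s - 3 * (2 * n + 2 : ℕ) / Complex.sinh (3 * s)

/-- hypotheses at one level: `c`, `E` and the smallness of `w` for `|Re s| ≤ 2` -/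
structure Good (n : ℕ) (P : Polynomial ℂ) (E c : ℝ) : Prop where
  lev : Lev n P
  ll : LL (2 * n + 2) (dP P) 1 E
  hc : 0 < c
  lower : c ≤ (2 * n + 2 : ℕ) * ‖1 - dP P 0‖
  small : ∀ s : ℂ, |s.re| ≤ 2 → |s.im| ≤ Real.pi / 4 → ‖wf (2 * n + 2) (dP P) s‖ ≤ c / 4
  big : CE E * W 2 < (2 * n + 2 : ℕ)

lemma W_two_le {x : ℝ} (hx : |x| ≤ 2) : W x ≤ W 2 := by
  unfold W
  have : Real.cosh (3 * x) ≤ Real.cosh (3 * 2) := by
    rw [Real.cosh_le_cosh, abs_mul, abs_mul, abs_of_pos (by norm_num : (0 : ℝ) < 2)]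
    gcongr
  linarith

/-- lower bound of `K (1-d)` near the real axis -/
lemma Good.low1 (h : Good n P E c) {z : ℂ} (hz : |z.re| ≤ 2) (hz2 : |z.im| ≤ Real.pi / 12) :
    c / 4 ≤ (2 * n + 2 : ℕ) * ‖1 - dP P z‖ := by
  have hp := Real.pi_pos
  have h1 := h.small z hz (by linarith)
  have h2 : (1 : ℝ) / 2 ≤ ‖Complex.cosh (3 * z)‖ := by
    have h3 := normSq_cosh (3 * z)
    have e : (3 * z).im = 3 * z.im := by simp
    have h4 : (1 : ℝ) / 2 ≤ Real.cos (3 * z).im := half_le_cos (by rw [e, abs_mul]; simp only [Nat.abs_ofNat]; linarith)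
    by_contra hcon
    push Not at hcon
    nlinarith [norm_nonneg (Complex.cosh (3 * z)), sq_nonneg (Real.sinh (3 * z).re)]
  have h3 : ‖((2 * n + 2 : ℕ) : ℂ) * (1 - dP P 0) * Complex.cosh (3 * z)‖ ≤
      ‖((2 * n + 2 : ℕ) : ℂ) * (1 - dP P z)‖ + ‖wf (2 * n + 2) (dP P) z‖ := by
    have e : ((2 * n + 2 : ℕ) : ℂ) * (1 - dP P 0) * Complex.cosh (3 * z) =
        ((2 * n + 2 : ℕ) : ℂ) * (1 - dP P z) - wf (2 * n + 2) (dP P) z := by rw [wf]; ring
    rw [e]; exact norm_sub_le _ _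
  rw [norm_mul, norm_mul, norm_mul, Complex.norm_natCast] at h3
  have h4 := h.lower
  have h5 : c * (1 / 2) ≤ (2 * n + 2 : ℕ) * ‖1 - dP P 0‖ * ‖Complex.cosh (3 * z)‖ :=
    mul_le_mul h4 h2 (by norm_num) (by positivity)
  linarith

lemma cosh_three_add_sh (z : ℂ) : Complex.cosh (3 * (z + sh)) = Complex.sinh (3 * z) * I := by
  rw [mul_add, cosh_three_sh]

lemma cosh_three_sub_sh (z : ℂ) : Complex.cosh (3 * (z - sh)) = -(Complex.sinh (3 * z) * I) := by
  have : 3 * (z - sh) = -(3 * (-z) + 3 * sh) := by ring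
  rw [this, Complex.cosh_neg, cosh_three_sh, mul_neg, Complex.sinh_neg, neg_mul]

lemma one_le_sinh {x : ℝ} (hx : 1 / 3 ≤ x) : 1 ≤ |Real.sinh (3 * x)| := by
  have h1 : 3 * x ≤ Real.sinh (3 * x) := Real.self_le_sinh_iff.2 (by linarith)
  exact (by linarith : (1 : ℝ) ≤ Real.sinh (3 * x)).trans (le_abs_self _)

/-- lower bound of `K (1-d)` at the shifted points -/
lemma Good.low2 (h : Good n P E c) {z : ℂ} (hz0 : 1 / 3 ≤ z.re) (hz : z.re ≤ 2) (hz2 : |z.im| ≤ Real.pi / 12) :
    c / 2 ≤ (2 * n + 2 : ℕ) * ‖1 - dP P (z + sh)‖ ∧ c / 2 ≤ (2 * n + 2 : ℕ) * ‖1 - dP P (z - sh)‖ := by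
  have hp := Real.pi_pos
  have hb := abs_le.1 hz2
  have h2 : (1 : ℝ) ≤ ‖Complex.sinh (3 * z)‖ := (one_le_sinh hz0).trans (sinh_norm_ge z)
  have h4 := h.lower
  have hc := h.hc
  have main : ∀ w : ℂ, |w.re| ≤ 2 → |w.im| ≤ Real.pi / 4 → ‖Complex.cosh (3 * w)‖ = ‖Complex.sinh (3 * z)‖ →
      c / 2 ≤ (2 * n + 2 : ℕ) * ‖1 - dP P w‖ := by
    intro w hw1 hw2 hw3
    have h1 := h.small w hw1 hw2
    have h3 : ‖((2 * n + 2 : ℕ) : ℂ) * (1 - dP P 0) * Complex.cosh (3 * w)‖ ≤
        ‖((2 * n + 2 : ℕ) : ℂ) * (1 - dP P w)‖ + ‖wf (2 * n + 2) (dP P) w‖ := by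
      have e : ((2 * n + 2 : ℕ) : ℂ) * (1 - dP P 0) * Complex.cosh (3 * w) =
          ((2 * n + 2 : ℕ) : ℂ) * (1 - dP P w) - wf (2 * n + 2) (dP P) w := by rw [wf]; ring
      rw [e]; exact norm_sub_le _ _
    rw [norm_mul, norm_mul, norm_mul, Complex.norm_natCast, hw3] at h3
    have h5 : c * 1 ≤ (2 * n + 2 : ℕ) * ‖1 - dP P 0‖ * ‖Complex.sinh (3 * z)‖ :=
      mul_le_mul h4 h2 (by norm_num) (by positivity)
    linarith
  constructor
  · apply main
    · have : (z + sh).re = z.re := by simp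
      rw [this, abs_le]; constructor <;> linarith
    · rw [add_sh_im, abs_le]; constructor <;> linarith
    · rw [cosh_three_add_sh, norm_mul, norm_I, mul_one]
  · apply main
    · have : (z - sh).re = z.re := by simp
      rw [this, abs_le]; constructor <;> linarith
    · rw [sub_sh_im, abs_le]; constructor <;> linarith
    · rw [cosh_three_sub_sh, norm_neg, norm_mul, norm_I, mul_one]

lemma ne_of_low {K : ℕ} {a : ℂ} {c : ℝ} (hc : 0 < c) (h : c ≤ K * ‖a‖) : a ≠ 0 := by
  intro h0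
  rw [h0, norm_zero, mul_zero] at h
  linarith

/-- `y` has no zeros in the region -/
lemma Good.y_ne (h : Good n P E c) {s : ℂ} (hs0 : 1 / 3 ≤ s.re) (hs1 : s.re ≤ 2) (hs : |s.im| ≤ Real.pi / 4) :
    yf (dP P) s ≠ 0 := by
  have hp := Real.pi_pos
  have hc := h.hc
  wlog h0 : 0 ≤ s.im generalizing s
  · have h1 := this (s := (starRingEnd ℂ) s) (by simpa using hs0) (by simpa using hs1) (by simpa using hs) (by simp; linarith)
    rw [yf_real h.lev.real (by linarith)] at h1
    simpa using h1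
  rw [abs_of_nonneg h0] at hs
  rcases le_total s.im (Real.pi / 12) with hl | hl
  · have h2 := h.low2 hs0 hs1 (by rw [abs_of_nonneg h0]; exact hl)
    have h3 := h.lev.y_three (s := s) (by rw [abs_of_nonneg h0]; linarith) (by
      intro h4; rw [h4, zero_re] at hs0; norm_num at hs0)
    intro h4
    rw [h4, zero_mul] at h3
    have h5 := ne_of_low (half_pos hc) h2.1
    have h6 := ne_of_low (half_pos hc) h2.2
    exact mul_ne_zero h5 h6 h3.symm
  · have h2 := h.low1 (z := s - sh) (by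
      have : (s - sh).re = s.re := by simp
      rw [this, abs_le]; constructor <;> linarith) (by rw [sub_sh_im, abs_le]; constructor <;> linarith)
    have h3 := h.lev.ymul (s := s - sh) (by rw [sub_sh_im, abs_le]; constructor <;> linarith)
    rw [show s - sh + sh = s by ring] at h3
    intro h4
    rw [h4, zero_mul] at h3
    have h5 := ne_of_low (by linarith : 0 < c / 4) h2
    exact pow_ne_zero 2 h5 h3.symm

lemma th_ne_zero {s : ℂ} (hs : |s.im| < Real.pi / 3) (h0 : s ≠ 0) : th s ≠ 0 := by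
  intro h1
  have h2 : Complex.sinh (3 * s) = 2 * Complex.sinh (3 * s / 2) * Complex.cosh (3 * s / 2) := by
    conv_lhs => rw [show 3 * s = 2 * (3 * s / 2) by ring, Complex.sinh_two_mul]
  have h3 := cosh_arg_ne hs
  rw [th, Complex.tanh_eq_sinh_div_cosh, div_eq_zero_iff] at h1
  rcases h1 with h1 | h1
  · rw [h1] at h2
    exact three_ne' hs h0 (by rw [h2]; ring)
  · exact h3 h1

lemma logDeriv_th {s : ℂ} (hs : |s.im| < Real.pi / 3) (h0 : s ≠ 0) : deriv th s / th s = 3 / Complex.sinh (3 * s) := by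
  have h2 : Complex.sinh (3 * s) = 2 * Complex.sinh (3 * s / 2) * Complex.cosh (3 * s / 2) := by
    conv_lhs => rw [show 3 * s = 2 * (3 * s / 2) by ring, Complex.sinh_two_mul]
  have h3 := cosh_arg_ne hs
  have h4 := three_ne' hs h0
  rw [h2] at h4
  have h5 : Complex.sinh (3 * s / 2) ≠ 0 := by
    intro h5; rw [h5] at h4; simp at h4
  rw [(hasDerivAt_th hs).deriv, h2, th, Complex.tanh_eq_sinh_div_cosh]
  field_simp

/-- the quotient `y / th^K` -/
noncomputable def gq (P : Polynomial ℂ) (n : ℕ) (s : ℂ) : ℂ := yf (dP P) s / th s ^ (2 * n + 2)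

lemma logDeriv_gq (h : Lev n P) {s : ℂ} (hs : |s.im| < Real.pi / 3) (h0 : s ≠ 0) (hy : yf (dP P) s ≠ 0) :
    deriv (gq P n) s / gq P n s = Lam P n s := by
  have h1 : DifferentiableAt ℂ (yf (dP P)) s := yf_diff h.fe.diff hs
  have h2 : DifferentiableAt ℂ th s := (hasDerivAt_th hs).differentiableAt
  have h3 := th_ne_zero hs h0
  have h4 : logDeriv (gq P n) s = logDeriv (yf (dP P)) s - logDeriv (fun z => th z ^ (2 * n + 2)) s :=
    logDeriv_div s hy (pow_ne_zero _ h3) h1 (h2.pow _)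
  have h5 : logDeriv (fun z => th z ^ (2 * n + 2)) s = (2 * n + 2 : ℕ) * logDeriv th s := logDeriv_fun_pow h2 _
  have h6 : logDeriv th s = 3 / Complex.sinh (3 * s) := by rw [logDeriv_apply]; exact logDeriv_th hs h0
  rw [h5, h6, logDeriv_apply, logDeriv_apply] at h4
  rw [h4, Lam]
  ring

/-- lower bound for `gq` at real points, in exponential form -/
lemma Good.gq_low (h : Good n P E c) {M : ℕ} {R : ℝ} (hR : ∀ t : ℝ, R ≤ |t| → 1 ≤ 3 * ‖th t‖ ^ M)
    (hsm : ∀ t : ℝ, |t| ≤ R → ‖1 - dP P t‖ ≤ 1 / 4) {x : ℝ} (hx0 : 1 / 3 ≤ x) (hx : x ≤ 2) :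
    3 ≤ ‖gq P n x‖ * Real.exp (3 * n * ‖HH M x‖ + 2 * Real.log (6 * (2 * n + 2 : ℕ) / c)) := by
  have hp := Real.pi_pos
  have hc := h.hc
  have hxr : |(x : ℂ).im| ≤ Real.pi / 12 := by rw [ofReal_im, abs_zero]; positivity
  have hxr' : |(x : ℂ).im| ≤ Real.pi / 6 := by rw [ofReal_im, abs_zero]; positivity
  have hx0' : (x : ℂ) ≠ 0 := by
    intro h0
    have := congrArg Complex.re h0
    simp at this
    linarith
  set K : ℕ := 2 * n + 2 with hK
  have hK0 : (0 : ℝ) < K := by rw [hK]; positivity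
  have h1 := h.low2 (z := (x : ℂ)) (by simpa using hx0) (by simpa using hx) hxr
  have h2 := h.lev.y_three (s := (x : ℂ)) hxr' hx0'
  have h3 := fr_eq h.lev.deg (s := (x : ℂ)) hxr' hx0'
  have h4 := fr_le h.lev hR hsm (s := (x : ℂ)) hxr'
  have h5 := norm_th_le (s := (x : ℂ)) hxr'
  have h6 : 0 < ‖th (x : ℂ)‖ := norm_pos_iff.2 (th_ne hxr' hx0')
  set T := ‖th (x : ℂ)‖ with hT
  set ex := Real.exp (3 * n * ‖HH M x‖) with hex
  have hex1 : 1 ≤ ex := Real.one_le_exp (by positivity)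
  -- `‖1 - d(x+3a)‖ T^{2n} ≤ 3 ex`
  have h7 : ‖1 - dP P ((x : ℂ) + 3 * sh)‖ * T ^ (2 * n) ≤ 3 * ex := by
    have e : (1 - dP P ((x : ℂ) + 3 * sh)) * th x ^ (2 * n) = th x ^ (2 * n) - fr P n x := by rw [h3]; ring
    have h8 : ‖(1 - dP P ((x : ℂ) + 3 * sh)) * th x ^ (2 * n)‖ ≤ 1 + 2 * ex := by
      rw [e]
      refine (norm_sub_le _ _).trans ?_
      have : ‖th (x : ℂ) ^ (2 * n)‖ ≤ 1 := by rw [norm_pow]; exact pow_le_one₀ h6.le h5
      linarith
    rw [norm_mul, norm_pow] at h8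
    linarith
  -- product of the two factors
  have h8 : (c / 2) * (c / 2) ≤ K ^ 2 * (‖yf (dP P) x‖ * ‖1 - dP P ((x : ℂ) + 3 * sh)‖) := by
    rw [← norm_mul, h2, norm_mul]
    calc (c / 2) * (c / 2) ≤ (K * ‖1 - dP P (x + sh)‖) * (K * ‖1 - dP P (x - sh)‖) :=
          mul_le_mul h1.1 h1.2 (by positivity) (by positivity)
      _ = _ := by ring
  have h9 : ‖gq P n x‖ * T ^ (2 * n + 2) = ‖yf (dP P) x‖ := by
    rw [gq, norm_div, norm_pow, div_mul_cancel₀ _ (pow_ne_zero _ h6.ne')]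
  have h10 : (c / 2) * (c / 2) ≤ K ^ 2 * (‖gq P n x‖ * (3 * ex)) := by
    refine h8.trans ?_
    rw [← h9]
    have h11 : T ^ (2 * n + 2) ≤ T ^ (2 * n) := pow_le_pow_of_le_one h6.le h5 (by omega)
    have h12 : ‖gq P n x‖ * T ^ (2 * n + 2) * ‖1 - dP P ((x : ℂ) + 3 * sh)‖ ≤ ‖gq P n x‖ * (3 * ex) := by
      calc ‖gq P n x‖ * T ^ (2 * n + 2) * ‖1 - dP P ((x : ℂ) + 3 * sh)‖
          ≤ ‖gq P n x‖ * T ^ (2 * n) * ‖1 - dP P ((x : ℂ) + 3 * sh)‖ := by gcongr
        _ = ‖gq P n x‖ * (‖1 - dP P ((x : ℂ) + 3 * sh)‖ * T ^ (2 * n)) := by ring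
        _ ≤ _ := by gcongr
    gcongr
  have h11 : Real.exp (3 * n * ‖HH M x‖ + 2 * Real.log (6 * K / c)) = ex * (6 * K / c) ^ 2 := by
    rw [Real.exp_add, ← hex, two_mul (Real.log _), Real.exp_add, Real.exp_log (by positivity), sq]
  rw [h11]
  have h12 : 3 * ((c / 2) * (c / 2)) * (4 / c ^ 2) = 3 := by field_simp; norm_num
  calc (3 : ℝ) = 3 * ((c / 2) * (c / 2)) * (4 / c ^ 2) := h12.symm
    _ ≤ 3 * (K ^ 2 * (‖gq P n x‖ * (3 * ex))) * (4 / c ^ 2) := by gcongr
    _ = ‖gq P n x‖ * (ex * (6 * K / c) ^ 2) := by field_simp; ring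

lemma pi_sixth_le : Real.pi / 6 ≤ 0.5236 := by
  have := Real.pi_lt_d4; linarith

/-- bound for `Lam` inside the strip -/
lemma Good.lam_in (h : Good n P E c) {V : ℝ} (hV : 0 < V)
    (hlow : ∀ x : ℝ, 1 / 2 ≤ x → x ≤ 3 / 2 → 3 ≤ ‖gq P n x‖ * Real.exp V)
    {s : ℂ} (hs0 : |s.re - 1| ≤ 1 / 7) (hs : |s.im| < Real.pi / 6) :
    ‖Lam P n s‖ * (Real.pi / 6 - |s.im|) ^ 2 ≤ 6 * V := by
  have hp := Real.pi_pos
  have hp6 := pi_sixth_le
  have hsre := abs_le.1 hs0
  have hin : ∀ z ∈ ball (s.re : ℂ) (Real.pi / 6), |z.im| < Real.pi / 6 ∧ 1 / 3 ≤ z.re ∧ z.re ≤ 2 := by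
    intro z hz
    rw [mem_ball_iff_norm] at hz
    have h1 := (Complex.abs_im_le_norm (z - s.re)).trans_lt hz
    have h2 := (Complex.abs_re_le_norm (z - s.re)).trans_lt hz
    rw [Complex.sub_im, ofReal_im, sub_zero] at h1
    rw [Complex.sub_re, ofReal_re, abs_lt] at h2
    refine ⟨h1, ?_, ?_⟩ <;> linarith
  have hne0 : ∀ z : ℂ, 1 / 3 ≤ z.re → z ≠ 0 := by
    intro z hz h0
    rw [h0, zero_re] at hz
    norm_num at hz
  have hy : ∀ z ∈ ball (s.re : ℂ) (Real.pi / 6), yf (dP P) z ≠ 0 := fun z hz =>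
    h.y_ne (hin z hz).2.1 (hin z hz).2.2 (by linarith [(hin z hz).1])
  have hth : ∀ z ∈ ball (s.re : ℂ) (Real.pi / 6), th z ≠ 0 := fun z hz =>
    th_ne_zero (by linarith [(hin z hz).1]) (hne0 z (hin z hz).2.1)
  have hsb : s ∈ ball (s.re : ℂ) (Real.pi / 6) := by
    rw [mem_ball_iff_norm]
    have : s - (s.re : ℂ) = ((s.im : ℝ) : ℂ) * I := by apply Complex.ext <;> simp
    rw [this, norm_mul, norm_I, mul_one, Complex.norm_real, Real.norm_eq_abs]
    exact hs
  have key := logDeriv_bound (f := gq P n) (c := (s.re : ℂ)) (ρ := Real.pi / 6) (M := V) (B := 3) (by positivity) ?_ ?_ ?_ hV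
    (hlow s.re (by linarith) (by linarith)) (z := s) hsb
  · rw [logDeriv_gq h.lev (by linarith) (hne0 s (by linarith)) (hy s hsb)] at key
    have e : ‖s - (s.re : ℂ)‖ = |s.im| := by
      have : s - (s.re : ℂ) = ((s.im : ℝ) : ℂ) * I := by apply Complex.ext <;> simp
      rw [this, norm_mul, norm_I, mul_one, Complex.norm_real, Real.norm_eq_abs]
    rw [e] at key
    have h5' : 0 < Real.pi / 6 - |s.im| := by linarith
    rw [le_div_iff₀ (by positivity)] at key
    refine key.trans ?_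
    nlinarith
  · intro z hz
    have h1 : DifferentiableAt ℂ (yf (dP P)) z := yf_diff h.lev.fe.diff (by linarith [(hin z hz).1])
    have h2 : DifferentiableAt ℂ th z := (hasDerivAt_th (by linarith [(hin z hz).1])).differentiableAt
    exact (h1.div (h2.pow _) (pow_ne_zero _ (hth z hz))).differentiableWithinAt
  · intro z hz
    exact div_ne_zero (hy z hz) (pow_ne_zero _ (hth z hz))
  · intro z hz
    rw [gq, norm_div, norm_pow, div_le_iff₀ (pow_pos (norm_pos_iff.2 (hth z hz)) _)]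
    exact h.lev.fe.norm_y_le_strip h.lev.real (hin z hz).1.le

/-- the constant for the term `2 d'/(1-d)` -/
noncomputable def C7 (E c : ℝ) : ℝ := 192 * CE E * W 2 / c

lemma C7_nonneg (hE : 0 ≤ E) (hc : 0 < c) : 0 ≤ C7 E c := by
  have := CE_ge hE
  have := W_pos 2
  unfold C7; positivity

/-- the logarithmic derivative of `1-d` near the real axis -/
lemma Good.ld_one (h : Good n P E c) {z : ℂ} (hz0 : |z.re - 1| ≤ 1 / 7) (hz : |z.im| ≤ Real.pi / 12) :
    ‖2 * (-deriv (dP P) z) / (1 - dP P z)‖ ≤ C7 E c := by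
  have hp := Real.pi_pos
  have hp6 := pi_sixth_le
  have hzre := abs_le.1 hz0
  have hzim := abs_le.1 hz
  have hc := h.hc
  have hE := h.ll.E_nonneg
  have hCE := CE_ge hE
  have hW := W_pos 2
  set K : ℕ := 2 * n + 2 with hK
  have hK0 : (0 : ℝ) < K := by rw [hK]; positivity
  have h1 := h.low1 (z := z) (by rw [abs_le]; constructor <;> linarith) hz
  -- bound of `1 - d` on the circle
  have h2 : ∀ w : ℂ, ‖w - z‖ ≤ Real.pi / 24 → ‖1 - dP P w‖ ≤ 3 * CE E * W 2 / K := by
    intro w hw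
    have h3 := (Complex.abs_im_le_norm (w - z)).trans hw
    have h4 := (Complex.abs_re_le_norm (w - z)).trans hw
    rw [Complex.sub_im] at h3
    rw [Complex.sub_re] at h4
    have h3' := abs_le.1 h3
    have h4' := abs_le.1 h4
    have hwr : |w.re| ≤ 2 := by rw [abs_le]; constructor <;> linarith
    have hWw := W_two_le hwr
    have h5 := h.ll.near (s := w) (by rw [abs_le]; constructor <;> linarith)
      (lt_of_le_of_lt (mul_le_mul_of_nonneg_left hWw (by linarith)) h.big)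
    rw [ofReal_one] at h5
    rw [le_div_iff₀ hK0, mul_comm]
    refine h5.trans ?_
    gcongr
  have h3 : ‖deriv (dP P) z‖ ≤ 3 * CE E * W 2 / K / (Real.pi / 24) := by
    have e : deriv (dP P) z = -deriv (fun w => 1 - dP P w) z := by
      rw [deriv_const_sub]; ring
    rw [e, norm_neg]
    refine Complex.norm_deriv_le_of_forall_mem_sphere_norm_le (by positivity) ?_ ?_
    · refine DifferentiableOn.diffContOnCl fun w hw => ?_
      rw [closure_ball _ (by positivity), mem_closedBall_iff_norm] at hw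
      have h3 := (Complex.abs_im_le_norm (w - z)).trans hw
      rw [Complex.sub_im] at h3
      have h3' := abs_le.1 h3
      exact ((dP_diff P (by rw [abs_lt]; constructor <;> linarith)).const_sub 1).differentiableWithinAt
    · intro w hw
      rw [mem_sphere_iff_norm] at hw
      exact h2 w hw.le
  have h4 : 3 * CE E * W 2 / K / (Real.pi / 24) ≤ 24 * CE E * W 2 / K := by
    rw [div_div, div_le_div_iff₀ (by positivity) hK0]
    have hp3 := Real.pi_gt_three
    have : 0 < CE E * W 2 * K := by positivity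
    nlinarith
  have hne : 1 - dP P z ≠ 0 := ne_of_low (by linarith : 0 < c / 4) h1
  have hpos := norm_pos_iff.2 hne
  rw [norm_div, norm_mul, norm_neg, Complex.norm_ofNat, div_le_iff₀ hpos, C7]
  have h5 : c / (4 * K) ≤ ‖1 - dP P z‖ := by
    rw [div_le_iff₀ (by positivity)]; linarith
  calc 2 * ‖deriv (dP P) z‖ ≤ 2 * (24 * CE E * W 2 / K) := by gcongr; exact h3.trans h4
    _ = 192 * CE E * W 2 / c * (c / (4 * K)) := by field_simp; ring
    _ ≤ 192 * CE E * W 2 / c * ‖1 - dP P z‖ := by gcongr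

/-- reflection formula for `Lam` -/
lemma Good.lam_refl (h : Good n P E c) {s : ℂ} (hs0 : |s.re - 1| ≤ 1 / 7) (hs1 : Real.pi / 12 ≤ s.im)
    (hs2 : s.im ≤ Real.pi / 4) :
    Lam P n s = 2 * (-deriv (dP P) (s - sh)) / (1 - dP P (s - sh)) - Lam P n (s - 2 * sh) := by
  have hp := Real.pi_pos
  have hsre := abs_le.1 hs0
  have hc := h.hc
  set p : ℂ := s - sh with hpd
  set s' : ℂ := s - 2 * sh with hs'
  have hpre : p.re = s.re := by simp [hpd]
  have hpim : p.im = s.im - Real.pi / 6 := by simp [hpd]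
  have hs're : s'.re = s.re := by simp [hs']
  have hs'im : s'.im = s.im - Real.pi / 3 := by simp [hs']; ring
  have hy1 := h.y_ne (s := s) (by linarith) (by linarith) (by rw [abs_of_pos (by linarith)]; exact hs2)
  have hy2 := h.y_ne (s := s') (by rw [hs're]; linarith) (by rw [hs're]; linarith) (by rw [hs'im, abs_le]; constructor <;> linarith)
  have hd := h.low1 (z := p) (by rw [hpre, abs_le]; constructor <;> linarith) (by rw [hpim, abs_le]; constructor <;> linarith)
  have hdne : 1 - dP P p ≠ 0 := ne_of_low (by linarith : 0 < c / 4) hd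
  -- the identity near `s`
  have hid : (fun z => yf (dP P) z * yf (dP P) (z - 2 * sh)) =ᶠ[𝓝 s] fun z => (1 - dP P (z - sh)) ^ 2 := by
    have hopen : IsOpen {z : ℂ | |(z - sh).im| < Real.pi / 6} := isOpen_lt (by fun_prop) (by fun_prop)
    have hmem : s ∈ {z : ℂ | |(z - sh).im| < Real.pi / 6} := by
      change |(s - sh).im| < Real.pi / 6
      rw [sub_sh_im, abs_lt]; constructor <;> linarith
    filter_upwards [hopen.mem_nhds hmem] with z hz
    change |(z - sh).im| < Real.pi / 6 at hz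
    have hz' := abs_lt.1 hz
    rw [sub_sh_im] at hz'
    have := ymul_of_cubic (d := dP P) (s := z - sh) (h.lev.cub _ (cosh_ne (by rw [sub_sh_im, abs_lt]; constructor <;> linarith))
      (cosh_ne (by
        have : (z - sh + 2 * sh).im = z.im + Real.pi / 6 := by simp; ring
        rw [this, abs_lt]; constructor <;> linarith))
      (cosh_ne (by
        have : (z - sh - 2 * sh).im = z.im - Real.pi / 2 := by simp; ring
        rw [this, abs_lt]; constructor <;> linarith)))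
    rw [show z - sh + sh = z by ring, show z - sh - sh = z - 2 * sh by ring] at this
    exact this
  have hD1 : HasDerivAt (yf (dP P)) (deriv (yf (dP P)) s) s :=
    (yf_diff h.lev.fe.diff (by rw [abs_of_pos (by linarith)]; linarith)).hasDerivAt
  have hD2 : HasDerivAt (fun z => yf (dP P) (z - 2 * sh)) (deriv (yf (dP P)) s') s := by
    have h3 : HasDerivAt (yf (dP P)) (deriv (yf (dP P)) s') s' :=
      (yf_diff h.lev.fe.diff (by rw [hs'im, abs_lt]; constructor <;> linarith)).hasDerivAt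
    have h4 : HasDerivAt (fun z : ℂ => z - 2 * sh) 1 s := (hasDerivAt_id s).sub_const _
    have h5 := HasDerivAt.comp s (h₂ := yf (dP P)) h3 h4
    rw [mul_one] at h5
    exact h5
  have hD3 : HasDerivAt (fun z => 1 - dP P (z - sh)) (-deriv (dP P) p) s := by
    have h3 : HasDerivAt (dP P) (deriv (dP P) p) p :=
      (dP_diff P (by rw [hpim, abs_lt]; constructor <;> linarith)).hasDerivAt
    have h4 : HasDerivAt (fun z : ℂ => z - sh) 1 s := (hasDerivAt_id s).sub_const _
    have h5 := HasDerivAt.comp s (h₂ := dP P) h3 h4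
    rw [mul_one] at h5
    exact h5.const_sub 1
  have hL : HasDerivAt (fun z => yf (dP P) z * yf (dP P) (z - 2 * sh))
      (deriv (yf (dP P)) s * yf (dP P) s' + yf (dP P) s * deriv (yf (dP P)) s') s := hD1.mul hD2
  have hR : HasDerivAt (fun z => (1 - dP P (z - sh)) ^ 2) (2 * (1 - dP P p) * (-deriv (dP P) p)) s := by
    have h3 := hD3.fun_pow 2
    have e : ((2 : ℕ) : ℂ) * (1 - dP P (s - sh)) ^ (2 - 1) * (-deriv (dP P) p) = 2 * (1 - dP P p) * (-deriv (dP P) p) := by
      rw [hpd]; norm_num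
    rw [e] at h3
    exact h3
  have hLR := (hL.congr_of_eventuallyEq hid.symm).unique hR
  have hval : yf (dP P) s * yf (dP P) s' = (1 - dP P p) ^ 2 := hid.self_of_nhds
  -- sinh
  have hsinh : Complex.sinh (3 * s') = -Complex.sinh (3 * s) := by
    have e : 3 * s' = 3 * s - Real.pi * I := by rw [hs', sh]; push_cast; ring
    rw [e, Complex.sinh_sub, Complex.cosh_mul_I, Complex.sinh_mul_I, Complex.cos_pi, Complex.sin_pi]
    ring
  rw [Lam, Lam, hsinh, div_neg]
  have hmain : deriv (yf (dP P)) s / yf (dP P) s + deriv (yf (dP P)) s' / yf (dP P) s' =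
      2 * (-deriv (dP P) p) / (1 - dP P p) := by
    rw [div_add_div _ _ hy1 hy2, hLR, hval]
    field_simp
  linear_combination hmain

/-- bound for `Lam` above the line -/
lemma Good.lam_above (h : Good n P E c) {V : ℝ} (hV : 0 < V)
    (hlow : ∀ x : ℝ, 1 / 2 ≤ x → x ≤ 3 / 2 → 3 ≤ ‖gq P n x‖ * Real.exp V)
    {s : ℂ} (hs0 : |s.re - 1| ≤ 1 / 7) (hs1 : Real.pi / 6 < s.im) (hs2 : s.im ≤ Real.pi / 4) :
    ‖Lam P n s‖ * (s.im - Real.pi / 6) ^ 2 ≤ C7 E c + 6 * V := by
  have hp := Real.pi_pos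
  have hp4 := Real.pi_le_four
  have hC7 := C7_nonneg h.ll.E_nonneg h.hc
  have hre : (s - 2 * sh).re = s.re := by simp
  have him : (s - 2 * sh).im = s.im - Real.pi / 3 := by simp; ring
  have habs : |(s - 2 * sh).im| = Real.pi / 3 - s.im := by rw [him, abs_of_neg (by linarith)]; ring
  have h1 := h.lam_in hV hlow (s := s - 2 * sh) (by rw [hre]; exact hs0) (by rw [habs]; linarith)
  rw [habs, show Real.pi / 6 - (Real.pi / 3 - s.im) = s.im - Real.pi / 6 by ring] at h1
  have h2 := h.ld_one (z := s - sh) (by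
    have : (s - sh).re = s.re := by simp
    rw [this]; exact hs0) (by rw [sub_sh_im, abs_le]; constructor <;> linarith)
  rw [h.lam_refl hs0 (by linarith) hs2]
  have hη : (s.im - Real.pi / 6) ^ 2 ≤ 1 := by
    have h3 : 0 ≤ s.im - Real.pi / 6 := by linarith
    have h4 : s.im - Real.pi / 6 ≤ 1 := by linarith
    nlinarith
  calc ‖2 * (-deriv (dP P) (s - sh)) / (1 - dP P (s - sh)) - Lam P n (s - 2 * sh)‖ * (s.im - Real.pi / 6) ^ 2
      ≤ (C7 E c + ‖Lam P n (s - 2 * sh)‖) * (s.im - Real.pi / 6) ^ 2 := by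
        gcongr
        exact (norm_sub_le _ _).trans (by linarith)
    _ = C7 E c * (s.im - Real.pi / 6) ^ 2 + ‖Lam P n (s - 2 * sh)‖ * (s.im - Real.pi / 6) ^ 2 := by ring
    _ ≤ C7 E c * 1 + 6 * V := by gcongr
    _ = C7 E c + 6 * V := by ring

lemma Lam_conj (h : Lev n P) {s : ℂ} (hs : |s.im| < Real.pi / 3) :
    Lam P n ((starRingEnd ℂ) s) = (starRingEnd ℂ) (Lam P n s) := by
  have h1 : deriv (yf (dP P)) ((starRingEnd ℂ) s) = (starRingEnd ℂ) (deriv (yf (dP P)) s) := by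
    have hopen : IsOpen {z : ℂ | |z.im| < Real.pi / 3} := isOpen_lt (by fun_prop) (by fun_prop)
    have h2 : ((starRingEnd ℂ) ∘ yf (dP P) ∘ (starRingEnd ℂ)) =ᶠ[𝓝 s] yf (dP P) := by
      filter_upwards [hopen.mem_nhds hs] with z hz
      simp only [Function.comp_apply]
      rw [yf_real h.real hz, Complex.conj_conj]
    have h3 := h2.deriv_eq
    rw [deriv_conj_conj] at h3
    simp only [Function.comp_apply] at h3
    rw [← h3, Complex.conj_conj]
  rw [Lam, Lam, h1, yf_real h.real hs, ← conj_three, Complex.sinh_conj]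
  simp only [map_sub, map_div₀, map_mul, map_natCast, Complex.conj_ofNat]

/-- **bound for `Lam` on the segment `Re s = 1`** -/
lemma Good.lam_all (h : Good n P E c) {V : ℝ} (hV : 0 < V)
    (hlow : ∀ x : ℝ, 1 / 2 ≤ x → x ≤ 3 / 2 → 3 ≤ ‖gq P n x‖ * Real.exp V)
    {s : ℂ} (hs0 : s.re = 1) (hs : |s.im| ≤ Real.pi / 4) : ‖Lam P n s‖ ≤ 456 * (6 * V + C7 E c) := by
  have hp := Real.pi_pos
  have hp3 := Real.pi_gt_three
  have hp4 := Real.pi_le_four
  have hC7 := C7_nonneg h.ll.E_nonneg h.hc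
  wlog h0 : 0 ≤ s.im generalizing s
  · have h1 := this (s := (starRingEnd ℂ) s) (by simpa using hs0) (by simpa using hs) (by simp; linarith)
    rwa [Lam_conj h.lev (by linarith), Complex.norm_conj] at h1
  rw [abs_of_nonneg h0] at hs
  rcases le_total s.im (Real.pi / 6 - Real.pi / 48) with hz | hz
  · have h1 := h.lam_in hV hlow (s := s) (by rw [hs0]; norm_num) (by rw [abs_of_nonneg h0]; linarith)
    rw [abs_of_nonneg h0] at h1
    have h2 : (1 / 16 : ℝ) ≤ Real.pi / 6 - s.im := by linarith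
    have h3 : (1 / 256 : ℝ) ≤ (Real.pi / 6 - s.im) ^ 2 := by nlinarith
    nlinarith [norm_nonneg (Lam P n s)]
  rcases le_total (Real.pi / 6 + Real.pi / 48) s.im with hz2 | hz2
  · have h1 := h.lam_above hV hlow (s := s) (by rw [hs0]; norm_num) (by linarith) hs
    have h2 : (1 / 16 : ℝ) ≤ s.im - Real.pi / 6 := by linarith
    have h3 : (1 / 256 : ℝ) ≤ (s.im - Real.pi / 6) ^ 2 := by nlinarith
    nlinarith [norm_nonneg (Lam P n s)]
  -- near the line
  set a : ℂ := 1 + sh with ha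
  have hare : a.re = 1 := by simp [ha]
  have haim : a.im = Real.pi / 6 := by simp [ha]
  have hin : ∀ w : ℂ, ‖w - a‖ ≤ Real.pi / 24 → Real.pi / 8 ≤ w.im ∧ w.im ≤ 5 * Real.pi / 24 ∧ |w.re - 1| ≤ 1 / 7 := by
    intro w hw
    have h1 := (Complex.abs_im_le_norm (w - a)).trans hw
    have h2 := (Complex.abs_re_le_norm (w - a)).trans hw
    rw [Complex.sub_im, haim] at h1
    rw [Complex.sub_re, hare] at h2
    have h1' := abs_le.1 h1
    have h6 := pi_sixth_le
    exact ⟨by linarith, by linarith, by linarith⟩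
  have hsan : ‖s - a‖ ≤ Real.pi / 24 / 2 := by
    have e : s - a = ((s.im - Real.pi / 6 : ℝ) : ℂ) * I := by
      apply Complex.ext <;> simp [ha, hs0]
    rw [e, norm_mul, norm_I, mul_one, Complex.norm_real, Real.norm_eq_abs, abs_le]
    constructor <;> linarith
  have key := circ (f := Lam P n) (c := a) (r := Real.pi / 24) (A := 6 * V + C7 E c) (m := 2) two_ne_zero
    (by positivity) ?_ (by positivity) ?_ hsan
  · refine key.trans ?_
    have h1 : (8 / (3 * (Real.pi / 24))) ^ 2 ≤ 456 := by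
      rw [div_pow, div_le_iff₀ (by positivity)]
      nlinarith
    calc (6 * V + C7 E c) * (8 / (3 * (Real.pi / 24))) ^ 2 ≤ (6 * V + C7 E c) * 456 := by gcongr
      _ = 456 * (6 * V + C7 E c) := by ring
  · refine DifferentiableOn.diffContOnCl fun w hw => ?_
    rw [closure_ball _ (by positivity), mem_closedBall_iff_norm] at hw
    have h1 := hin w hw
    have hwre := abs_le.1 h1.2.2
    have hopen : IsOpen {z : ℂ | |z.im| < Real.pi / 3} := isOpen_lt (by fun_prop) (by fun_prop)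
    have h2 : |w.im| < Real.pi / 3 := by rw [abs_lt]; constructor <;> linarith [h1.1, h1.2.1]
    have h3 : DifferentiableOn ℂ (yf (dP P)) {z : ℂ | |z.im| < Real.pi / 3} := fun y hy =>
      (yf_diff h.lev.fe.diff hy).differentiableWithinAt
    have h4 : DifferentiableAt ℂ (deriv (yf (dP P))) w := (h3.deriv hopen).differentiableAt (hopen.mem_nhds h2)
    have h5 := h.y_ne (s := w) (by linarith) (by linarith) (by rw [abs_le]; constructor <;> linarith [h1.1, h1.2.1])
    have h6 : w ≠ 0 := by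
      intro h6; rw [h6, zero_re] at hwre; linarith
    have h7 := three_ne' h2 h6
    have h8 : DifferentiableAt ℂ (fun z : ℂ => Complex.sinh (3 * z)) w := (sinh3_deriv w).differentiableAt
    exact ((h4.div (h3.differentiableAt (hopen.mem_nhds h2)) h5).sub
      ((differentiableAt_const _).div h8 h7)).differentiableWithinAt
  · intro w hw hne
    have h1 := hin w hw.le
    rw [Complex.sub_im, haim] at *
    rw [sq_abs]
    rcases lt_or_gt_of_ne (sub_ne_zero.1 hne) with hlt | hgt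
    · have h3 := h.lam_in hV hlow (s := w) h1.2.2 (by rw [abs_of_pos (by linarith [h1.1])]; exact hlt)
      rw [abs_of_pos (by linarith [h1.1])] at h3
      have h4 : (w.im - Real.pi / 6) ^ 2 = (Real.pi / 6 - w.im) ^ 2 := by ring
      rw [h4]
      linarith
    · have h3 := h.lam_above hV hlow (s := w) h1.2.2 hgt (by linarith [h1.2.1])
      linarith

end Ann
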